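import Pool.Agent.B2g.Cro

/-! Module DIG (MP_491344_nt, text MP_491344_nt_b2g_helper7.md). -/

namespace Pool.Agent.B2g

/-- uniqueness of base `q` digits -/
theorem DIG_uniq {q : ℕ} : ∀ (n : ℕ) (f g : ℕ → ℕ), (∀ j, f j < q) → (∀ j, g j < q) →
    ∑ j ∈ Finset.range n, f j * q ^ j = ∑ j ∈ Finset.range n, g j * q ^ j →
    ∀ j < n, f j = g j := by
  intro n
  induction n with
  | zero => intro f g _ _ _ j hj; omega
  | succ n ih =>
    intro f g hf hg h
    rw [Finset.sum_range_succ', Finset.sum_range_succ'] at h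
    have e1 : ∀ F : ℕ → ℕ, ∑ j ∈ Finset.range n, F (j + 1) * q ^ (j + 1) =
        q * ∑ j ∈ Finset.range n, F (j + 1) * q ^ j := by
      intro F
      rw [Finset.mul_sum]
      refine Finset.sum_congr rfl fun j _ => ?_
      rw [pow_succ]; ring
    rw [e1 f, e1 g] at h
    simp only [pow_zero, mul_one] at h
    have h0 : f 0 = g 0 := by
      have := congrArg (· % q) h
      simpa [Nat.add_mod, Nat.mul_mod_right, Nat.mod_eq_of_lt (hf 0),
        Nat.mod_eq_of_lt (hg 0)] using this
    have hq : 0 < q := lt_of_le_of_lt (Nat.zero_le _) (hf 0)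
    have h1 : ∑ j ∈ Finset.range n, f (j + 1) * q ^ j =
        ∑ j ∈ Finset.range n, g (j + 1) * q ^ j := by
      rw [h0] at h
      exact Nat.eq_of_mul_eq_mul_left hq (Nat.add_right_cancel h)
    intro j hj
    rcases j with _ | j
    · exact h0
    · exact ih (fun j => f (j + 1)) (fun j => g (j + 1)) (fun j => hf _) (fun j => hg _) h1 j
        (by omega)

/-- digit sums are small -/
theorem DIG_lt {q : ℕ} (n : ℕ) (f : ℕ → ℕ) (hf : ∀ j, f j < q) :
    ∑ j ∈ Finset.range n, f j * q ^ j < q ^ n := by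
  induction n with
  | zero => simp
  | succ n ih =>
    rw [Finset.sum_range_succ, pow_succ]
    have : f n * q ^ n ≤ (q - 1) * q ^ n := Nat.mul_le_mul_right _ (by have := hf n; omega)
    have hq : 0 < q := lt_of_le_of_lt (Nat.zero_le _) (hf 0)
    calc _ < q ^ n + (q - 1) * q ^ n := by omega
      _ = q ^ n * q := by
        obtain ⟨r, rfl⟩ : ∃ r, q = r + 1 := ⟨q - 1, by omega⟩
        simp only [Nat.add_sub_cancel]; ring

variable {p : ℕ} [Fact p.Prime]

section Code

/-- reserved position of scale `i` -/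
def DIG_tau (s : ℕ → ℕ) (i : ℕ) : ℕ := 2 * s i + i

/-- positions that are not reserved -/
def DIG_np (s : ℕ → ℕ) (j : ℕ) : Prop := ∀ i, DIG_tau s i ≠ j

/-- component number `m` of a vector -/
def DIG_comp (a : V p) (m : ℕ) : ℕ :=
  if m % 2 = 0 then (a (m / 2)).1.val else (a (m / 2)).2.val

open Classical in
/-- the digits of the code -/
noncomputable def DIG_d (s : ℕ → ℕ) (i : ℕ) (a : V p) (j : ℕ) : ℕ :=
  if j = DIG_tau s i then 1 else
    if DIG_np s j then DIG_comp a (Nat.count (DIG_np s) j) else 0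

/-- the code -/
noncomputable def DIG_code (s : ℕ → ℕ) (i : ℕ) (a : V p) : ℕ :=
  ∑ j ∈ Finset.range (DIG_tau s i + 1), DIG_d s i a j * (2 * p) ^ j

theorem DIG_comp_lt (a : V p) (m : ℕ) : DIG_comp a m < p := by
  unfold DIG_comp
  split_ifs <;> exact ZMod.val_lt _

theorem DIG_d_lt (s : ℕ → ℕ) (i : ℕ) (a : V p) (j : ℕ) : DIG_d s i a j < p := by
  unfold DIG_d
  have hp : 1 < p := (Fact.out : p.Prime).one_lt
  split_ifs
  · exact hp
  · exact DIG_comp_lt _ _
  · omega

theorem DIG_tau_mono {s : ℕ → ℕ} (hs : StrictMono s) : StrictMono (DIG_tau s) := by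
  intro i j hij
  have := hs hij
  unfold DIG_tau
  omega

theorem DIG_d_tau {s : ℕ → ℕ} (hs : StrictMono s) (i : ℕ) (a : V p) (l : ℕ) :
    DIG_d s i a (DIG_tau s l) = if l = i then 1 else 0 := by
  unfold DIG_d
  by_cases h : l = i
  · subst h; simp
  · have h1 : DIG_tau s l ≠ DIG_tau s i := fun h' => h ((DIG_tau_mono hs).injective h')
    have h2 : ¬ DIG_np s (DIG_tau s l) := by
      unfold DIG_np; push Not; exact ⟨l, rfl⟩
    simp [h, h1, h2]

open Classical in
theorem DIG_count {s : ℕ → ℕ} (hs : StrictMono s) (i : ℕ) :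
    Nat.count (DIG_np s) (DIG_tau s i) = 2 * s i := by
  have h1 : Nat.count (DIG_np s) (DIG_tau s i) +
      Nat.count (fun j => ¬ DIG_np s j) (DIG_tau s i) = DIG_tau s i := by
    rw [Nat.count_eq_card_filter_range, Nat.count_eq_card_filter_range,
      Finset.card_filter_add_card_filter_not, Finset.card_range]
  have h2 : Nat.count (fun j => ¬ DIG_np s j) (DIG_tau s i) = i := by
    rw [Nat.count_eq_card_filter_range]
    have : (Finset.range (DIG_tau s i)).filter (fun j => ¬ DIG_np s j) =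
        (Finset.range i).image (DIG_tau s) := by
      ext j
      simp only [Finset.mem_filter, Finset.mem_range, DIG_np, ne_eq, not_forall, not_not,
        Finset.mem_image]
      constructor
      · rintro ⟨h, l, rfl⟩
        exact ⟨l, (DIG_tau_mono hs).lt_iff_lt.1 h, rfl⟩
      · rintro ⟨l, hl, rfl⟩
        exact ⟨DIG_tau_mono hs hl, l, rfl⟩
    rw [this, Finset.card_image_of_injective _ (DIG_tau_mono hs).injective, Finset.card_range]
  unfold DIG_tau at *
  omega

theorem DIG_inf {s : ℕ → ℕ} (hs : StrictMono s) : {j | DIG_np s j}.Infinite := by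
  classical
  intro hfin
  obtain ⟨b, hb⟩ := hfin.bddAbove
  have h1 := DIG_count hs (b + 1)
  have h2 : Nat.count (DIG_np s) (DIG_tau s (b + 1)) ≤ b + 1 := by
    rw [Nat.count_eq_card_filter_range]
    calc _ ≤ (Finset.range (b + 1)).card := by
          refine Finset.card_le_card fun j hj => ?_
          rw [Finset.mem_filter] at hj
          have := hb hj.2
          rw [Finset.mem_range]; omega
      _ = b + 1 := Finset.card_range _
  have := hs.le_apply (x := b + 1)
  omega

theorem DIG_d_nth {s : ℕ → ℕ} (hs : StrictMono s) (i : ℕ) (a : V p) (m : ℕ) :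
    DIG_d s i a (Nat.nth (DIG_np s) m) = DIG_comp a m := by
  classical
  have h1 : DIG_np s (Nat.nth (DIG_np s) m) := Nat.nth_mem_of_infinite (DIG_inf hs) m
  have h2 : Nat.count (DIG_np s) (Nat.nth (DIG_np s) m) = m :=
    Nat.count_nth_of_infinite (DIG_inf hs) m
  unfold DIG_d
  rw [if_neg (fun h => h1 i h.symm), if_pos h1]
  congr 1

theorem DIG_d_zero {s : ℕ → ℕ} (hs : StrictMono s) {i : ℕ} {a : V p}
    (ha : ∀ k, s i ≤ k → a k = 0) {j : ℕ} (hj : DIG_tau s i < j) : DIG_d s i a j = 0 := by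
  classical
  unfold DIG_d
  rw [if_neg (by omega)]
  split_ifs with h
  · have h1 : 2 * s i ≤ Nat.count (DIG_np s) j := by
      rw [← DIG_count hs i]
      exact Nat.count_monotone _ hj.le
    have h2 : 2 * s i ≤ @Nat.count (DIG_np s) (fun a => Classical.propDecidable _) j := by
      convert h1
    unfold DIG_comp
    have h3 : s i ≤ @Nat.count (DIG_np s) (fun a => Classical.propDecidable _) j / 2 := by omega
    rw [ha _ h3]
    simp
  · rfl

theorem DIG_code_eq {s : ℕ → ℕ} (hs : StrictMono s) {i : ℕ} {a : V p}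
    (ha : ∀ k, s i ≤ k → a k = 0) {n : ℕ} (hn : DIG_tau s i < n) :
    DIG_code s i a = ∑ j ∈ Finset.range n, DIG_d s i a j * (2 * p) ^ j := by
  unfold DIG_code
  refine Finset.sum_subset (Finset.range_mono (by omega)) fun j _ hj => ?_
  rw [Finset.mem_range, not_lt] at hj
  rw [DIG_d_zero hs ha (by omega), zero_mul]

/-- digits of a sum of two codes -/
theorem DIG_sum {s : ℕ → ℕ} (hs : StrictMono s) {i k i' k' : ℕ} {a b a' b' : V p}
    (ha : ∀ l, s i ≤ l → a l = 0) (hb : ∀ l, s k ≤ l → b l = 0)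
    (ha' : ∀ l, s i' ≤ l → a' l = 0) (hb' : ∀ l, s k' ≤ l → b' l = 0)
    (h : DIG_code s i a + DIG_code s k b = DIG_code s i' a' + DIG_code s k' b') (j : ℕ) :
    DIG_d s i a j + DIG_d s k b j = DIG_d s i' a' j + DIG_d s k' b' j := by
  set n := DIG_tau s i + DIG_tau s k + DIG_tau s i' + DIG_tau s k' + j + 1 with hn
  rw [DIG_code_eq hs ha (n := n) (by omega), DIG_code_eq hs hb (n := n) (by omega),
    DIG_code_eq hs ha' (n := n) (by omega), DIG_code_eq hs hb' (n := n) (by omega),
    ← Finset.sum_add_distrib, ← Finset.sum_add_distrib] at h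
  simp only [← add_mul] at h
  refine DIG_uniq (q := 2 * p) n (fun j => DIG_d s i a j + DIG_d s k b j)
    (fun j => DIG_d s i' a' j + DIG_d s k' b' j) ?_ ?_ h j (by omega)
  · intro j
    have := DIG_d_lt s i a j
    have := DIG_d_lt s k b j
    omega
  · intro j
    have := DIG_d_lt s i' a' j
    have := DIG_d_lt s k' b' j
    omega

theorem DIG_vec {a b a' b' : V p}
    (h : ∀ m, DIG_comp a m + DIG_comp b m = DIG_comp a' m + DIG_comp b' m) :
    a + b = a' + b' := by
  funext k
  have h1 := h (2 * k)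
  have h2 := h (2 * k + 1)
  unfold DIG_comp at h1 h2
  have e1 : 2 * k % 2 = 0 := by omega
  have e2 : (2 * k + 1) % 2 = 1 := by omega
  have e3 : 2 * k / 2 = k := by omega
  have e4 : (2 * k + 1) / 2 = k := by omega
  simp only [e1, e2, e3, e4, if_true] at h1 h2
  simp only [one_ne_zero, if_false] at h2
  refine Prod.ext ?_ ?_
  · have := congrArg (fun x : ℕ => (x : ZMod p)) h1
    simpa using this
  · have := congrArg (fun x : ℕ => (x : ZMod p)) h2
    simpa using this

theorem DIG_main {s : ℕ → ℕ} (hs : StrictMono s) {i k i' k' : ℕ} {a b a' b' : V p}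
    (ha : ∀ l, s i ≤ l → a l = 0) (hb : ∀ l, s k ≤ l → b l = 0)
    (ha' : ∀ l, s i' ≤ l → a' l = 0) (hb' : ∀ l, s k' ≤ l → b' l = 0)
    (h : DIG_code s i a + DIG_code s k b = DIG_code s i' a' + DIG_code s k' b') :
    ((i' = i ∧ k' = k) ∨ (i' = k ∧ k' = i)) ∧ a + b = a' + b' := by
  have hj := DIG_sum hs ha hb ha' hb' h
  constructor
  · have h1 := hj (DIG_tau s i)
    have h2 := hj (DIG_tau s k)
    have h3 := hj (DIG_tau s i')
    have h4 := hj (DIG_tau s k')
    simp only [DIG_d_tau hs] at h1 h2 h3 h4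
    clear h hj ha hb ha' hb'
    by_cases c1 : i' = i
    · subst c1
      left
      refine ⟨rfl, ?_⟩
      by_cases c2 : k' = k
      · exact c2
      · simp [c2, Ne.symm c2] at h2 h4
    · right
      by_cases c2 : i' = k
      · subst c2
        refine ⟨rfl, ?_⟩
        by_contra c3
        simp [c1, Ne.symm c1, c3, Ne.symm c3] at h1
      · exfalso
        simp [c1, c2] at h3
        omega
  · refine DIG_vec fun m => ?_
    have := hj (Nat.nth (DIG_np s) m)
    simpa only [DIG_d_nth hs] using this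

end Code

/-- Module DIG.  `q = 2p`.  Position `k` of a vector gets the two digits
`P k = 2k + #{i | s i ≤ k}` and `P k + 1`, scale `i` the reserved digit `τ i = 2 (s i) + i`
(it is not of the form `P k`, `P k + 1`).  `code i a = ∑_{k < s i} ((a k).1.val q^(P k) +
(a k).2.val q^(P k + 1)) + q^(τ i)`, `A = ⋃ i, code i '' X i`.  Digits of `code i a + code k b` in
base `q` are the sums of the digits (`≤ 2 (p - 1) < q`): uniqueness of base `q` expansions shows
that the sum determines the multiset `{i, k}` (reserved digits) and `a + b` (`val a + val b` mod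
`p`).  If `n` has a representation with scales `{i, k}`, `i ≤ k`, then every ordered
representation is `(code i a, code k b)` or `(code k b, code i a)` with `a + b = t` fixed: at most
`R + R` (`Cross`, `Cross.symm`).  `code i` is injective on vectors supported in `[0, s i)`
and `1 ≤ code i a < q^(τ i + 1)`. -/
theorem encode {s : ℕ → ℕ} (hs : StrictMono s) {X : ℕ → Set (V p)} {R : ℕ}
    (hsupp : ∀ i, ∀ a ∈ X i, ∀ k, s i ≤ k → a k = 0)
    (hC : ∀ i k, i ≤ k → Cross (X i) (X k) R) :
    ∃ A : Set ℕ, (∀ n : ℕ, Set.ncard {x : ℕ × ℕ | x.1 ∈ A ∧ x.2 ∈ A ∧ x.1 + x.2 = n} ≤ 2 * R) ∧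
      ∀ i N, (2 * p) ^ (2 * s i + i + 1) ≤ N → (X i).ncard ≤ (A ∩ Set.Icc 1 N).ncard := by
  have hC' : ∀ i k, Cross (X i) (X k) R := by
    intro i k
    rcases le_total i k with h | h
    · exact hC i k h
    · exact (hC k i h).symm
  refine ⟨{x | ∃ i, ∃ a ∈ X i, x = DIG_code s i a}, ?_, ?_⟩
  · intro n
    set T := {x : ℕ × ℕ | x.1 ∈ {x | ∃ i, ∃ a ∈ X i, x = DIG_code s i a} ∧
      x.2 ∈ {x | ∃ i, ∃ a ∈ X i, x = DIG_code s i a} ∧ x.1 + x.2 = n} with hT
    rcases T.eq_empty_or_nonempty with h0 | ⟨⟨x0, y0⟩, ⟨i, a0, ha0, hx0⟩, ⟨k, b0, hb0, hy0⟩, hn⟩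
    · rw [h0]; simp
    simp only at hx0 hy0 hn
    subst hx0 hy0
    set t := a0 + b0 with ht
    set S := {a | a ∈ X i ∧ t - a ∈ X k} with hS
    have hSR : S.encard ≤ R := hC' i k t
    have hsub : T ⊆ (fun a => (DIG_code s i a, DIG_code s k (t - a))) '' S ∪
        (fun a => (DIG_code s k (t - a), DIG_code s i a)) '' S := by
      rintro ⟨x, y⟩ ⟨⟨i', a', ha', hx⟩, ⟨k', b', hb', hy⟩, hxy⟩
      simp only at hx hy hxy
      subst hx hy
      obtain ⟨h1, h2⟩ := DIG_main hs (hsupp i a0 ha0) (hsupp k b0 hb0) (hsupp i' a' ha')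
        (hsupp k' b' hb') (hn.trans hxy.symm)
      have h3 : t - a' = b' := by rw [ht, h2]; abel
      have h4 : t - b' = a' := by rw [ht, h2]; abel
      rcases h1 with ⟨rfl, rfl⟩ | ⟨rfl, rfl⟩
      · left
        exact ⟨a', ⟨ha', by rw [h3]; exact hb'⟩, by simp [h3]⟩
      · right
        exact ⟨b', ⟨hb', by rw [h4]; exact ha'⟩, by simp [h4]⟩
    have hcard : T.encard ≤ ((2 * R : ℕ) : ℕ∞) := by
      calc T.encard ≤ _ := Set.encard_le_encard hsub
        _ ≤ _ := Set.encard_union_le _ _
        _ ≤ S.encard + S.encard := add_le_add (Set.encard_image_le _ _) (Set.encard_image_le _ _)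
        _ ≤ (R : ℕ∞) + R := add_le_add hSR hSR
        _ = _ := by push_cast; ring
    exact ENat.toNat_le_of_le_natCast hcard
  · intro i N hN
    have hq : 1 < 2 * p := by have := (Fact.out : p.Prime).one_lt; omega
    have hinj : Set.InjOn (DIG_code s i) (X i) := by
      intro a ha b hb hab
      obtain ⟨-, h2⟩ := DIG_main hs (hsupp i a ha) (hsupp i a ha) (hsupp i a ha) (hsupp i b hb)
        (show DIG_code s i a + DIG_code s i a = DIG_code s i a + DIG_code s i b by rw [hab])
      exact add_left_cancel h2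
    rw [← hinj.ncard_image]
    refine Set.ncard_le_ncard ?_ ((Set.finite_Icc 1 N).inter_of_right _)
    rintro x ⟨a, ha, rfl⟩
    refine ⟨⟨i, a, ha, rfl⟩, ?_, ?_⟩
    · have h1 : DIG_d s i a (DIG_tau s i) * (2 * p) ^ (DIG_tau s i) ≤ DIG_code s i a := by
        unfold DIG_code
        exact Finset.single_le_sum (f := fun j => DIG_d s i a j * (2 * p) ^ j)
          (fun _ _ => Nat.zero_le _) (Finset.mem_range.2 (Nat.lt_succ_self _))
      rw [DIG_d_tau hs, if_pos rfl, one_mul] at h1
      exact le_trans (Nat.one_le_pow _ _ (by omega)) h1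
    · refine le_trans (le_of_lt ?_) hN
      have := DIG_lt (q := 2 * p) (DIG_tau s i + 1) (DIG_d s i a)
        (fun j => by have := DIG_d_lt s i a j; omega)
      exact this

end Pool.Agent.B2g
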