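import Pool.Agent.B2g.Del
import Pool.Agent.B2g.Dig

/-! Module ASY (MP_491344_nt, text MP_491344_nt_b2g_helper7.md). -/

namespace Pool.Agent.B2g

variable {p ν : ℕ} [Fact p.Prime]

/-- the numerical inequality of the asymptotics, `c = ε / 8` -/
theorem ASY_num {c x S S' i : ℝ} (hc : 0 < c) (hc2 : c < 1 / 16) (hi : 0 ≤ i)
    (hx : 13 * c * x ≥ 3 + i) (hS : x ≤ S) (hS' : S' ≤ (1 + c) * S + 1) :
    (1 / 2 - 8 * c) * (2 * S' + i + 2) ≤ (1 - c) * ((1 - c) * S) - 1 := by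
  have h0 : 0 ≤ 1 / 2 - 8 * c := by linarith
  have h1 : (1 / 2 - 8 * c) * (2 * S' + i + 2) ≤
      (1 / 2 - 8 * c) * (2 * ((1 + c) * S + 1) + i + 2) :=
    mul_le_mul_of_nonneg_left (by linarith) h0
  have h2 : 3 + i ≤ 13 * c * S := le_trans hx (by nlinarith)
  have h3 : 0 ≤ S := by
    by_contra h
    push Not at h
    nlinarith
  have h4 : 0 ≤ c * i := by positivity
  have h5 : 0 ≤ c * c * S := by positivity
  nlinarith

/-- Module ASY.  `deletion` with `s i = ⌈ D2 (1 + ε/8)^i ⌉` (`D2` large, so that `s` is strictly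
increasing and `D2 ≥ D1`), then `encode` for `X (s i)`.  For large `N` choose `i` with
`(2p)^(2 s_i + i + 1) ≤ N < (2p)^(2 s_(i+1) + i + 2)`; `|A ∩ [1,N]| ≥ |X (s i)| ≥ p^l / 2`,
`l ≥ s_i (1 - ε/8)`, `p ≥ (2p)^(1 - ε/8)` (`log 2 ≤ (ε/8) log (2p)`), `s_(i+1) ≤ (1+ε/8)(s_i + 1) + 1`,
`i ≤ (ε/16) s_i` for large `i`.  In base `2p`: `(1-ε/8)^2 s_i - 1 ≥ (1/2 - ε)(2 s_(i+1) + i + 2)` for
large `i`, since `(1 - 2ε)(1 + ε/8) + ε/32 ≤ 1 - 2ε + ε/8 + ε/32 < 1 - ε/4`. -/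
theorem asy (hν : 3 ≤ ν) {J : ℕ} (hJ2 : 2 ≤ J) (hp : 2 ^ (40 * 4 ^ ν) ≤ p)
    (hJ : (J + 1) ^ 2 ≤ p) (hp2 : 2 ^ ν * (5 + J * (2 * ν + 4)) ≤ p) {ε : ℝ} (hε : 0 < ε)
    (hε2 : ε < 1 / 2) (h1 : (2 / 2 ^ ν : ℝ) ^ J ≤ ε / 8)
    (h2 : Real.log 2 ≤ ε / 8 * Real.log (2 * p)) :
    ∃ A : Set ℕ,
      (∀ n : ℕ, Set.ncard {x : ℕ × ℕ | x.1 ∈ A ∧ x.2 ∈ A ∧ x.1 + x.2 = n} ≤ 2 * RR ν J) ∧
      ∃ N0 : ℕ, ∀ N : ℕ, N0 ≤ N → (N : ℝ) ^ (1 / 2 - ε) ≤ ((A ∩ Set.Icc 1 N).ncard : ℝ) := by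
  obtain ⟨X, D1, hX0, hX1, hX2⟩ := deletion (p := p) hν hJ2 hp hJ hp2
  set c : ℝ := ε / 8 with hc
  have hc0 : 0 < c := by positivity
  have hc1 : c < 1 / 16 := by rw [hc]; linarith
  have hεc : ε = 8 * c := by rw [hc]; ring
  obtain ⟨D2, hD2⟩ := exists_nat_ge (max (D1 : ℝ) (1 / c ^ 2))
  have hD2a : (D1 : ℝ) ≤ D2 := le_trans (le_max_left _ _) hD2
  have hD2b : 1 / c ^ 2 ≤ (D2 : ℝ) := le_trans (le_max_right _ _) hD2
  have hD2c : 1 ≤ c * (c * D2) := by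
    have h := mul_le_mul_of_nonneg_left hD2b (by positivity : (0 : ℝ) ≤ c ^ 2)
    rw [mul_one_div_cancel (by positivity)] at h
    calc (1 : ℝ) ≤ c ^ 2 * D2 := h
      _ = c * (c * D2) := by ring
  have hD2d : 16 ≤ c * D2 := by
    by_contra h
    push Not at h
    nlinarith
  set x : ℕ → ℝ := fun i => D2 * (1 + c) ^ i with hxdef
  set s : ℕ → ℕ := fun i => ⌈x i⌉₊ with hsdef
  have hxb : ∀ i : ℕ, (D2 : ℝ) * (1 + i * c) ≤ x i := by
    intro i
    have := one_add_mul_le_pow (a := c) (by linarith) i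
    exact mul_le_mul_of_nonneg_left this (Nat.cast_nonneg _)
  have hx0 : ∀ i, (D2 : ℝ) ≤ x i := by
    intro i
    refine le_trans ?_ (hxb i)
    have : (0 : ℝ) ≤ D2 * (i * c) := by positivity
    linarith
  have hxpos : ∀ i, 0 ≤ x i := fun i => le_trans (Nat.cast_nonneg _) (hx0 i)
  have hs1 : ∀ i, x i ≤ s i := fun i => Nat.le_ceil _
  have hs2 : ∀ i, (s i : ℝ) < x i + 1 := fun i => Nat.ceil_lt_add_one (hxpos i)
  have hxs : ∀ i, x (i + 1) = (1 + c) * x i := by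
    intro i; simp only [hxdef, pow_succ]; ring
  have hsm : StrictMono s := by
    refine strictMono_nat_of_lt_succ fun i => ?_
    have h3 := hs1 (i + 1)
    have h4 := hs2 i
    have h5 : 1 ≤ c * x i := by
      have := mul_le_mul_of_nonneg_left (hx0 i) hc0.le
      linarith
    rw [hxs] at h3
    have : (s i : ℝ) < s (i + 1) := by linarith
    exact_mod_cast this
  have hsD1 : ∀ i, D1 ≤ s i := by
    intro i
    have : (D1 : ℝ) ≤ s i := le_trans hD2a (le_trans (hx0 i) (hs1 i))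
    exact_mod_cast this
  obtain ⟨A, hA1, hA2⟩ := encode (p := p) hsm (X := fun i => X (s i)) (R := RR ν J)
    (fun i a ha k hk => hX0 (s i) a ha k hk)
    (fun i k hik => hX2 (s i) (s k) (hsD1 i) (hsm.monotone hik))
  refine ⟨A, hA1, (2 * p) ^ (2 * s 0 + 0 + 1), fun N hN => ?_⟩
  have hp1 : 1 < p := (Fact.out : p.Prime).one_lt
  -- choice of i
  have hex : ∃ j, N < (2 * p) ^ (2 * s j + j + 1) := by
    refine ⟨N, ?_⟩
    calc N < 2 ^ N := Nat.lt_two_pow_self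
      _ ≤ 2 ^ (2 * s N + N + 1) := Nat.pow_le_pow_right (by norm_num) (by omega)
      _ ≤ _ := Nat.pow_le_pow_left (by omega) _
  classical
  set j := Nat.find hex with hj
  have hj1 : N < (2 * p) ^ (2 * s j + j + 1) := Nat.find_spec hex
  have hj0 : j ≠ 0 := by
    intro h
    rw [h] at hj1
    omega
  obtain ⟨i, hi⟩ := Nat.exists_eq_succ_of_ne_zero hj0
  have hi1 : (2 * p) ^ (2 * s i + i + 1) ≤ N := by
    have := Nat.find_min hex (m := i) (by omega)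
    omega
  rw [hi] at hj1
  obtain ⟨hfin, l, hl1, hl2, hl3⟩ := hX1 (s i) (hsD1 i)
  have hA3 := hA2 i N hi1
  -- real estimates
  set Q : ℝ := 2 * p with hQ
  have hpR : (1 : ℝ) < p := by exact_mod_cast hp1
  have hQ1 : 1 < Q := by rw [hQ]; linarith
  have hQ0 : 0 < Q := by linarith
  have hlQ : 0 < Real.log Q := Real.log_pos hQ1
  have hl4 : (1 - c) * s i ≤ l := by
    have h3 : ((s i - l : ℕ) : ℝ) * (2 ^ ν) ^ J ≤ 2 ^ J * s i := by exact_mod_cast hl3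
    rw [Nat.cast_sub hl2] at h3
    have h4 : (0 : ℝ) < (2 ^ ν) ^ J := by positivity
    have h5 : ((s i : ℝ) - l) ≤ (2 / 2 ^ ν) ^ J * s i := by
      rw [div_pow, div_mul_eq_mul_div, le_div_iff₀ h4]
      exact h3
    have h6 : (2 / 2 ^ ν : ℝ) ^ J * s i ≤ c * s i :=
      mul_le_mul_of_nonneg_right h1 (Nat.cast_nonneg _)
    linarith
  have hlogp : (1 - c) * Real.log Q ≤ Real.log p := by
    have : Real.log Q = Real.log 2 + Real.log p := by
      rw [hQ, Real.log_mul (by norm_num) (by positivity)]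
    linarith
  have hlogp0 : 0 ≤ Real.log p := Real.log_nonneg hpR.le
  have hlog2 : Real.log 2 ≤ Real.log Q := by
    refine Real.log_le_log (by norm_num) ?_
    rw [hQ]; linarith
  have hkey := ASY_num (c := c) (x := x i) (S := s i) (S' := s (i + 1)) (i := i) hc0 hc1
    (Nat.cast_nonneg _) ?_ (hs1 i) ?_
  · have h3 : (N : ℝ) ≤ Q ^ (2 * s (i + 1) + (i + 1) + 1) := by
      rw [hQ]; exact_mod_cast hj1.le
    have h4 : (0 : ℝ) ≤ 1 / 2 - ε := by linarith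
    calc (N : ℝ) ^ (1 / 2 - ε) ≤ (Q ^ (2 * s (i + 1) + (i + 1) + 1)) ^ (1 / 2 - ε) :=
          Real.rpow_le_rpow (Nat.cast_nonneg _) h3 h4
      _ = Real.exp (Real.log Q * ((1 / 2 - 8 * c) * (2 * s (i + 1) + i + 2))) := by
          rw [Real.rpow_def_of_pos (by positivity), Real.log_pow]
          congr 1
          push_cast
          rw [hεc]
          ring
      _ ≤ Real.exp (l * Real.log p - Real.log 2) := by
          refine Real.exp_le_exp.2 ?_
          have h5 : Real.log Q * ((1 / 2 - 8 * c) * (2 * s (i + 1) + i + 2)) ≤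
              Real.log Q * ((1 - c) * ((1 - c) * s i) - 1) :=
            mul_le_mul_of_nonneg_left hkey hlQ.le
          have h6 : (1 - c) * Real.log Q * ((1 - c) * s i) ≤ Real.log p * l :=
            mul_le_mul hlogp hl4 (mul_nonneg (by linarith) (Nat.cast_nonneg _)) hlogp0
          linarith
      _ = (p : ℝ) ^ l / 2 := by
          rw [Real.exp_sub, Real.exp_log (by norm_num), mul_comm, ← Real.rpow_def_of_pos
            (by positivity), Real.rpow_natCast]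
      _ ≤ ((X (s i)).ncard : ℝ) := by
          have : (p : ℝ) ^ l ≤ 2 * (X (s i)).ncard := by exact_mod_cast hl1
          linarith
      _ ≤ _ := by exact_mod_cast hA3
  · have h3 := hxb i
    have h4 : (0 : ℝ) ≤ i := Nat.cast_nonneg _
    have h5 : c * (D2 * (1 + i * c)) ≤ c * x i := mul_le_mul_of_nonneg_left h3 hc0.le
    have h6 : (i : ℝ) * 1 ≤ i * (c * (c * D2)) := mul_le_mul_of_nonneg_left hD2c h4
    nlinarith
  · have h3 := hs2 (i + 1)
    rw [hxs] at h3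
    have h4 : (1 + c) * x i ≤ (1 + c) * s i := mul_le_mul_of_nonneg_left (hs1 i) (by linarith)
    linarith

end Pool.Agent.B2g
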