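import Pool.Agent.B2g.Defs

/-! Module QUADA (MP_491344_nt, text MP_491344_nt_b2g_helper7.md). -/

namespace Pool.Agent.B2g

variable {F : Type*} [Field F] {W : Type*} [AddCommGroup W] [Module F W]
  {W' : Type*} [AddCommGroup W'] [Module F W']

/-- a functional vanishing on the kernel of `f` factors through `f` -/
theorem QUADA_factor {W₁ W₂ E : Type*} [AddCommGroup W₁] [Module F W₁]
    [AddCommGroup W₂] [Module F W₂] [Field E] [Algebra F E] (f : W₁ →ₗ[F] W₂)
    (l : W₁ →ₗ[F] E) (h : ∀ w, f w = 0 → l w = 0) : ∃ φ : W₂ →ₗ[F] E, ∀ w, φ (f w) = l w := by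
  obtain ⟨g, hg⟩ := LinearMap.exists_rightInverse_of_surjective f.rangeRestrict
    (LinearMap.range_rangeRestrict f)
  obtain ⟨φ, hφ⟩ := LinearMap.exists_extend (l.comp g)
  refine ⟨φ, fun w => ?_⟩
  have h1 : φ (f w) = (l.comp g) (f.rangeRestrict w) := by
    rw [← hφ]; rfl
  rw [h1, LinearMap.comp_apply]
  have h2 : f (g (f.rangeRestrict w) - w) = 0 := by
    have h3 : f.rangeRestrict (g (f.rangeRestrict w)) = f.rangeRestrict w :=
      LinearMap.congr_fun hg (f.rangeRestrict w)
    have h4 : f (g (f.rangeRestrict w)) = f w := congrArg Subtype.val h3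
    rw [map_sub, h4, sub_self]
  have h5 := h _ h2
  rw [map_sub, sub_eq_zero] at h5
  exact h5

theorem QUADA_Lset_mono {X Y : Set W} (h : X ⊆ Y) : Lset F Y ⊆ Lset F X := by
  rintro l ⟨m, c, hm⟩
  exact ⟨m, c, fun w hw => hm w (h hw)⟩

/-- Module QMONO.  (a) `Lset F X' ⊆ Lset F X` if `X ⊆ X'`; (b) if `l` vanishes on `N'` and
`N ≤ N'` then it vanishes on `N`. -/
theorem quad_mono {X X' : Set W} {N N' : Submodule F W} (hX : X ⊆ X') (hN : N ≤ N')
    (h : Quad F X' N) : Quad F X N' := fun l hl =>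
  Submodule.span_mono (QUADA_Lset_mono hX) (h l fun w hw => hl w (hN hw))

/-- Module QSUB: a form vanishing on `N` is `0` on `X`, so `l^2 = 0` on `X`: `l ∈ Lset F X`. -/
theorem quad_sub {X : Set W} {N : Submodule F W} (h : ∀ w ∈ X, w ∈ N) : Quad F X N := by
  intro l hl
  exact Submodule.subset_span ⟨0, 0, fun w hw => by simp [hl w (h w hw)]⟩

/-- Module QINF.  Let `l` vanish on `N ⊓ M`.  The map `W → (W ⧸ N) × (W ⧸ M)` has kernel
`N ⊓ M`, so `l` factors through its range and extends to the product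
(`LinearMap.exists_extend` or a left inverse over a field), giving `l = l₁ + l₂` with `l₁ = 0` on
`N`, `l₂ = 0` on `M`.  `l₁ ∈ span (Lset F X) ≤ span (Lset F (X ∩ Y))`, same for `l₂`. -/
theorem quad_inf {X Y : Set W} {N M : Submodule F W} (hX : Quad F X N) (hY : Quad F Y M) :
    Quad F (X ∩ Y) (N ⊓ M) := by
  intro l hl
  obtain ⟨φ, hφ⟩ := QUADA_factor (N.mkQ.comp M.subtype) (l.comp M.subtype) (by
    intro w hw
    rw [LinearMap.comp_apply, Submodule.mkQ_apply, Submodule.Quotient.mk_eq_zero] at hw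
    exact hl _ ⟨hw, w.2⟩)
  have h1 : φ.comp N.mkQ ∈ Submodule.span (AlgebraicClosure F) (Lset F X) :=
    hX _ fun w hw => by
      rw [LinearMap.comp_apply, Submodule.mkQ_apply, (Submodule.Quotient.mk_eq_zero N).2 hw,
        map_zero]
  have h2 : l - φ.comp N.mkQ ∈ Submodule.span (AlgebraicClosure F) (Lset F Y) :=
    hY _ fun w hw => by
      have := hφ ⟨w, hw⟩
      simp only [LinearMap.comp_apply, Submodule.subtype_apply] at this
      rw [LinearMap.sub_apply, LinearMap.comp_apply, this, sub_self]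
  have h3 : l = φ.comp N.mkQ + (l - φ.comp N.mkQ) := by abel
  rw [h3]
  exact Submodule.add_mem _ (Submodule.span_mono (QUADA_Lset_mono Set.inter_subset_left) h1)
    (Submodule.span_mono (QUADA_Lset_mono Set.inter_subset_right) h2)

end Pool.Agent.B2g
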