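import Pool.Agent.B2g.Sqf
import Pool.Agent.B2g.QuadA

/-! Module BEZ (MP_491344_nt, text MP_491344_nt_b2g_helper7.md). -/

namespace Pool.Agent.B2g

variable {F : Type*} [Field F] {W : Type*} [AddCommGroup W] [Module F W]

/-- (BEZ), finite sets -/
theorem BEZ_finset {X : Set W} {N Om : Submodule F W} [FiniteDimensional F Om]
    (hX : Quad F X N) (hd : N ⊓ Om = ⊥) (w0 : W) (P : Finset W) (hPX : ∀ w ∈ P, w ∈ X)
    (hPO : ∀ w ∈ P, w - w0 ∈ Om) : P.card ≤ 2 ^ Module.finrank F Om := by
  classical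
  -- restrictions of elements of `Lset` span the dual of `Om`
  set R : Set (Om →ₗ[F] AlgebraicClosure F) := (fun l : W →ₗ[F] AlgebraicClosure F => l.comp Om.subtype) '' Lset F X with hR
  have hspan : Submodule.span (AlgebraicClosure F) R = ⊤ := by
    rw [Submodule.eq_top_iff']
    intro ψ
    -- extend `ψ` by zero on `N`
    obtain ⟨φ, hφ⟩ := QUADA_factor (N.mkQ.comp Om.subtype) ψ (by
      intro w hw
      rw [LinearMap.comp_apply, Submodule.mkQ_apply, Submodule.Quotient.mk_eq_zero] at hw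
      have h1 : (w : W) ∈ N ⊓ Om := ⟨hw, w.2⟩
      rw [hd, Submodule.mem_bot] at h1
      have h2 : w = 0 := Subtype.ext h1
      rw [h2, map_zero])
    have h1 : φ.comp N.mkQ ∈ Submodule.span (AlgebraicClosure F) (Lset F X) := hX _ fun w hw => by
      rw [LinearMap.comp_apply, Submodule.mkQ_apply, (Submodule.Quotient.mk_eq_zero N).2 hw,
        map_zero]
    have h2 : ψ = (φ.comp N.mkQ).comp Om.subtype := by
      ext w
      rw [← hφ w]; rfl
    rw [h2]
    refine Submodule.span_induction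
      (p := fun g _ => g.comp Om.subtype ∈ Submodule.span (AlgebraicClosure F) R) ?_ ?_ ?_ ?_ h1
    · intro g hg
      exact Submodule.subset_span ⟨g, hg, rfl⟩
    · rw [LinearMap.zero_comp]; exact Submodule.zero_mem _
    · intro x y _ _ hx hy
      rw [LinearMap.add_comp]; exact Submodule.add_mem _ hx hy
    · intro c x _ hx
      rw [LinearMap.smul_comp]; exact Submodule.smul_mem _ _ hx
  obtain ⟨b, hbR, hbspan, hbli⟩ := exists_linearIndependent (AlgebraicClosure F) R
  have hfin : Module.finrank (AlgebraicClosure F) (Om →ₗ[F] AlgebraicClosure F) = Module.finrank F Om := by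
    rw [Module.finrank_linearMap, Module.finrank_self, mul_one]
  have hbf : b.Finite := hbli.setFinite
  have : Fintype b := hbf.fintype
  have hcard : Fintype.card b = Module.finrank F Om := by
    rw [← hfin, ← finrank_top (AlgebraicClosure F) (Om →ₗ[F] AlgebraicClosure F), ← hspan, ← hbspan,
      finrank_span_set_eq_card hbli, Set.toFinset_card]
  choose! L hL hLb using fun (x : Om →ₗ[F] AlgebraicClosure F) (hx : x ∈ b) => hbR hx
  -- every functional on `Om` is a combination of the `L i`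
  have hcomb : ∀ ψ : Om →ₗ[F] AlgebraicClosure F, ∃ d : b → AlgebraicClosure F, ∀ w : Om, ψ w = ∑ j : b, d j * L j.1 (w : W) := by
    intro ψ
    have h1 : ψ ∈ Submodule.span (AlgebraicClosure F) b := by rw [hbspan, hspan]; trivial
    have h2 : ψ ∈ Submodule.span (AlgebraicClosure F) (Set.range (Subtype.val : b → (Om →ₗ[F] AlgebraicClosure F))) := by
      rwa [Subtype.range_coe]
    obtain ⟨d, hd⟩ := (Submodule.mem_span_range_iff_exists_fun (AlgebraicClosure F)).1 h2
    refine ⟨d, fun w => ?_⟩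
    rw [← hd, LinearMap.sum_apply]
    refine Finset.sum_congr rfl fun j _ => ?_
    rw [LinearMap.smul_apply, smul_eq_mul]
    congr 1
    have := LinearMap.congr_fun (hLb j.1 j.2) w
    exact this.symm
  have key := SQF_card_le (P := {p // p ∈ P}) (ι := b) (E := AlgebraicClosure F)
    (fun i p => L i.1 p.1) ?_ ?_
  · rw [Fintype.card_coe, hcard] at key
    exact key
  · intro i
    obtain ⟨m, c, hm⟩ := hL i.1 i.2
    obtain ⟨d, hd⟩ := hcomb (m.comp Om.subtype)
    refine ⟨d, c + m w0 - ∑ j : b, d j * L j.1 w0, fun p => ?_⟩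
    have h1 := hm p.1 (hPX p.1 p.2)
    have h2 := hd ⟨p.1 - w0, hPO p.1 p.2⟩
    simp only [LinearMap.comp_apply, Submodule.subtype_apply, map_sub, mul_sub,
      Finset.sum_sub_distrib] at h2
    rw [h1]
    linear_combination h2
  · intro p q hpq
    by_contra hcon
    push Not at hcon
    apply hpq
    apply Subtype.ext
    have hmem : p.1 - q.1 ∈ Om := by
      have := Om.sub_mem (hPO p.1 p.2) (hPO q.1 q.2)
      simpa using this
    by_contra hne
    have hne' : (⟨p.1 - q.1, hmem⟩ : Om) ≠ 0 := by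
      intro h
      apply hne
      have := congrArg Subtype.val h
      simpa [sub_eq_zero] using this
    have hex : ∃ g : Module.Dual F Om, g ⟨p.1 - q.1, hmem⟩ ≠ 0 := by
      by_contra hc
      push Not at hc
      exact hne' ((Module.forall_dual_apply_eq_zero_iff F _).1 hc)
    obtain ⟨g, hg⟩ := hex
    obtain ⟨d, hd⟩ := hcomb ((Algebra.linearMap F (AlgebraicClosure F)).comp g)
    have h1 := hd ⟨p.1 - q.1, hmem⟩
    have h2 : ∑ j : b, d j * L j.1 (p.1 - q.1) = 0 := by
      refine Finset.sum_eq_zero fun j _ => ?_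
      rw [map_sub, hcon j, sub_self, mul_zero]
    rw [h2, LinearMap.comp_apply, Algebra.linearMap_apply] at h1
    exact hg ((map_eq_zero (algebraMap F (AlgebraicClosure F))).1 h1)

/-- Module BEZ.  Let `P` be a finite subset of `{w ∈ X, w - w0 ∈ Ω}` (if every finite subset has
at most `2 ^ r` elements then so has the set), `r' = finrank Ω ≤ r`.
`Hom_F(Ω,E)` has `E`-dimension `r'`.  Since `N ⊓ Ω = ⊥` each element extends to a form on `W`
vanishing on `N` (it is defined on `Ω`, put `0` on `N`, extend from `N ⊔ Ω`), hence it lies in the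
`E`-span of the restrictions of `Lset F X`.  So one can choose `l₁..l_r'` in `Lset F X` whose
restrictions to `Ω` are a basis of `Hom_F(Ω,E)`.  Put `lᵢ' : P → E`, `lᵢ'(w) = lᵢ(w - w0)`.
`lᵢ'^2 = (lᵢ(w) - lᵢ(w0))^2 = α(w) + c - 2 lᵢ(w0) lᵢ(w) + lᵢ(w0)^2` is affine in `w`, that is
constant + a form in `w - w0 ∈ Ω`, so in the span of `1` and the `lⱼ'`.  They separate points
(a basis of `Hom_F(Ω,E)`, `F ⊂ E`).  Apply `sqf` with `r'` and `2 ^ r' ≤ 2 ^ r`. -/
theorem bez {X : Set W} {N Ω : Submodule F W} {r : ℕ} [FiniteDimensional F Ω]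
    (hr : Module.finrank F Ω ≤ r) (hQ : Quad F X N) (h : N ⊓ Ω = ⊥) (w0 : W) :
    {w | w ∈ X ∧ w - w0 ∈ Ω}.encard ≤ ((2 ^ r : ℕ) : ℕ∞) := by
  have h1 : ∀ P : Finset W, (P : Set W) ⊆ {w | w ∈ X ∧ w - w0 ∈ Ω} → P.card ≤ 2 ^ r := by
    intro P hP
    refine (BEZ_finset hQ h w0 P (fun w hw => (hP hw).1) fun w hw => (hP hw).2).trans ?_
    exact Nat.pow_le_pow_right (by norm_num) hr
  have h2 : {w | w ∈ X ∧ w - w0 ∈ Ω}.Finite := by
    by_contra hcon
    obtain ⟨P, hP, hc⟩ := Set.Infinite.exists_subset_card_eq hcon (2 ^ r + 1)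
    have := h1 P hP
    omega
  rw [h2.encard_eq_coe_toFinset_card]
  exact_mod_cast h1 _ (by simp)

end Pool.Agent.B2g
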