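import Pool.Agent.B2g.Defs

/-! Module CHOICE (MP_491344_nt, text MP_491344_nt_b2g_helper7.md). -/

namespace Pool.Agent.B2g

/-- Module CHOICE (dependent choice).  Build `η` recursively: `η m` = the choice for the sequence
that equals the already chosen values below `m` and `d` from `m` on. -/
theorem seq_choice {T : Type*} (ok : ℕ → T → Prop) (P : ℕ → (ℕ → T) → Prop) (d : T)
    (hd : ∀ m, ok m d)
    (hloc : ∀ m (η η' : ℕ → T), (∀ k ≤ m, η k = η' k) → P m η → P m η')
    (hstep : ∀ m (η : ℕ → T), (∀ k, ok k (η k)) → ∃ θ, ok m θ ∧ P m (Function.update η m θ)) :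
    ∃ η : ℕ → T, ∀ m, ok m (η m) ∧ P m η := by
  classical
  have : Nonempty T := ⟨d⟩
  choose! θ hθ1 hθ2 using hstep
  let seq : ℕ → ℕ → T := fun n => Nat.rec (fun _ => d) (fun n η => Function.update η n (θ n η)) n
  have hs : ∀ n, seq (n + 1) = Function.update (seq n) n (θ n (seq n)) := fun n => rfl
  have hok : ∀ n k, ok k (seq n k) := by
    intro n
    induction n with
    | zero => exact hd
    | succ n ih =>
      intro k
      rw [hs]
      by_cases hk : k = n
      · subst hk
        rw [Function.update_self]
        exact hθ1 k (seq k) ih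
      · rw [Function.update_of_ne hk]
        exact ih k
  have hstab : ∀ k n, k + 1 ≤ n → seq n k = seq (k + 1) k := by
    intro k n hn
    induction n, hn using Nat.le_induction with
    | base => rfl
    | succ n hn ih =>
      rw [hs, Function.update_of_ne (by omega), ih]
  refine ⟨fun k => seq (k + 1) k, fun m => ⟨hok (m + 1) m, ?_⟩⟩
  refine hloc m (seq (m + 1)) _ (fun k hk => hstab k (m + 1) (by omega)) ?_
  rw [hs]
  exact hθ2 m (seq m) (hok m)

end Pool.Agent.B2g
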