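import Pool.Agent.B2g.Defs

/-! Module CRO (MP_491344_nt, text MP_491344_nt_b2g_helper7.md). -/

namespace Pool.Agent.B2g

/-- Module CRO. -/
theorem Cross.symm {W : Type*} [AddCommGroup W] {X Y : Set W} {R : ℕ} (h : Cross X Y R) :
    Cross Y X R := by
  intro t
  have h1 : {a | a ∈ Y ∧ t - a ∈ X} = (fun a => t - a) '' {a | a ∈ X ∧ t - a ∈ Y} := by
    ext b
    constructor
    · rintro ⟨h1, h2⟩
      exact ⟨t - b, ⟨h2, by simpa using h1⟩, by simp⟩
    · rintro ⟨a, ⟨h1, h2⟩, rfl⟩
      exact ⟨h2, by simpa using h1⟩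
  rw [h1]
  exact (Set.encard_image_le _ _).trans (h t)

/-- Module CRO. -/
theorem Cross.mono {W : Type*} [AddCommGroup W] {X Y X' Y' : Set W} {R R' : ℕ}
    (h : Cross X Y R) (hX : X' ⊆ X) (hY : Y' ⊆ Y) (hR : R ≤ R') : Cross X' Y' R' := by
  intro t
  have h1 : {a | a ∈ X' ∧ t - a ∈ Y'} ⊆ {a | a ∈ X ∧ t - a ∈ Y} :=
    fun a ha => ⟨hX ha.1, hY ha.2⟩
  refine (Set.encard_le_encard h1).trans ((h t).trans ?_)
  exact_mod_cast hR

/-- Module CRO. -/
theorem cross_zero_left {W : Type*} [AddCommGroup W] (Y : Set W) : Cross ({0} : Set W) Y 1 := by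
  intro t
  have h1 : {a | a ∈ ({0} : Set W) ∧ t - a ∈ Y} ⊆ {0} := fun a ha => ha.1
  refine (Set.encard_le_encard h1).trans ?_
  rw [Set.encard_singleton]
  exact le_of_eq (by norm_num)

/-- Module CRO. -/
theorem cross_zero_right {W : Type*} [AddCommGroup W] (X : Set W) : Cross X ({0} : Set W) 1 :=
  (cross_zero_left X).symm

/-- Module CRO (fibre counting): if `f : W → β` takes at most `M` values on `S` and each fibre has
at most `R` elements then `S` has at most `M * R` elements. -/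
theorem encard_le_mul {W β : Type*} (S : Set W) (f : W → β) {M R : ℕ}
    (hM : (f '' S).encard ≤ (M : ℕ∞)) (hR : ∀ b, {a | a ∈ S ∧ f a = b}.encard ≤ (R : ℕ∞)) :
    S.encard ≤ ((M * R : ℕ) : ℕ∞) := by
  classical
  have hfi : (f '' S).Finite := Set.finite_of_encard_le_coe hM
  have hfib : ∀ b, {a | a ∈ S ∧ f a = b}.Finite := fun b => Set.finite_of_encard_le_coe (hR b)
  have hS : S.Finite := by
    have h1 : S ⊆ ⋃ b ∈ f '' S, {a | a ∈ S ∧ f a = b} := by
      intro a ha
      simp only [Set.mem_iUnion]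
      exact ⟨f a, ⟨a, ha, rfl⟩, ha, rfl⟩
    exact (hfi.biUnion fun b _ => hfib b).subset h1
  obtain ⟨s, rfl⟩ := hS.exists_finset_coe
  have h2 : ∀ b ∈ s.image f, (s.filter fun x => f x = b).card ≤ R := by
    intro b _
    have h3 := hR b
    have h4 : {a | a ∈ (s : Set W) ∧ f a = b} = ((s.filter fun x => f x = b : Finset W) : Set W) := by
      ext a
      simp
    rw [h4, Set.encard_coe_eq_coe_finsetCard] at h3
    exact_mod_cast h3
  have h5 : (s.image f).card ≤ M := by
    rw [← Finset.coe_image, Set.encard_coe_eq_coe_finsetCard] at hM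
    exact_mod_cast hM
  have h6 := Finset.card_le_mul_card_image s R h2
  rw [Set.encard_coe_eq_coe_finsetCard]
  have h7 : s.card ≤ M * R := h6.trans (by rw [mul_comm M R]; exact Nat.mul_le_mul_left R h5)
  exact_mod_cast h7

end Pool.Agent.B2g
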