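import Mathlib

/-!
# Sets with few representations: definitions (MP_491344_nt, text MP_491344_nt_b2g_helper7.md)

`V p` = functions from the naturals to pairs (h, v) over ZMod p; everything is measured in
positions.  Parameter `ν`, with `n = 2 ^ ν`.
-/

namespace Pool.Agent.B2g

/-- The ambient space. -/
abbrev V (p : ℕ) := ℕ → ZMod p × ZMod p

section Ops

variable (p : ℕ) [Fact p.Prime]

/-- truncation to the positions below `m` -/
def tr (m : ℕ) : V p →ₗ[ZMod p] V p where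
  toFun w := fun i => if i < m then w i else 0
  map_add' _ _ := by funext i; by_cases h : i < m <;> simp [h]
  map_smul' _ _ := by funext i; by_cases h : i < m <;> simp [h]

/-- the tail from position `m` on -/
def tl (m : ℕ) : V p →ₗ[ZMod p] V p where
  toFun w := fun i => w (i + m)
  map_add' _ _ := rfl
  map_smul' _ _ := rfl

/-- shift by `m` positions -/
def sh (m : ℕ) : V p →ₗ[ZMod p] V p where
  toFun w := fun i => if i < m then 0 else w (i - m)
  map_add' _ _ := by funext i; by_cases h : i < m <;> simp [h]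
  map_smul' _ _ := by funext i; by_cases h : i < m <;> simp [h]

/-- act by `G` on the tail from position `m` on -/
def lift (m : ℕ) (G : V p →ₗ[ZMod p] V p) : V p →ₗ[ZMod p] V p :=
  tr p m + (sh p m).comp (G.comp (tl p m))

end Ops

/-! ### numeration -/

/-- block lengths -/
def Bl (ν m : ℕ) : ℕ := (2 ^ ν + m % 2 ^ ν) * 2 ^ (m / 2 ^ ν)

/-- the unit of block `m`; `Bl ν (m+1) = Bl ν m + Un ν m` -/
def Un (ν m : ℕ) : ℕ := 2 ^ (m / 2 ^ ν)

/-- the delay of block `m` (= number of positions used by the random shear) -/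
def sl (ν m : ℕ) : ℕ := Un ν m / (2 * 2 ^ ν)

/-- the scale from which on block `m` is used -/
def st (ν m : ℕ) : ℕ := Bl ν m + sl ν m

/-- the block used at scale `D` (meaningful if `st ν 0 ≤ D`) -/
def bi (ν D : ℕ) : ℕ := Nat.findGreatest (fun m => st ν m ≤ D) D

/-- index of the block whose length is `Bl ν m - Bl ν (m-1)`
(meaningful if `1 ≤ m` and `ν ≤ (m-1)/2^ν`) -/
def ui (ν m : ℕ) : ℕ := 2 ^ ν * ((m - 1) / 2 ^ ν - ν)

/-- the blocks used by the set `A j D` -/
def used (ν : ℕ) : ℕ → ℕ → Finset ℕ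
  | 0, _ => ∅
  | j + 1, D => if D < st ν 0 then ∅ else insert (bi ν D) (used ν j (D - Bl ν (bi ν D)))

/-- the blocks of `A j D` are compatible with the position `B`: the block decomposition has a
boundary at `B`, or stops before `B`. -/
def Spl (ν : ℕ) : ℕ → ℕ → ℕ → Prop
  | 0, _, _ => True
  | j + 1, D, B => D < st ν 0 ∨
      (Bl ν (bi ν D) ≤ B ∧ (B = Bl ν (bi ν D) ∨
        Spl ν j (D - Bl ν (bi ν D)) (B - Bl ν (bi ν D))))

/-! ### fields -/

/-- Fields with `p ^ Bl ν m` elements, coordinatised by the first `Bl ν m` positions, compatible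
with the mergings `Bl ν (m-1) + u → Bl ν m` over the field of index `ui ν m`. -/
structure Flds (p ν : ℕ) [Fact p.Prime] where
  E : ∀ m, (ℕ → ZMod p) →ₗ[ZMod p] GaloisField p (Bl ν m)
  ker : ∀ m (y : ℕ → ZMod p), E m y = 0 ↔ ∀ i < Bl ν m, y i = 0
  surj : ∀ m, Function.Surjective (E m)
  compat : ∀ m, 1 ≤ m → ν ≤ (m - 1) / 2 ^ ν →
    ∃ (f : GaloisField p (Bl ν (ui ν m)) →+* GaloisField p (Bl ν (m - 1)))
      (g : GaloisField p (Bl ν (ui ν m)) →+* GaloisField p (Bl ν m))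
      (Ψ : (GaloisField p (Bl ν (m - 1)) × GaloisField p (Bl ν (ui ν m))) ≃+
        GaloisField p (Bl ν m)),
      (∀ c a b, Ψ (f c * a, c * b) = g c * Ψ (a, b)) ∧
      ∀ y : ℕ → ZMod p, E m y = Ψ (E (m - 1) y, E (ui ν m) (fun i => y (i + Bl ν (m - 1))))

section Sets

variable {p ν : ℕ} [Fact p.Prime] (Φ : Flds p ν)

/-- `π_m(w)`: the coordinate transversal to slope `m` -/
noncomputable def pm (m : ℕ) : V p →ₗ[ZMod p] GaloisField p (Bl ν m) :=
  (Φ.E m).comp
    ({ toFun := fun w i => (w i).1 - (m : ZMod p) * (w i).2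
       map_add' := by intro w z; funext i; simp only [Pi.add_apply, Prod.fst_add, Prod.snd_add]; ring
       map_smul' := by
        intro c w; funext i
        simp only [Pi.smul_apply, Prod.smul_fst, Prod.smul_snd, smul_eq_mul, RingHom.id_apply]
        ring } : V p →ₗ[ZMod p] (ℕ → ZMod p))

/-- `ν_m(w)`: the vertical coordinate -/
noncomputable def vm (m : ℕ) : V p →ₗ[ZMod p] GaloisField p (Bl ν m) :=
  (Φ.E m).comp
    ({ toFun := fun w i => (w i).2
       map_add' := by intro w z; rfl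
       map_smul' := by intro c w; rfl } : V p →ₗ[ZMod p] (ℕ → ZMod p))

end Sets

section Maps

variable {p : ℕ} [Fact p.Prime] (ν : ℕ) (η : ℕ → (V p →ₗ[ZMod p] V p))

/-- the cumulative coordinate changes -/
noncomputable def G : ℕ → (V p →ₗ[ZMod p] V p)
  | 0 => LinearMap.id + η 0
  | m + 1 => ((G m).comp (if ν ≤ m / 2 ^ ν then
        lift p (Bl ν m) (G (2 ^ ν * (m / 2 ^ ν - ν))) else LinearMap.id)).comp
      (LinearMap.id + η (m + 1))
termination_by m => m
decreasing_by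
  · exact Nat.lt_succ_self _
  · exact Nat.lt_succ_of_le (le_trans (Nat.mul_le_mul_left _ (Nat.sub_le _ _))
      (Nat.mul_div_le m (2 ^ ν)))

/-- the part of `G m` before the new shear: `G m = H m ∘ (1 + η m)` -/
noncomputable def H : ℕ → (V p →ₗ[ZMod p] V p)
  | 0 => LinearMap.id
  | m + 1 => (G ν η m).comp (if ν ≤ m / 2 ^ ν then
        lift p (Bl ν m) (G ν η (2 ^ ν * (m / 2 ^ ν - ν))) else LinearMap.id)

/-- admissible shear number `m` -/
def ShOK (m : ℕ) (θ : V p →ₗ[ZMod p] V p) : Prop :=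
  (∀ w : V p, (∀ i < Bl ν m, w i = 0) → θ w = 0) ∧
  ∀ (w : V p) (i : ℕ), (i < Bl ν m ∨ Bl ν m + sl ν m ≤ i) → θ w i = 0

variable {ν} (Φ : Flds p ν)

/-- the sets: product of parabolas over the first `j` blocks of the decomposition of `D` -/
def A : ℕ → ℕ → Set (V p)
  | 0, _ => {0}
  | j + 1, D => if D < st ν 0 then {0} else
      {a | ∃ w : V p, pm Φ (bi ν D) w ^ 2 = vm Φ (bi ν D) w ∧
        tl p (Bl ν (bi ν D)) w ∈ A j (D - Bl ν (bi ν D)) ∧ a = G ν η (bi ν D) w}

end Maps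

/-- every `t` has at most `R` representations `t = a + b`, `a ∈ X`, `b ∈ Y` -/
def Cross {W : Type*} [AddCommGroup W] (X Y : Set W) (R : ℕ) : Prop :=
  ∀ t : W, {a | a ∈ X ∧ t - a ∈ Y}.encard ≤ R

/-! ### quadric sets -/

section Quad

variable (F : Type*) {W : Type*} [Field F] [AddCommGroup W] [Module F W]

/-- forms whose square is affine on `X` -/
def Lset (X : Set W) : Set (W →ₗ[F] AlgebraicClosure F) :=
  {l | ∃ (α : W →ₗ[F] AlgebraicClosure F) (c : AlgebraicClosure F),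
    ∀ w ∈ X, l w ^ 2 = α w + c}

/-- `X` is a quadric set with asymptotic space in `N` -/
def Quad (X : Set W) (N : Submodule F W) : Prop :=
  ∀ l : W →ₗ[F] AlgebraicClosure F, (∀ w ∈ N, l w = 0) →
    l ∈ Submodule.span (AlgebraicClosure F) (Lset F X)

end Quad

/-- slopes: the lowest nonzero position below `B` of an element of `N` has a slope in `Λ` -/
def Slope {p : ℕ} [Fact p.Prime] (N : Submodule (ZMod p) (V p)) (Λ : Set (ZMod p)) (B : ℕ) :
    Prop :=
  ∀ w ∈ N, ∀ i < B, w i ≠ 0 → (∀ k < i, w k = 0) →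
    ∃ lam ∈ Λ, ∃ v : ZMod p, v ≠ 0 ∧ w i = (lam * v, v)

/-- unipotent lower triangular -/
def Uni {p : ℕ} [Fact p.Prime] (T : V p →ₗ[ZMod p] V p) : Prop :=
  ∀ (w : V p) (i : ℕ), (∀ k < i, w k = 0) → T w i = w i

/-- identity on the vectors supported in `[m, ∞)` -/
def IdOn {p : ℕ} [Fact p.Prime] (T : V p →ₗ[ZMod p] V p) (m : ℕ) : Prop :=
  ∀ w : V p, (∀ i < m, w i = 0) → T w = w

/-! ### far pairs -/

section Far

variable {p ν : ℕ} [Fact p.Prime] (Φ : Flds p ν) (η : ℕ → (V p →ₗ[ZMod p] V p))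

/-- far quadruples at block `m` -/
def Far (p ν J m j D j' D' : ℕ) : Prop :=
  j ≤ J ∧ j' ≤ J ∧ st ν 0 ≤ D' ∧ bi ν D' = m ∧ (D < st ν 0 ∨ bi ν D < m) ∧
  D ≤ Bl ν m + sl ν m / 4 ∧ Spl ν j D (Bl ν m) ∧ ∀ k ∈ used ν j D, k < m ∧ m < k + p

/-- the vectors `w` (first block of an element of `A (j'+1) D'`) that survive the shear `η m` -/
def Surv (m j D j' D' : ℕ) (t : V p) : Set (V p) :=
  {w | (∀ i, Bl ν m ≤ i → w i = 0) ∧ pm Φ m w ^ 2 = vm Φ m w ∧
    ∃ a' ∈ A η Φ j' (D' - Bl ν m),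
      t - H ν η m (w + η m w + sh p (Bl ν m) a') ∈ A η Φ j D}

/-- the rank bound -/
def r0 (ν : ℕ) : ℕ := 26 * 4 ^ ν

/-- the shear number `m` is good -/
def Good (J m : ℕ) : Prop :=
  ∀ j D j' D', Far p ν J m j D j' D' → ∀ t : V p, ∀ s : Fin (r0 ν) → V p,
    (∀ i, s i ∈ Surv Φ η m j D j' D' t) → ¬ LinearIndependent (ZMod p) s

end Far

/-- the hypothesis of the recursion -/
def Hyp (p ν m0 j D D' : ℕ) : Prop := ∀ k ∈ used ν j D, m0 ≤ k ∧ bi ν D' < k + p

end Pool.Agent.B2g
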