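import Pool.Agent.B2g.Fam

/-! Module DEL (MP_491344_nt, text MP_491344_nt_b2g_helper7.md). -/

namespace Pool.Agent.B2g

variable {p ν : ℕ} [Fact p.Prime]

omit [Fact p.Prime] in
theorem DEL_num {l D : ℕ} (hp : 2 ^ 16 ≤ p) (hD : 1 ≤ D) (hl : l ≤ D) (h : 16 * (D - l) ≤ D) :
    2 * ((D + 1) * (p ^ (D / 4) * p ^ (D / 4) * p ^ (D / 4))) ≤ p ^ l := by
  obtain ⟨k, hk⟩ : ∃ k, l = D / 4 + D / 4 + D / 4 + k := ⟨l - (D / 4 + D / 4 + D / 4), by omega⟩
  have h1 : 3 * D ≤ 16 * k := by omega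
  have h2 : 2 * (D + 1) ≤ p ^ k := by
    calc 2 * (D + 1) ≤ 2 ^ (3 * D) := by
          have : ∀ n : ℕ, 1 ≤ n → 2 * (n + 1) ≤ 2 ^ (3 * n) := by
            intro n hn
            induction n, hn using Nat.le_induction with
            | base => norm_num
            | succ n hn ih =>
              have : 2 ^ (3 * (n + 1)) = 2 ^ (3 * n) * 8 := by
                rw [show 3 * (n + 1) = 3 * n + 3 by ring, pow_add]
                norm_num
              omega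
          exact this D hD
      _ ≤ 2 ^ (16 * k) := Nat.pow_le_pow_right (by norm_num) h1
      _ = (2 ^ 16) ^ k := by rw [pow_mul]
      _ ≤ p ^ k := Nat.pow_le_pow_left hp k
  rw [hk, pow_add, pow_add, pow_add]
  calc 2 * ((D + 1) * (p ^ (D / 4) * p ^ (D / 4) * p ^ (D / 4)))
      = (p ^ (D / 4) * p ^ (D / 4) * p ^ (D / 4)) * (2 * (D + 1)) := by ring
    _ ≤ (p ^ (D / 4) * p ^ (D / 4) * p ^ (D / 4)) * p ^ k := Nat.mul_le_mul_left _ h2

/-- Module DEL.  `𝒜` from `family`, `Bad D = {b ∈ 𝒜 D | ∃ E, D0 ≤ E ∧ 4 E ≤ D ∧ ∃ d ≠ 0,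
(∃ a a' ∈ 𝒜 E, d = a - a') ∧ b - d ∈ 𝒜 D}`, `X D = 𝒜 D \ Bad D`.
`|Bad D| ≤ ∑_{E ≤ D/4} p^(2E) p^(D/4) ≤ (D+1) p^(D/2) p^(D/4)` (`|𝒜 E| ≤ p^E`, `M = E`), and
`p^l / 2 ≥ (D+1) p^(3D/4)` since `D - l ≤ D/16` (`2 ≤ J`, `8 ≤ 2^ν`) and `p^(3D/16) ≥ 4 (D+1)`... for
`D ≥ D1`.  `Cross (X D) (X D') RR` for `D ≤ D' ≤ 4 D`: `Cross.mono`.  For `4 D ≤ D'` (`D ≥ D1 ≥ D0`): if
`t = a + b = a₁ + b₁` with `b ≠ b₁` then `d = b - b₁ = a₁ - a ≠ 0` is supported in `[0, D)` and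
`b - d = b₁ ∈ 𝒜 D'`, so `b ∈ Bad D'`: contradiction; so at most one representation. -/
theorem deletion (hν : 3 ≤ ν) {J : ℕ} (hJ2 : 2 ≤ J) (hp : 2 ^ (40 * 4 ^ ν) ≤ p)
    (hJ : (J + 1) ^ 2 ≤ p) (hp2 : 2 ^ ν * (5 + J * (2 * ν + 4)) ≤ p) :
    ∃ (X : ℕ → Set (V p)) (D1 : ℕ),
      (∀ D, ∀ a ∈ X D, ∀ i, D ≤ i → a i = 0) ∧
      (∀ D, D1 ≤ D → (X D).Finite ∧
        ∃ l, p ^ l ≤ 2 * (X D).ncard ∧ l ≤ D ∧ (D - l) * (2 ^ ν) ^ J ≤ 2 ^ J * D) ∧
      (∀ D D', D1 ≤ D → D ≤ D' → Cross (X D) (X D') (RR ν J)) := by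
  classical
  obtain ⟨𝒜, D0, hsupp, hcard, hcross, hdiff⟩ := family hν hp hJ hp2
  set Bad : ℕ → Set (V p) := fun D => {b | b ∈ 𝒜 D ∧ ∃ E, D0 ≤ E ∧ 4 * E ≤ D ∧
    ∃ a ∈ 𝒜 E, ∃ a' ∈ 𝒜 E, a - a' ≠ 0 ∧ b - (a - a') ∈ 𝒜 D} with hBad
  have hppos : 0 < p := (Fact.out : p.Prime).pos
  have hp16 : 2 ^ 16 ≤ p := by
    refine le_trans (Nat.pow_le_pow_right (by norm_num) ?_) hp
    have : 1 ≤ 4 ^ ν := Nat.one_le_pow _ _ (by norm_num)
    omega
  -- the bound for the bad set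
  have hbad : ∀ D, D0 ≤ D → (Bad D).encard ≤
      (((D + 1) * (p ^ (D / 4) * p ^ (D / 4) * p ^ (D / 4)) : ℕ) : ℕ∞) := by
    intro D hD
    have hsub : Bad D ⊆ ⋃ E ∈ Finset.range (D / 4 + 1), ⋃ q ∈
        (if h : D0 ≤ E then ((hcard E h).1.toFinset ×ˢ (hcard E h).1.toFinset) else ∅ :
          Finset (V p × V p)),
        (if q.1 - q.2 ≠ 0 then {b | b ∈ 𝒜 D ∧ b - (q.1 - q.2) ∈ 𝒜 D} else ∅ : Set (V p)) := by
      rintro b ⟨hb, E, hE, hED, a, ha, a', ha', hne, hba⟩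
      simp only [Set.mem_iUnion]
      refine ⟨E, Finset.mem_range.2 (by omega), (a, a'), ?_, ?_⟩
      · rw [dif_pos hE, Finset.mem_product]
        exact ⟨(hcard E hE).1.mem_toFinset.2 ha, (hcard E hE).1.mem_toFinset.2 ha'⟩
      · rw [if_pos hne]
        exact ⟨hb, hba⟩
    refine (Set.encard_le_encard hsub).trans ?_
    have hone : ∀ E ∈ Finset.range (D / 4 + 1), (⋃ q ∈
        (if h : D0 ≤ E then ((hcard E h).1.toFinset ×ˢ (hcard E h).1.toFinset) else ∅ :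
          Finset (V p × V p)),
        (if q.1 - q.2 ≠ 0 then {b | b ∈ 𝒜 D ∧ b - (q.1 - q.2) ∈ 𝒜 D} else ∅ :
          Set (V p))).encard ≤ ((p ^ (D / 4) * p ^ (D / 4) * p ^ (D / 4) : ℕ) : ℕ∞) := by
      intro E hE
      have hE4 : E ≤ D / 4 := by
        have := Finset.mem_range.1 hE
        omega
      by_cases hE0 : D0 ≤ E
      · rw [dif_pos hE0]
        set F := (hcard E hE0).1.toFinset with hF
        have hFcard : F.card ≤ p ^ (D / 4) := by
          obtain ⟨l, hl1, hl2, -⟩ := (hcard E hE0).2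
          have : F.card = (𝒜 E).ncard := (Set.ncard_eq_toFinset_card _ (hcard E hE0).1).symm
          rw [this, hl1]
          exact Nat.pow_le_pow_right hppos (hl2.trans hE4)
        have hq : ∀ q ∈ F ×ˢ F,
            (if q.1 - q.2 ≠ 0 then {b | b ∈ 𝒜 D ∧ b - (q.1 - q.2) ∈ 𝒜 D} else ∅ :
              Set (V p)).encard ≤ ((p ^ (D / 4) : ℕ) : ℕ∞) := by
          intro q hq
          rw [Finset.mem_product] at hq
          split_ifs with hne
          · refine hdiff D hD E (by omega) _ hne ?_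
            intro i hi
            have h1 := hsupp E q.1 ((hcard E hE0).1.mem_toFinset.1 hq.1) i hi
            have h2 := hsupp E q.2 ((hcard E hE0).1.mem_toFinset.1 hq.2) i hi
            rw [Pi.sub_apply, h1, h2, sub_zero]
          · simp
        calc (⋃ q ∈ F ×ˢ F, (if q.1 - q.2 ≠ 0 then {b | b ∈ 𝒜 D ∧ b - (q.1 - q.2) ∈ 𝒜 D} else ∅ :
              Set (V p))).encard
            ≤ ∑ q ∈ F ×ˢ F, (if q.1 - q.2 ≠ 0 then {b | b ∈ 𝒜 D ∧ b - (q.1 - q.2) ∈ 𝒜 D} else ∅ :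
              Set (V p)).encard := by
              generalize F ×ˢ F = FF
              induction FF using Finset.induction_on with
              | empty => simp
              | insert q s hqs ih =>
                rw [Finset.set_biUnion_insert, Finset.sum_insert hqs]
                exact (Set.encard_union_le _ _).trans (add_le_add le_rfl ih)
          _ ≤ ∑ q ∈ F ×ˢ F, ((p ^ (D / 4) : ℕ) : ℕ∞) := Finset.sum_le_sum hq
          _ = (((F.card * F.card) * p ^ (D / 4) : ℕ) : ℕ∞) := by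
              rw [Finset.sum_const, Finset.card_product, nsmul_eq_mul]
              push_cast
              rfl
          _ ≤ ((p ^ (D / 4) * p ^ (D / 4) * p ^ (D / 4) : ℕ) : ℕ∞) := by
              exact_mod_cast Nat.mul_le_mul_right _ (Nat.mul_le_mul hFcard hFcard)
      · rw [dif_neg hE0]
        simp
    calc (⋃ E ∈ Finset.range (D / 4 + 1), ⋃ q ∈
        (if h : D0 ≤ E then ((hcard E h).1.toFinset ×ˢ (hcard E h).1.toFinset) else ∅ :
          Finset (V p × V p)),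
        (if q.1 - q.2 ≠ 0 then {b | b ∈ 𝒜 D ∧ b - (q.1 - q.2) ∈ 𝒜 D} else ∅ : Set (V p))).encard
        ≤ ∑ E ∈ Finset.range (D / 4 + 1), (⋃ q ∈
        (if h : D0 ≤ E then ((hcard E h).1.toFinset ×ˢ (hcard E h).1.toFinset) else ∅ :
          Finset (V p × V p)),
        (if q.1 - q.2 ≠ 0 then {b | b ∈ 𝒜 D ∧ b - (q.1 - q.2) ∈ 𝒜 D} else ∅ :
          Set (V p))).encard := by
          generalize Finset.range (D / 4 + 1) = RRg
          induction RRg using Finset.induction_on with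
          | empty => simp
          | insert q s hqs ih =>
            rw [Finset.set_biUnion_insert, Finset.sum_insert hqs]
            exact (Set.encard_union_le _ _).trans (add_le_add le_rfl ih)
      _ ≤ ∑ E ∈ Finset.range (D / 4 + 1), ((p ^ (D / 4) * p ^ (D / 4) * p ^ (D / 4) : ℕ) : ℕ∞) :=
          Finset.sum_le_sum hone
      _ = (((D / 4 + 1) * (p ^ (D / 4) * p ^ (D / 4) * p ^ (D / 4)) : ℕ) : ℕ∞) := by
          rw [Finset.sum_const, Finset.card_range, nsmul_eq_mul]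
          push_cast
          rfl
      _ ≤ (((D + 1) * (p ^ (D / 4) * p ^ (D / 4) * p ^ (D / 4)) : ℕ) : ℕ∞) := by
          exact_mod_cast Nat.mul_le_mul_right _ (by omega)
  refine ⟨fun D => 𝒜 D \ Bad D, max D0 1, ?_, ?_, ?_⟩
  · intro D a ha
    exact hsupp D a ha.1
  · intro D hD
    have hD0 : D0 ≤ D := (le_max_left _ _).trans hD
    have hD1 : 1 ≤ D := (le_max_right _ _).trans hD
    obtain ⟨hfin, l, hl1, hl2, hl3⟩ := hcard D hD0
    refine ⟨hfin.subset Set.sdiff_subset, l, ?_, hl2, hl3⟩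
    have h16 : 16 * (D - l) ≤ D := by
      have h8 : (8 : ℕ) ≤ 2 ^ ν := by
        calc 8 = 2 ^ 3 := by norm_num
          _ ≤ 2 ^ ν := Nat.pow_le_pow_right (by norm_num) hν
      have h1 : (D - l) * 8 ^ J ≤ 2 ^ J * D :=
        (Nat.mul_le_mul_left _ (Nat.pow_le_pow_left h8 J)).trans hl3
      have h2 : (8 : ℕ) ^ J = 2 ^ J * 4 ^ J := by
        rw [← mul_pow]
        norm_num
      rw [h2] at h1
      have h3 : 2 ^ J * ((D - l) * 4 ^ J) ≤ 2 ^ J * D := by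
        calc 2 ^ J * ((D - l) * 4 ^ J) = (D - l) * (2 ^ J * 4 ^ J) := by ring
          _ ≤ 2 ^ J * D := h1
      have h4 : (D - l) * 4 ^ J ≤ D := Nat.le_of_mul_le_mul_left h3 (by positivity)
      have h5 : 16 ≤ 4 ^ J := by
        calc 16 = 4 ^ 2 := by norm_num
          _ ≤ 4 ^ J := Nat.pow_le_pow_right (by norm_num) hJ2
      calc 16 * (D - l) = (D - l) * 16 := by ring
        _ ≤ (D - l) * 4 ^ J := Nat.mul_le_mul_left _ h5
        _ ≤ D := h4
    have hnum := DEL_num hp16 hD1 hl2 h16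
    have hBsub : Bad D ⊆ 𝒜 D := fun b hb => hb.1
    have hBfin : (Bad D).Finite := hfin.subset hBsub
    have hBn : (Bad D).ncard ≤ (D + 1) * (p ^ (D / 4) * p ^ (D / 4) * p ^ (D / 4)) := by
      have := hbad D hD0
      rw [← hBfin.cast_ncard_eq] at this
      exact_mod_cast this
    have hdiffn : (𝒜 D \ Bad D).ncard + (Bad D).ncard = (𝒜 D).ncard :=
      Set.ncard_sdiff_add_ncard_of_subset hBsub hfin
    rw [hl1] at hdiffn
    show p ^ l ≤ 2 * (𝒜 D \ Bad D).ncard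
    omega
  · intro D D' hD hDD
    have hD0 : D0 ≤ D := (le_max_left _ _).trans hD
    by_cases h4 : D' ≤ 4 * D
    · exact (hcross D D' hD0 hDD h4).mono Set.sdiff_subset Set.sdiff_subset le_rfl
    · push Not at h4
      intro t
      have hRR : (1 : ℕ∞) ≤ (RR ν J : ℕ) := by
        have : 1 ≤ RR ν J := by
          unfold RR
          exact Nat.one_le_iff_ne_zero.mpr (by positivity)
        exact_mod_cast this
      refine le_trans ?_ hRR
      rw [Set.encard_le_one_iff]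
      rintro a a₁ ⟨ha, hb⟩ ⟨ha₁, hb₁⟩
      by_contra hne
      apply hb.2
      refine ⟨hb.1, D, hD0, h4.le, a₁, ha₁.1, a, ha.1, ?_, ?_⟩
      · exact sub_ne_zero.mpr (Ne.symm hne)
      · have : t - a - (a₁ - a) = t - a₁ := by abel
        rw [this]
        exact hb₁.1

end Pool.Agent.B2g
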