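import Pool.Agent.B2g.NumB

/-! Module NUMH (MP_491344_nt, text MP_491344_nt_b2g_helper7.md). -/

namespace Pool.Agent.B2g

/-- total length of the blocks used by `A j D` -/
def len (ν : ℕ) : ℕ → ℕ → ℕ
  | 0, _ => 0
  | j + 1, D => if D < st ν 0 then 0 else Bl ν (bi ν D) + len ν j (D - Bl ν (bi ν D))

/-- Module NUMH. -/
theorem len_le (ν j D : ℕ) : len ν j D ≤ D := by
  induction j generalizing D with
  | zero => simp [len]
  | succ j ih =>
    rw [len]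
    split_ifs with h
    · exact Nat.zero_le _
    · have h1 := Bl_bi_le (not_lt.1 h)
      have h2 := ih (D - Bl ν (bi ν D))
      omega

theorem NUMH_rest (ν K : ℕ) : ∃ D0, ∀ D, D0 ≤ D → st ν 0 ≤ D ∧ K ≤ D - Bl ν (bi ν D) := by
  refine ⟨st ν (2 ^ ν * (K + (ν + 1))), fun D hD => ?_⟩
  have h0 : st ν 0 ≤ D := le_trans ((st_strictMono ν).monotone (Nat.zero_le _)) hD
  refine ⟨h0, ?_⟩
  have h1 : bi ν (st ν (2 ^ ν * (K + (ν + 1)))) = 2 ^ ν * (K + (ν + 1)) :=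
    bi_eq le_rfl (st_strictMono ν (Nat.lt_succ_self _))
  have h2 := bi_mono ν hD
  rw [h1] at h2
  have h3 := sl_mono ν h2
  have h4 := (bi_spec h0).1
  have h5 : 2 ^ K ≤ sl ν (2 ^ ν * (K + (ν + 1))) := by
    unfold sl Un
    rw [Nat.mul_div_cancel_left _ (by positivity), Nat.le_div_iff_mul_le (by positivity)]
    apply le_of_eq
    rw [pow_add, pow_succ]
    ring
  have h6 : K < 2 ^ K := Nat.lt_two_pow_self
  unfold st at h4
  omega

/-- Module NUMH: each remainder satisfies `D₁ = D - Bl (bi D) < 2 Un ≤ 2 D / n`; for `D ≥ D₀` (see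
`used_large`) no remainder before step `J` drops below `st 0`. -/
theorem len_lower (ν J : ℕ) (hν : 3 ≤ ν) : ∃ D0, ∀ D, D0 ≤ D →
    (D - len ν J D) * (2 ^ ν) ^ J ≤ 2 ^ J * D := by
  induction J with
  | zero => exact ⟨0, fun D _ => by simp [len]⟩
  | succ J ih =>
    obtain ⟨K, hK⟩ := ih
    obtain ⟨D0, hD0⟩ := NUMH_rest ν K
    refine ⟨D0, fun D hD => ?_⟩
    obtain ⟨h0, h1⟩ := hD0 D hD
    have h2 := hK _ h1
    rw [len, if_neg (not_lt.2 h0)]
    set D1 := D - Bl ν (bi ν D) with hD1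
    have e1 : D - (Bl ν (bi ν D) + len ν J D1) = D1 - len ν J D1 := by omega
    rw [e1]
    have h3 : D1 * 2 ^ ν ≤ 2 * D := by
      have h4 := lt_Bl_bi_add h0
      have h5 : 2 ^ ν * Un ν (bi ν D) ≤ D := le_trans (Bl_lower ν _) (Bl_bi_le h0)
      have h6 : D1 ≤ 2 * Un ν (bi ν D) := by omega
      calc D1 * 2 ^ ν ≤ (2 * Un ν (bi ν D)) * 2 ^ ν := Nat.mul_le_mul_right _ h6
        _ = 2 * (2 ^ ν * Un ν (bi ν D)) := by ring
        _ ≤ 2 * D := Nat.mul_le_mul_left _ h5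
    calc (D1 - len ν J D1) * (2 ^ ν) ^ (J + 1) = ((D1 - len ν J D1) * (2 ^ ν) ^ J) * 2 ^ ν := by
          rw [pow_succ]; ring
      _ ≤ (2 ^ J * D1) * 2 ^ ν := Nat.mul_le_mul_right _ h2
      _ = 2 ^ J * (D1 * 2 ^ ν) := by ring
      _ ≤ 2 ^ J * (2 * D) := Nat.mul_le_mul_left _ h3
      _ = 2 ^ (J + 1) * D := by rw [pow_succ]; ring

end Pool.Agent.B2g
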