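import Pool.Agent.B2g.SetA
import Pool.Agent.B2g.NumH

/-! Module SETB (MP_491344_nt, text MP_491344_nt_b2g_helper7.md). -/

namespace Pool.Agent.B2g

variable {p ν : ℕ} [Fact p.Prime] {Φ : Flds p ν} {η : ℕ → (V p →ₗ[ZMod p] V p)}

/-- Module SETB: the number of elements is `p ^ len`.  Induction on `j`: `a = G w` injective;
`w ↦ (pm w, tail w)` is injective on the set (`vm = pm ^ 2`) with image
`GaloisField × A j (D - Bl)`; `Nat.card (GaloisField p (Bl ν m)) = p ^ Bl ν m`. -/
theorem ncard_A (hη : ∀ m, ShOK ν m (η m)) (j D : ℕ) :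
    (A η Φ j D).Finite ∧ (A η Φ j D).ncard = p ^ len ν j D := by
  induction j generalizing D with
  | zero =>
    rw [A_zero]
    refine ⟨Set.finite_singleton _, ?_⟩
    rw [Set.ncard_singleton]
    simp [len]
  | succ j ih =>
    by_cases h : D < st ν 0
    · rw [A_small _ h]
      refine ⟨Set.finite_singleton _, ?_⟩
      rw [Set.ncard_singleton]
      simp [len, h]
    · obtain ⟨ihf, ihc⟩ := ih (D - Bl ν (bi ν D))
      set m := bi ν D with hm
      set A' : Set (V p) := A η Φ j (D - Bl ν m) with hA'
      set W : Set (V p) := {w | pm Φ m w ^ 2 = vm Φ m w ∧ tl p (Bl ν m) w ∈ A'} with hW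
      have hAW : A η Φ (j + 1) D = (fun w => G ν η m w) '' W := by
        ext a
        rw [mem_A_succ (not_lt.1 h)]
        constructor
        · rintro ⟨w, h1, h2, h3⟩
          exact ⟨w, ⟨h1, h2⟩, h3.symm⟩
        · rintro ⟨w, ⟨h1, h2⟩, h3⟩
          exact ⟨w, h1, h2, h3.symm⟩
      let ψ : V p → GaloisField p (Bl ν m) × V p := fun w => (pm Φ m w, tl p (Bl ν m) w)
      have hinj : Set.InjOn ψ W := by
        intro w hw z hz hwz
        have e1 : pm Φ m w = pm Φ m z := congrArg Prod.fst hwz
        have e2 : tl p (Bl ν m) w = tl p (Bl ν m) z := congrArg Prod.snd hwz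
        have e3 : vm Φ m w = vm Φ m z := by rw [← hw.1, ← hz.1, e1]
        have e4 := eq_of_pm_vm e1 e3
        funext i
        by_cases hi : i < Bl ν m
        · exact e4 i hi
        · have e5 := congrFun e2 (i - Bl ν m)
          rw [tl_apply, tl_apply, Nat.sub_add_cancel (not_lt.1 hi)] at e5
          exact e5
      have himg : ψ '' W = (Set.univ : Set (GaloisField p (Bl ν m))) ×ˢ A' := by
        ext ⟨x, y⟩
        constructor
        · rintro ⟨w, hw, hwe⟩
          have e2 : tl p (Bl ν m) w = y := congrArg Prod.snd hwe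
          exact ⟨Set.mem_univ _, by rw [← e2]; exact hw.2⟩
        · rintro ⟨-, hy⟩
          obtain ⟨w, h1, h2, h3⟩ := exists_pm_vm (Φ := Φ) m x (x ^ 2)
          have e0 : ∀ i < Bl ν m, (w + sh p (Bl ν m) y) i = w i := fun i hi => by
            rw [Pi.add_apply, sh_apply, if_pos hi, add_zero]
          have e1 : pm Φ m (w + sh p (Bl ν m) y) = x := (pm_congr e0).trans h1
          have e2 : vm Φ m (w + sh p (Bl ν m) y) = x ^ 2 := (vm_congr e0).trans h2
          have e3 : tl p (Bl ν m) (w + sh p (Bl ν m) y) = y := by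
            funext i
            rw [tl_apply, Pi.add_apply, sh_apply, if_neg (by omega), h3 _ (by omega), zero_add,
              Nat.add_sub_cancel]
          refine ⟨w + sh p (Bl ν m) y, ⟨?_, ?_⟩, ?_⟩
          · rw [e1, e2]
          · rw [e3]; exact hy
          · change (pm Φ m (w + sh p (Bl ν m) y), tl p (Bl ν m) (w + sh p (Bl ν m) y)) = (x, y)
            rw [e1, e3]
      have hB0 : Bl ν m ≠ 0 := by
        have := lt_Bl ν m
        omega
      have hGc : Nat.card (GaloisField p (Bl ν m)) = p ^ Bl ν m := GaloisField.card p (Bl ν m) hB0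
      have hGf : Finite (GaloisField p (Bl ν m)) := by
        apply Nat.finite_of_card_ne_zero
        rw [hGc]
        exact pow_ne_zero _ (Fact.out : p.Prime).ne_zero
      have hWf : W.Finite := by
        apply Set.Finite.of_finite_image _ hinj
        rw [himg]
        exact Set.finite_univ.prod ihf
      have hWc : W.ncard = p ^ (Bl ν m + len ν j (D - Bl ν m)) := by
        rw [← hinj.ncard_image, himg, Set.ncard_prod, Set.ncard_univ, hGc, ihc, pow_add]
      refine ⟨?_, ?_⟩
      · rw [hAW]
        exact hWf.image _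
      · rw [hAW, Set.ncard_image_of_injective _ (uni_G hη m).injective, hWc]
        congr 1
        simp only [len]
        rw [if_neg h]

end Pool.Agent.B2g
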