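import Pool.Agent.B2g.Cro
import Pool.Agent.B2g.SetB

/-! Module DIFF (MP_491344_nt, text MP_491344_nt_b2g_helper7.md). -/

namespace Pool.Agent.B2g

variable {p ν : ℕ} [Fact p.Prime] {Φ : Flds p ν} {η : ℕ → (V p →ₗ[ZMod p] V p)}

private theorem DIFF_two (hp : p ≠ 2) (n : ℕ) : (2 : GaloisField p n) ≠ 0 := by
  intro h
  have h1 : ((2 : ℕ) : GaloisField p n) = 0 := by exact_mod_cast h
  rw [CharP.cast_eq_zero_iff (GaloisField p n) p 2] at h1
  have h2 : p.Prime := Fact.out
  rcases (Nat.dvd_prime Nat.prime_two).1 h1 with h3 | h3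
  · exact h2.one_lt.ne' h3
  · exact hp h3

/-- Module DIFF.  `m = bi D`, `b = G w`, `b - d = G w'`, `δ = w - w'`, `G δ = d` (so `δ` is the same
for all `b` in the set).  The lowest nonzero position of `δ` is that of `d` (`uni_G`), so it is
`< M ≤ Bl m`.  `x = pm w`, `y = pm w'`: `x - y = pm δ`, `x^2 - y^2 = vm δ`.  If `pm δ = 0` then
`vm δ = 0` and `δ` vanishes below `Bl m` (`eq_of_pm_vm`), contradiction.  So
`x + y = vm δ / pm δ` and `x` is determined.  Then the first `Bl m` positions of `w` are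
determined and `b` by `tl w ∈ A j (D - Bl m)`, which has at most `p ^ (D - Bl m)` elements
(`ncard_A`, `len_le`). -/
theorem diff_bound (hp : p ≠ 2) (hη : ∀ m, ShOK ν m (η m)) {j D M : ℕ} (h0 : st ν 0 ≤ D)
    (hM : M ≤ Bl ν (bi ν D)) {d : V p} (hd : d ≠ 0) (hdM : ∀ i, M ≤ i → d i = 0) :
    {b | b ∈ A η Φ j D ∧ b - d ∈ A η Φ j D}.encard ≤
      ((p ^ (D - Bl ν (bi ν D)) : ℕ) : ℕ∞) := by
  classical
  cases j with
  | zero =>
    have hS : {b | b ∈ A η Φ 0 D ∧ b - d ∈ A η Φ 0 D} = ∅ := by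
      rw [Set.eq_empty_iff_forall_notMem]
      rintro b ⟨h1, h2⟩
      rw [A_zero, Set.mem_singleton_iff] at h1 h2
      rw [h1, zero_sub, neg_eq_zero] at h2
      exact hd h2
    rw [hS, Set.encard_empty]
    exact bot_le
  | succ j =>
    set m := bi ν D with hm
    have hGinj : Function.Injective (G ν η m) := (uni_G hη m).injective
    let gi : V p → V p := Function.invFun (G ν η m)
    have hgi : ∀ w, gi (G ν η m w) = w := Function.leftInverse_invFun hGinj
    have hmem : ∀ b, b ∈ A η Φ (j + 1) D → pm Φ m (gi b) ^ 2 = vm Φ m (gi b) ∧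
        tl p (Bl ν m) (gi b) ∈ A η Φ j (D - Bl ν m) ∧ b = G ν η m (gi b) := by
      intro b hb
      obtain ⟨w, h1, h2, h3⟩ := (mem_A_succ h0).1 hb
      have e1 : gi b = w := by rw [h3]; exact hgi w
      rw [e1]
      exact ⟨h1, h2, h3⟩
    rcases Set.eq_empty_or_nonempty {b | b ∈ A η Φ (j + 1) D ∧ b - d ∈ A η Φ (j + 1) D} with hS | ⟨b0, hb0⟩
    · rw [hS, Set.encard_empty]
      exact bot_le
    set δ := gi b0 - gi (b0 - d) with hδ
    have hGδ : G ν η m δ = d := by
      rw [hδ, map_sub, ← (hmem b0 hb0.1).2.2, ← (hmem _ hb0.2).2.2]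
      abel
    clear_value δ
    have hgd : ∀ b, b ∈ A η Φ (j + 1) D → b - d ∈ A η Φ (j + 1) D → gi (b - d) = gi b - δ := by
      intro b hb hbd
      apply hGinj
      rw [map_sub, hGδ, ← (hmem b hb).2.2, ← (hmem _ hbd).2.2]
    -- `pm δ ≠ 0`
    have hpm : pm Φ m δ ≠ 0 := by
      intro hc
      have hx := (hmem b0 hb0.1).1
      have hy := (hmem _ hb0.2).1
      rw [hgd b0 hb0.1 hb0.2, map_sub, map_sub, hc, sub_zero, hx] at hy
      have hv : vm Φ m δ = 0 := by
        have : vm Φ m (gi b0) - vm Φ m δ = vm Φ m (gi b0) := hy.symm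
        exact sub_eq_self.1 this
      have hz : ∀ i < Bl ν m, δ i = (0 : V p) i :=
        eq_of_pm_vm (by rw [hc, map_zero]) (by rw [hv, map_zero])
      have hδ0 : δ ≠ 0 := by
        intro h
        rw [h, map_zero] at hGδ
        exact hd hGδ.symm
      have hex : ∃ i, δ i ≠ 0 := by
        by_contra hcon
        push Not at hcon
        exact hδ0 (funext hcon)
      set i := Nat.find hex with hi
      have hi1 : δ i ≠ 0 := Nat.find_spec hex
      have hi2 : ∀ k < i, δ k = 0 := fun k hk => by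
        by_contra hcon
        exact Nat.find_min hex hk hcon
      have hi3 : Bl ν m ≤ i := by
        by_contra hcon
        exact hi1 (hz i (not_le.1 hcon))
      have hi4 : d i = δ i := by
        rw [← hGδ]
        exact uni_G hη m δ i hi2
      exact hi1 (hi4 ▸ hdM i (hM.trans hi3))
    -- `pm (gi b)` is determined
    have hdet : ∀ b, b ∈ A η Φ (j + 1) D → b - d ∈ A η Φ (j + 1) D →
        2 * pm Φ m δ * pm Φ m (gi b) = vm Φ m δ + pm Φ m δ ^ 2 := by
      intro b hb hbd
      have hx := (hmem b hb).1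
      have hy := (hmem _ hbd).1
      rw [hgd b hb hbd, map_sub, map_sub] at hy
      linear_combination hx - hy
    have hinj : Set.InjOn (fun b => tl p (Bl ν m) (gi b))
        {b | b ∈ A η Φ (j + 1) D ∧ b - d ∈ A η Φ (j + 1) D} := by
      rintro b ⟨hb, hbd⟩ b' ⟨hb', hbd'⟩ htl
      have e0 : pm Φ m (gi b) = pm Φ m (gi b') := by
        have h1 := hdet b hb hbd
        have h2 := hdet b' hb' hbd'
        exact mul_left_cancel₀ (mul_ne_zero (DIFF_two hp _) hpm) (h1.trans h2.symm)
      have e1 : vm Φ m (gi b) = vm Φ m (gi b') := by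
        rw [← (hmem b hb).1, ← (hmem b' hb').1, e0]
      have e3 := eq_of_pm_vm e0 e1
      have e4 : gi b = gi b' := by
        funext i
        by_cases hi : i < Bl ν m
        · exact e3 i hi
        · have e5 := congrFun htl (i - Bl ν m)
          change tl p (Bl ν m) (gi b) (i - Bl ν m) = tl p (Bl ν m) (gi b') (i - Bl ν m) at e5
          rw [tl_apply, tl_apply, Nat.sub_add_cancel (not_lt.1 hi)] at e5
          exact e5
      rw [(hmem b hb).2.2, (hmem b' hb').2.2, e4]
    have hmaps : Set.MapsTo (fun b => tl p (Bl ν m) (gi b))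
        {b | b ∈ A η Φ (j + 1) D ∧ b - d ∈ A η Φ (j + 1) D} (A η Φ j (D - Bl ν m)) :=
      fun b hb => (hmem b hb.1).2.1
    refine (Set.encard_le_encard_of_injOn hmaps hinj).trans ?_
    obtain ⟨hf, hc⟩ := ncard_A hη (Φ := Φ) j (D - Bl ν m)
    rw [← hf.cast_ncard_eq, hc]
    have h1 : p ^ len ν j (D - Bl ν m) ≤ p ^ (D - Bl ν m) :=
      Nat.pow_le_pow_right (Fact.out : p.Prime).pos (len_le ν j (D - Bl ν m))
    exact_mod_cast h1

end Pool.Agent.B2g
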