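import Pool.Agent.B2g.FarG
import Pool.Agent.B2g.Choice

/-! Module ETA (MP_491344_nt, text MP_491344_nt_b2g_helper7.md). -/

namespace Pool.Agent.B2g

variable {p ν : ℕ} [Fact p.Prime]

private theorem ETA_small (hν : 3 ≤ ν) {m D' : ℕ} (hD'0 : st ν 0 ≤ D') (hbi : bi ν D' = m) :
    D' - Bl ν m < st ν 0 ∨ bi ν (D' - Bl ν m) < m := by
  by_cases h : D' - Bl ν m < st ν 0
  · exact Or.inl h
  · right
    push Not at h
    have h1 := (bi_spec h).1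
    have h2 := lt_Bl_bi_add hD'0
    rw [hbi] at h2
    have h3 : 2 * Un ν m ≤ Bl ν m := by
      refine le_trans (Nat.mul_le_mul_right _ ?_) (Bl_lower ν m)
      calc 2 = 2 ^ 1 := rfl
        _ ≤ 2 ^ ν := Nat.pow_le_pow_right (by norm_num) (by omega)
    have h4 : st ν (bi ν (D' - Bl ν m)) < st ν m := by
      have : Bl ν m ≤ st ν m := Nat.le_add_right _ _
      omega
    exact (st_strictMono ν).lt_iff_lt.1 h4

private theorem ETA_local (hν : 3 ≤ ν) {J m : ℕ} (Φ : Flds p ν)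
    {η η' : ℕ → (V p →ₗ[ZMod p] V p)} (h : ∀ k ≤ m, η k = η' k) (hg : Good Φ η J m) :
    Good Φ η' J m := by
  intro j D j' D' hF t s hs hli
  refine hg j D j' D' hF t s (fun i => ?_) hli
  have hlt : ∀ k < m, η' k = η k := fun k hk => (h k hk.le).symm
  obtain ⟨h1, h2, a', ha', h3⟩ := hs i
  obtain ⟨_, _, hD'0, hbi, hDm, _⟩ := hF
  have hA : A η' Φ j D = A η Φ j D := A_congr hlt hDm
  have hA' : A η' Φ j' (D' - Bl ν m) = A η Φ j' (D' - Bl ν m) :=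
    A_congr hlt (ETA_small hν hD'0 hbi)
  have hH : H ν η' m = H ν η m := H_congr hlt
  refine ⟨h1, h2, a', hA' ▸ ha', ?_⟩
  rw [h m le_rfl, ← hH, ← hA]
  exact h3

/-- Module ETA.  `seq_choice` with `ok = ShOK`, `P m η = (m0 ≤ m → Good Φ η J m)`, `d = 0`.
Locality of `Good`: `H_congr`, `A_congr` as in `good_step` (for a far quadruple). -/
theorem exists_eta (hν : 3 ≤ ν) (hp : 2 ^ (40 * 4 ^ ν) ≤ p) {J : ℕ} (hJ : (J + 1) ^ 2 ≤ p)
    (Φ : Flds p ν) : ∃ η : ℕ → (V p →ₗ[ZMod p] V p), (∀ m, ShOK ν m (η m)) ∧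
      ∀ m, m0 ν ≤ m → Good Φ η J m := by
  have h0 : ∀ m, ShOK ν m (0 : V p →ₗ[ZMod p] V p) := fun m =>
    ⟨fun _ _ => rfl, fun _ _ _ => rfl⟩
  obtain ⟨η, hη⟩ := seq_choice (fun m θ => ShOK ν m θ)
    (fun m (η : ℕ → (V p →ₗ[ZMod p] V p)) => m0 ν ≤ m → Good Φ η J m) 0 h0
    (fun m η η' h hg hm => ETA_local hν Φ h (hg hm)) (by
      intro m η hη
      by_cases hm : m0 ν ≤ m
      · obtain ⟨θ, h1, h2⟩ := good_step hν hp hJ Φ η hη hm
        exact ⟨θ, h1, fun _ => h2⟩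
      · exact ⟨0, h0 m, fun h => absurd h hm⟩)
  exact ⟨η, fun m => (hη m).1, fun m => (hη m).2⟩

end Pool.Agent.B2g
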