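import Pool.Agent.B2g.Fld1

/-! Module FLD2 (MP_491344_nt, text MP_491344_nt_b2g_helper7.md). -/

namespace Pool.Agent.B2g

/-- The coordinate maps of one block. -/
def FLD2_T (p ν m : ℕ) [Fact p.Prime] : Type :=
  {E : (ℕ → ZMod p) →ₗ[ZMod p] GaloisField p (Bl ν m) //
    (∀ y : ℕ → ZMod p, E y = 0 ↔ ∀ i < Bl ν m, y i = 0) ∧ Function.Surjective E}

theorem FLD2_pos (ν m : ℕ) : 0 < Bl ν m := by
  unfold Bl
  positivity

theorem FLD2_base (p ν m : ℕ) [Fact p.Prime] : Nonempty (FLD2_T p ν m) := by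
  have h1 := GaloisField.finrank p (FLD2_pos ν m).ne'
  have h2 : Module.finrank (ZMod p) (Fin (Bl ν m) → ZMod p) =
      Module.finrank (ZMod p) (GaloisField p (Bl ν m)) := by
    rw [h1, Module.finrank_fin_fun]
  let e : (Fin (Bl ν m) → ZMod p) ≃ₗ[ZMod p] GaloisField p (Bl ν m) :=
    LinearEquiv.ofFinrankEq _ _ h2
  let r : (ℕ → ZMod p) →ₗ[ZMod p] (Fin (Bl ν m) → ZMod p) :=
    LinearMap.funLeft (ZMod p) (ZMod p) (fun i : Fin (Bl ν m) => (i : ℕ))
  refine ⟨⟨e.toLinearMap.comp r, fun y => ?_, fun z => ?_⟩⟩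
  · have h3 : (e.toLinearMap.comp r) y = 0 ↔ r y = 0 := by
      show e (r y) = 0 ↔ r y = 0
      exact e.map_eq_zero_iff
    rw [h3]
    constructor
    · intro h i hi
      exact congrFun h ⟨i, hi⟩
    · intro h
      funext i
      exact h i i.2
  · refine ⟨fun i => if h : i < Bl ν m then e.symm z ⟨i, h⟩ else 0, ?_⟩
    have h3 : r (fun i => if h : i < Bl ν m then e.symm z ⟨i, h⟩ else 0) = e.symm z := by
      funext i
      show (if h : (i : ℕ) < Bl ν m then e.symm z ⟨i, h⟩ else 0) = e.symm z i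
      rw [dif_pos i.2]
    show e (r _) = z
    rw [h3]
    exact e.apply_symm_apply z

theorem FLD2_step {p ν m : ℕ} [Fact p.Prime] (h : 1 ≤ m ∧ ν ≤ (m - 1) / 2 ^ ν)
    (E₁ : FLD2_T p ν (m - 1)) (E₂ : FLD2_T p ν (ui ν m)) :
    ∃ E : FLD2_T p ν m,
      ∃ (f : GaloisField p (Bl ν (ui ν m)) →+* GaloisField p (Bl ν (m - 1)))
        (g : GaloisField p (Bl ν (ui ν m)) →+* GaloisField p (Bl ν m))
        (Ψ : (GaloisField p (Bl ν (m - 1)) × GaloisField p (Bl ν (ui ν m))) ≃+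
          GaloisField p (Bl ν m)),
        (∀ c a b, Ψ (f c * a, c * b) = g c * Ψ (a, b)) ∧
        ∀ y : ℕ → ZMod p, E.1 y = Ψ (E₁.1 y, E₂.1 (fun i => y (i + Bl ν (m - 1)))) := by
  obtain ⟨h1, h2, h3⟩ := Bl_ui h.1 h.2
  have hd : Bl ν (ui ν m) ∣ Bl ν (m - 1) := by
    rw [h1]
    exact Dvd.intro_left _ rfl
  obtain ⟨f, g, Ψ, hΨ⟩ := exists_merge p (Bl ν (m - 1)) (Bl ν (ui ν m)) (Bl ν m)
    (FLD2_pos _ _) hd (FLD2_pos _ _) h2
  let A : (ℕ → ZMod p) →+ GaloisField p (Bl ν m) :=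
    { toFun := fun y => Ψ (E₁.1 y, E₂.1 (fun i => y (i + Bl ν (m - 1))))
      map_zero' := by
        have e1 : E₁.1 (0 : ℕ → ZMod p) = 0 := map_zero _
        have e2 : E₂.1 (fun i => (0 : ℕ → ZMod p) (i + Bl ν (m - 1))) = 0 :=
          map_zero E₂.1
        rw [e1, e2]
        exact map_zero Ψ
      map_add' := by
        intro x y
        have e1 : E₁.1 (x + y) = E₁.1 x + E₁.1 y := map_add _ _ _
        have e2 : E₂.1 (fun i => (x + y) (i + Bl ν (m - 1))) =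
            E₂.1 (fun i => x (i + Bl ν (m - 1))) + E₂.1 (fun i => y (i + Bl ν (m - 1))) :=
          map_add E₂.1 (fun i => x (i + Bl ν (m - 1))) (fun i => y (i + Bl ν (m - 1)))
        rw [e1, e2, ← Prod.mk_add_mk]
        exact map_add Ψ _ _ }
  refine ⟨⟨A.toZModLinearMap p, fun y => ?_, fun z => ?_⟩, f, g, Ψ, hΨ, fun y => rfl⟩
  · show Ψ (E₁.1 y, E₂.1 (fun i => y (i + Bl ν (m - 1)))) = 0 ↔ _
    rw [Ψ.map_eq_zero_iff, Prod.mk_eq_zero, E₁.2.1, E₂.2.1, h2]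
    constructor
    · rintro ⟨h4, h5⟩ i hi
      by_cases hi' : i < Bl ν (m - 1)
      · exact h4 i hi'
      · have := h5 (i - Bl ν (m - 1)) (by omega)
        rwa [Nat.sub_add_cancel (by omega)] at this
    · intro h4
      exact ⟨fun i hi => h4 i (by omega), fun i hi => h4 _ (by omega)⟩
  · obtain ⟨y₁, hy₁⟩ := E₁.2.2 (Ψ.symm z).1
    obtain ⟨y₂, hy₂⟩ := E₂.2.2 (Ψ.symm z).2
    refine ⟨fun i => if i < Bl ν (m - 1) then y₁ i else y₂ (i - Bl ν (m - 1)), ?_⟩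
    show Ψ (E₁.1 _, E₂.1 _) = z
    have e1 : E₁.1 (fun i => if i < Bl ν (m - 1) then y₁ i else y₂ (i - Bl ν (m - 1))) =
        E₁.1 y₁ := by
      rw [← sub_eq_zero, ← map_sub, E₁.2.1]
      intro i hi
      show (if i < Bl ν (m - 1) then y₁ i else y₂ (i - Bl ν (m - 1))) - y₁ i = 0
      rw [if_pos hi, sub_self]
    have e2 : (fun i => (fun i => if i < Bl ν (m - 1) then y₁ i else y₂ (i - Bl ν (m - 1)))
        (i + Bl ν (m - 1))) = y₂ := by
      funext i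
      show (if i + Bl ν (m - 1) < Bl ν (m - 1) then y₁ (i + Bl ν (m - 1)) else
        y₂ (i + Bl ν (m - 1) - Bl ν (m - 1))) = y₂ i
      rw [if_neg (by omega), Nat.add_sub_cancel]
    rw [e1, e2, hy₁, hy₂]
    exact Ψ.apply_symm_apply z

open Classical in
/-- The coordinate maps of all blocks. -/
noncomputable def FLD2_F (p ν : ℕ) [Fact p.Prime] (m : ℕ) : FLD2_T p ν m :=
  if h : 1 ≤ m ∧ ν ≤ (m - 1) / 2 ^ ν then
    Classical.choose (FLD2_step h (FLD2_F p ν (m - 1)) (FLD2_F p ν (ui ν m)))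
  else Classical.choice (FLD2_base p ν m)
termination_by m
decreasing_by
  · omega
  · exact (Bl_ui h.1 h.2).2.2

/-- Module FLD2.  Strong recursion on `m` (for instance: prove by induction on `M` that there are
`E m`, `m ≤ M`, with `ker`, `surj`, and `compat` up to `M`, extending the given ones; or use the
well-founded recursion theorem with choice).  If `1 ≤ m` and `ν ≤ (m-1)/2^ν`: `E m y := Ψ (E (m-1) y,
E (ui m) (y shifted by Bl (m-1)))` with `Ψ` from `exists_merge` (`Bl_ui`; `Un (m-1) ∣ Bl (m-1)`,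
`ui m < m`).  Otherwise `E m = (any linear equivalence (Fin (Bl m) → ZMod p) ≃ GaloisField) ∘
restriction`.  `Ψ` is additive, hence `ZMod p`-linear.  `ker`: `Ψ` injective and the two kernels. -/
theorem exists_flds (p ν : ℕ) [Fact p.Prime] (hν : 1 ≤ ν) : Nonempty (Flds p ν) := by
  refine ⟨⟨fun m => (FLD2_F p ν m).1, fun m => (FLD2_F p ν m).2.1,
    fun m => (FLD2_F p ν m).2.2, fun m hm h => ?_⟩⟩
  have h1 : FLD2_F p ν m = Classical.choose
      (FLD2_step ⟨hm, h⟩ (FLD2_F p ν (m - 1)) (FLD2_F p ν (ui ν m))) := by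
    rw [FLD2_F, dif_pos ⟨hm, h⟩]
  obtain ⟨f, g, Ψ, h2, h3⟩ := Classical.choose_spec
    (FLD2_step ⟨hm, h⟩ (FLD2_F p ν (m - 1)) (FLD2_F p ν (ui ν m)))
  refine ⟨f, g, Ψ, h2, fun y => ?_⟩
  show (FLD2_F p ν m).1 y = _
  rw [h1]
  exact h3 y

end Pool.Agent.B2g
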