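import Pool.Agent.B2g.NumB

/-! Module NUMG (MP_491344_nt, text MP_491344_nt_b2g_helper7.md). -/

namespace Pool.Agent.B2g

theorem NUMG_sub_ge {ν D : ℕ} (h : st ν 0 ≤ D) : sl ν (bi ν D) ≤ D - Bl ν (bi ν D) := by
  have h1 := (bi_spec h).1
  unfold st at h1
  omega

theorem NUMG_le_bi {ν D m : ℕ} (h : st ν m ≤ D) : m ≤ bi ν D := by
  have h1 : bi ν (st ν m) = m := bi_eq le_rfl (st_strictMono ν (Nat.lt_succ_self m))
  have h2 := bi_mono ν h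
  rw [h1] at h2
  exact h2

theorem NUMG_st0_le {ν D m : ℕ} (h : st ν m ≤ D) : st ν 0 ≤ D :=
  le_trans ((st_strictMono ν).monotone (Nat.zero_le m)) h

/-- the exponent drops by at most `2 ν + 2` in one step -/
theorem NUMG_step {ν D : ℕ} (hν : 1 ≤ ν) (h : st ν 0 ≤ D)
    (h1 : st ν 0 ≤ D - Bl ν (bi ν D)) :
    bi ν D / 2 ^ ν ≤ bi ν (D - Bl ν (bi ν D)) / 2 ^ ν + (2 * ν + 2) := by
  set D1 := D - Bl ν (bi ν D) with hD1
  by_contra hcon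
  push Not at hcon
  have h2 : sl ν (bi ν D) ≤ D1 := NUMG_sub_ge h
  have h3 : D1 < 2 * Bl ν (bi ν D1) := lt_two_mul_Bl_bi hν h1
  have h4 : Bl ν (bi ν D1) < 2 * 2 ^ ν * Un ν (bi ν D1) := Bl_upper ν _
  have h5 : D1 < 2 ^ (ν + 2 + bi ν D1 / 2 ^ ν) := by
    have e : 2 * (2 * 2 ^ ν * Un ν (bi ν D1)) = 2 ^ (ν + 2 + bi ν D1 / 2 ^ ν) := by
      unfold Un
      rw [pow_add, pow_add]
      ring
    omega
  have h6 : 2 ^ (ν + 2 + bi ν D1 / 2 ^ ν) ≤ sl ν (bi ν D) := by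
    unfold sl Un
    rw [Nat.le_div_iff_mul_le (by positivity)]
    have e : 2 ^ (ν + 2 + bi ν D1 / 2 ^ ν) * (2 * 2 ^ ν) =
        2 ^ (ν + 2 + bi ν D1 / 2 ^ ν + (ν + 1)) := by
      rw [pow_add _ _ (ν + 1), pow_succ]
      ring
    rw [e]
    exact Nat.pow_le_pow_right (by norm_num) (by omega)
  omega

theorem NUMG_used {ν : ℕ} (hν : 1 ≤ ν) (j : ℕ) : ∀ D k, k ∈ used ν j D →
    bi ν D / 2 ^ ν ≤ k / 2 ^ ν + j * (2 * ν + 2) := by
  induction j with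
  | zero =>
    intro D k hk
    simp [used] at hk
  | succ j ih =>
    intro D k hk
    have h0 := st_le_of_mem_used hk
    rw [used, if_neg (not_lt.2 h0), Finset.mem_insert] at hk
    rcases hk with rfl | hk
    · exact Nat.le_add_right _ _
    · have h1 := ih _ _ hk
      have h2 := NUMG_step hν h0 (st_le_of_mem_used hk)
      rw [Nat.succ_mul]
      omega

/-- Module NUMG (lower bound for the used blocks).  `Bl (bi D) ≥ D/2` and the remainder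
`D - Bl (bi D) ≥ sl (bi D) ≥ Un/(4n) - ... ≥ D / (16 n²)` once `D` is large; after at most `J` steps
all remainders are at least `D/(16 n²)^J`, so for `D ≥ D₀` every used block `k` has
`Bl k ≥ D/(2 (16 n²)^J)`, in particular `k ≥ m0`; and for `D' ≤ 4 D`: `Bl (bi D') ≤ 4 D ≤
8 (16 n²)^J Bl k`, so `2^(o(bi D')) n ≤ 8 (16n²)^J 2 n 2^(o(k))`,
`o(bi D') ≤ o(k) + 4 + J (2ν+4)`, `bi D' < n (o(k) + 5 + J(2ν+4)) ≤ k + n(5 + J(2ν+4))`. -/
theorem used_large (ν J : ℕ) (hν : 3 ≤ ν) : ∃ D0, ∀ D, D0 ≤ D → st ν 0 ≤ D ∧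
    ∀ k ∈ used ν J D, m0 ν ≤ k ∧ ∀ D' ≤ 4 * D, bi ν D' < k + 2 ^ ν * (5 + J * (2 * ν + 4)) := by
  have hn : 0 < 2 ^ ν := by positivity
  refine ⟨st ν (2 ^ ν * (J * (2 * ν + 2) + (2 * ν + 8))), fun D hD => ⟨NUMG_st0_le hD,
    fun k hk => ?_⟩⟩
  have h0 : st ν 0 ≤ D := NUMG_st0_le hD
  have h1 := NUMG_used (by omega : 1 ≤ ν) J D k hk
  have h2 := NUMG_le_bi hD
  have h3 : J * (2 * ν + 2) + (2 * ν + 8) ≤ bi ν D / 2 ^ ν := by
    rw [Nat.le_div_iff_mul_le hn, mul_comm]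
    exact h2
  constructor
  · unfold m0
    have h4 : 2 * ν + 8 ≤ k / 2 ^ ν := by omega
    calc 2 ^ ν * (2 * ν + 8) ≤ 2 ^ ν * (k / 2 ^ ν) := Nat.mul_le_mul_left _ h4
      _ ≤ k := Nat.mul_div_le k _
  · intro D' hD'
    have h4D : st ν 0 ≤ 4 * D := by omega
    have h5 : bi ν D' ≤ bi ν (4 * D) := bi_mono ν hD'
    -- compare `4 D` and `D`
    have h6 : bi ν (4 * D) / 2 ^ ν ≤ bi ν D / 2 ^ ν + 3 := by
      by_contra hcon
      push Not at hcon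
      have h7 : 2 ^ ν * Un ν (bi ν (4 * D)) ≤ 4 * D :=
        le_trans (Bl_lower ν _) (Bl_bi_le h4D)
      have h8 : D < 2 * Bl ν (bi ν D) := lt_two_mul_Bl_bi (by omega) h0
      have h9 : Bl ν (bi ν D) < 2 * 2 ^ ν * Un ν (bi ν D) := Bl_upper ν _
      have h10 : 2 ^ ν * Un ν (bi ν (4 * D)) < 2 ^ ν * (16 * Un ν (bi ν D)) := by
        have e : 4 * (2 * (2 * 2 ^ ν * Un ν (bi ν D))) = 2 ^ ν * (16 * Un ν (bi ν D)) := by ring
        omega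
      have h11 := Nat.lt_of_mul_lt_mul_left h10
      unfold Un at h11
      have e : 16 * 2 ^ (bi ν D / 2 ^ ν) = 2 ^ (bi ν D / 2 ^ ν + 4) := by
        rw [pow_add]; ring
      rw [e] at h11
      have h12 := (Nat.pow_lt_pow_iff_right (by norm_num : 1 < 2)).1 h11
      omega
    have h7 : bi ν D' / 2 ^ ν ≤ bi ν (4 * D) / 2 ^ ν := Nat.div_le_div_right h5
    have h8 : bi ν D' < 2 ^ ν * (bi ν D' / 2 ^ ν + 1) := Nat.lt_mul_div_succ _ hn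
    have h9 : bi ν D' / 2 ^ ν + 1 ≤ k / 2 ^ ν + (5 + J * (2 * ν + 4)) := by
      have : J * (2 * ν + 2) ≤ J * (2 * ν + 4) := Nat.mul_le_mul_left _ (by omega)
      omega
    calc bi ν D' < 2 ^ ν * (bi ν D' / 2 ^ ν + 1) := h8
      _ ≤ 2 ^ ν * (k / 2 ^ ν + (5 + J * (2 * ν + 4))) := Nat.mul_le_mul_left _ h9
      _ = 2 ^ ν * (k / 2 ^ ν) + 2 ^ ν * (5 + J * (2 * ν + 4)) := by ring
      _ ≤ k + 2 ^ ν * (5 + J * (2 * ν + 4)) := Nat.add_le_add_right (Nat.mul_div_le k _) _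

end Pool.Agent.B2g
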