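import Pool.Agent.B2g.MainR
import Pool.Agent.B2g.Eta
import Pool.Agent.B2g.Fld2
import Pool.Agent.B2g.Diff
import Pool.Agent.B2g.NumG

/-! Module FAM (MP_491344_nt, text MP_491344_nt_b2g_helper7.md). -/

namespace Pool.Agent.B2g

variable {p ν : ℕ} [Fact p.Prime]

/-- the constant -/
def RR (ν J : ℕ) : ℕ := 2 ^ J * (2 ^ (8 * 2 ^ ν) * 2 ^ (2 * r0 ν))

/-- Module FAM (assembly).  `𝒜 D = A η Φ J D` with `η` from `exists_eta`, `Φ` from `exists_flds`.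
(1) `supp_A`; (2) `ncard_A`, `len_lower`; (3) `main_rec` with `used_large`
(`p > 2 ^ ν (5 + J (2ν+4))`, `D' ≤ 4 D`); (4) `diff_bound` with
`D' - Bl (bi D') < 2 Un ≤ 2 D' / 2^ν ≤ D'/4` and `M ≤ D'/2 ≤ Bl (bi D')`. -/
theorem family (hν : 3 ≤ ν) {J : ℕ} (hp : 2 ^ (40 * 4 ^ ν) ≤ p) (hJ : (J + 1) ^ 2 ≤ p)
    (hp2 : 2 ^ ν * (5 + J * (2 * ν + 4)) ≤ p) :
    ∃ (𝒜 : ℕ → Set (V p)) (D0 : ℕ),
      (∀ D, ∀ a ∈ 𝒜 D, ∀ i, D ≤ i → a i = 0) ∧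
      (∀ D, D0 ≤ D → (𝒜 D).Finite ∧
        ∃ l, (𝒜 D).ncard = p ^ l ∧ l ≤ D ∧ (D - l) * (2 ^ ν) ^ J ≤ 2 ^ J * D) ∧
      (∀ D D', D0 ≤ D → D ≤ D' → D' ≤ 4 * D → Cross (𝒜 D) (𝒜 D') (RR ν J)) ∧
      (∀ D', D0 ≤ D' → ∀ M, 2 * M ≤ D' → ∀ d : V p, d ≠ 0 → (∀ i, M ≤ i → d i = 0) →
        {b | b ∈ 𝒜 D' ∧ b - d ∈ 𝒜 D'}.encard ≤ ((p ^ (D' / 4) : ℕ) : ℕ∞)) := by
  obtain ⟨Φ⟩ := exists_flds p ν (by omega)
  obtain ⟨η, hη, hgood⟩ := exists_eta hν hp hJ Φ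
  have S : Setup Φ η J := ⟨hν, hp, hη, hgood⟩
  obtain ⟨D1, h1⟩ := used_large ν J hν
  obtain ⟨D2, h2⟩ := len_lower ν J hν
  have hppos : 0 < p := (Fact.out : p.Prime).pos
  refine ⟨fun D => A η Φ J D, max D1 D2, ?_, ?_, ?_, ?_⟩
  · intro D a ha
    exact supp_A hη ha
  · intro D hD
    refine ⟨(ncard_A hη J D).1, len ν J D, (ncard_A hη J D).2, len_le ν J D, ?_⟩
    exact h2 D ((le_max_right _ _).trans hD)
  · intro D D' hD hDD hD'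
    have hyp : Hyp p ν (m0 ν) J D D' := by
      intro k hk
      obtain ⟨h3, h4⟩ := (h1 D ((le_max_left _ _).trans hD)).2 k hk
      refine ⟨h3, ?_⟩
      have := h4 D' hD'
      omega
    have := main_rec S D' J J D le_rfl le_rfl hDD hyp
    rw [min_self] at this
    exact this
  · intro D' hD' M hM d hd hdM
    have h0 : st ν 0 ≤ D' := (h1 D' ((le_max_left _ _).trans hD')).1
    have h3 := lt_two_mul_Bl_bi (ν := ν) (D := D') (by omega) h0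
    have h4 := diff_bound (Φ := Φ) (η := η) S.p_ne_two hη (j := J) (D := D') (M := M) h0
      (by omega) hd hdM
    refine h4.trans ?_
    have h5 := lt_Bl_bi_add (ν := ν) (D := D') h0
    have h6 := Bl_lower ν (bi ν D')
    have h7 := Bl_bi_le (ν := ν) (D := D') h0
    have h8 : 8 ≤ 2 ^ ν := by
      calc 8 = 2 ^ 3 := by norm_num
        _ ≤ 2 ^ ν := Nat.pow_le_pow_right (by norm_num) hν
    have h9 : 8 * Un ν (bi ν D') ≤ D' :=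
      (Nat.mul_le_mul_right _ h8).trans (h6.trans h7)
    have h10 : D' - Bl ν (bi ν D') ≤ D' / 4 := by omega
    exact_mod_cast Nat.pow_le_pow_right hppos h10

end Pool.Agent.B2g
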