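import Pool.Agent.B2g.Defs

/-! Module FARC (MP_491344_nt, text MP_491344_nt_b2g_helper7.md). -/

namespace Pool.Agent.B2g

theorem FARC_surj {F W Y : Type*} [Field F] [AddCommGroup W] [Module F W] [AddCommGroup Y]
    [Module F Y] {r : ℕ} {s : Fin r → W} (hs : LinearIndependent F s) (y : Fin r → Y) :
    ∃ L : W →ₗ[F] Y, ∀ i, L (s i) = y i := by
  have hinj : LinearMap.ker (Finsupp.linearCombination F s) = ⊥ := by
    rw [LinearMap.ker_eq_bot]; exact hs
  obtain ⟨g, hg⟩ := LinearMap.exists_leftInverse_of_injective _ hinj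
  refine ⟨(Finsupp.linearCombination F y).comp g, fun i => ?_⟩
  have h1 : g (s i) = Finsupp.single i 1 := by
    have := LinearMap.congr_fun hg (Finsupp.single i 1)
    simpa using this
  simp [h1]

/-- Module FARC (counting of linear maps).  For `t` and linearly independent `s : Fin r → W` with
values in `P t`: the map `L ↦ (L (s i))ᵢ`, `(W →ₗ Y) → (Fin r → Y)` is surjective and additive, so
each fibre has `card (W →ₗ Y) / (card Y)^r` elements, and the number of `L` with
`L (s i) ∈ Z t (s i)` for all `i` is at most `q^r card (W →ₗ Y) / (card Y)^r`.  Sum over the at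
most `card T * M^r` pairs `(t, s)`. -/
theorem count_lin {F W Y T : Type*} [Field F] [AddCommGroup W] [Module F W] [AddCommGroup Y]
    [Module F Y] [Finite F] [Finite W] [Finite Y] [Finite T] (P : T → Set W)
    (Z : T → W → Set Y) {M q r : ℕ} (hP : ∀ t, (P t).ncard ≤ M)
    (hZ : ∀ t, ∀ w ∈ P t, (Z t w).ncard ≤ q)
    (hlt : Nat.card T * (M * q) ^ r < Nat.card Y ^ r) :
    ∃ L : W →ₗ[F] Y, ∀ t, ∀ s : Fin r → W, (∀ i, s i ∈ P t ∧ L (s i) ∈ Z t (s i)) →
      ¬ LinearIndependent F s := by
  classical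
  by_contra hcon
  push Not at hcon
  choose tt ss hmem hind using hcon
  have hσ0 : ∀ (s : Fin r → W) (y : Fin r → Y), ∃ L : W →ₗ[F] Y,
      LinearIndependent F s → ∀ i, L (s i) = y i := by
    intro s y
    by_cases hs : LinearIndependent F s
    · obtain ⟨L, hL⟩ := FARC_surj hs y
      exact ⟨L, fun _ => hL⟩
    · exact ⟨0, fun h => absurd h hs⟩
  choose σ hσ using hσ0
  haveI : Finite (W →ₗ[F] Y) := Finite.of_injective (fun L => (L : W → Y)) DFunLike.coe_injective
  haveI : Fintype T := Fintype.ofFinite T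
  -- the injection
  let Φ : (W →ₗ[F] Y) × (Fin r → Y) →
      (Σ t : T, (Fin r → Σ w : P t, Z t (w : W))) × (W →ₗ[F] Y) := fun x =>
    (⟨tt x.1, fun i => ⟨⟨ss x.1 i, (hmem x.1 i).1⟩, ⟨x.1 (ss x.1 i), (hmem x.1 i).2⟩⟩⟩,
      x.1 - σ (ss x.1) (fun i => x.1 (ss x.1 i)) + σ (ss x.1) x.2)
  let g : (Σ t : T, (Fin r → Σ w : P t, Z t (w : W))) → (Fin r → W × Y) := fun x i =>
    (((x.2 i).1 : W), ((x.2 i).2 : Y))
  have hinj : Function.Injective Φ := by
    rintro ⟨L1, y1⟩ ⟨L2, y2⟩ h
    have h1 : ∀ i, ss L1 i = ss L2 i ∧ L1 (ss L1 i) = L2 (ss L2 i) := by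
      intro i
      have := congrFun (congrArg (fun x => g x.1) h) i
      simpa [Φ, g] using this
    have hs : ss L1 = ss L2 := funext fun i => (h1 i).1
    have hL : (fun i => L1 (ss L1 i)) = fun i => L2 (ss L2 i) := funext fun i => (h1 i).2
    have h2 : L1 - σ (ss L1) (fun i => L1 (ss L1 i)) + σ (ss L1) y1 =
        L2 - σ (ss L2) (fun i => L2 (ss L2 i)) + σ (ss L2) y2 := congrArg (fun x => x.2) h
    have hy : y1 = y2 := by
      funext i
      have h3 := LinearMap.congr_fun h2 (ss L1 i)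
      simp only [LinearMap.add_apply, LinearMap.sub_apply] at h3
      rw [hσ (ss L1) _ (hind L1) i, hσ (ss L1) _ (hind L1) i] at h3
      rw [hs] at h3
      rw [hσ (ss L2) _ (hind L2) i, hσ (ss L2) _ (hind L2) i] at h3
      simpa using h3
    subst hy
    have h4 : L1 = L2 := by
      rw [hL, hs] at h2
      have h5 := congrArg (fun x => x - σ (ss L2) y1 +
        σ (ss L2) (fun i => L2 (ss L2 i))) h2
      simpa using h5
    rw [h4]
  have hcard := Nat.card_le_card_of_injective Φ hinj
  rw [Nat.card_prod, Nat.card_prod, Nat.card_fun, Nat.card_fin] at hcard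
  have hpos : 0 < Nat.card (W →ₗ[F] Y) := Nat.card_pos
  have hsum : ∀ t, Nat.card (Σ w : P t, Z t (w : W)) ≤ M * q := by
    intro t
    haveI : Fintype (P t) := Fintype.ofFinite _
    rw [Nat.card_sigma]
    calc ∑ w : P t, Nat.card (Z t (w : W)) ≤ ∑ w : P t, q := by
          apply Finset.sum_le_sum
          intro w _
          have := hZ t w w.2
          rwa [← Nat.card_coe_set_eq] at this
      _ = Nat.card (P t) * q := by
          rw [Finset.sum_const, Finset.card_univ, smul_eq_mul, Nat.card_eq_fintype_card]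
      _ ≤ M * q := by
          apply Nat.mul_le_mul_right
          have := hP t
          rwa [← Nat.card_coe_set_eq] at this
  have hT : Nat.card (Σ t : T, (Fin r → Σ w : P t, Z t (w : W))) ≤ Nat.card T * (M * q) ^ r := by
    rw [Nat.card_sigma]
    calc ∑ t : T, Nat.card (Fin r → Σ w : P t, Z t (w : W)) ≤ ∑ t : T, (M * q) ^ r := by
          apply Finset.sum_le_sum
          intro t _
          rw [Nat.card_fun, Nat.card_fin]
          exact Nat.pow_le_pow_left (hsum t) r
      _ = Nat.card T * (M * q) ^ r := by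
          rw [Finset.sum_const, Finset.card_univ, smul_eq_mul, Nat.card_eq_fintype_card]
  have h6 : Nat.card (W →ₗ[F] Y) * Nat.card Y ^ r ≤
      Nat.card (W →ₗ[F] Y) * (Nat.card T * (M * q) ^ r) := by
    calc _ ≤ _ := hcard
      _ ≤ (Nat.card T * (M * q) ^ r) * Nat.card (W →ₗ[F] Y) := Nat.mul_le_mul_right _ hT
      _ = _ := by ring
  have h7 := Nat.le_of_mul_le_mul_left h6 hpos
  omega

end Pool.Agent.B2g
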