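import Pool.Agent.B2g.NumC

/-! Module FARN (MP_491344_nt, text MP_491344_nt_b2g_helper7.md). -/

namespace Pool.Agent.B2g

/-- Module FARN (numbers).  `n = 2 ^ ν`, `s = sl m`, `2 n s = Un m`, `Bl m < 4 n² s`.
Let `X = 6 n² s`, `b = Bl m`.  `(2^(2b) p^(s/4) (2p)^s) ≤ 2^(8n²s + s) p^(s + s/4)`,
`Nat.card T = (J+1)^2 (X+1)^2 p^(2X)`, exponent `r0 = 26 n²`.
Claim: `(J+1)^2 (X+1)^2 p^(2X) (2^(2b) p^(s/4) (2p)^s)^r0 < p^(2 s r0)`.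
`2 s r0 - (s + s/4) r0 - 12 n² s = 19.5 n² s - 12 n² s = 7.5 n² s` (`4 ∣ s`), and
`2^((8n²+1) s 26 n²) ≤ 2^(280 n⁴ s) ≤ p^(7 n² s)`, `(J+1)^2 (X+1)^2 < p^(n² s / 2)` because
`(J+1)^2 ≤ p`, `(6 n² s + 1)^2 ≤ 2^(2 (6 n² s))≤ ..`. -/
theorem far_num {ν J m p : ℕ} (hν : 3 ≤ ν) (hm : m0 ν ≤ m) (hp : 2 ^ (40 * 4 ^ ν) ≤ p)
    (hJ : (J + 1) ^ 2 ≤ p) :
    ((J + 1) ^ 2 * (6 * 4 ^ ν * sl ν m + 1) ^ 2 * p ^ (2 * (6 * 4 ^ ν * sl ν m))) *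
      (2 ^ (2 * Bl ν m) * (p ^ (sl ν m / 4) * (2 * p) ^ sl ν m)) ^ r0 ν <
    (p ^ (2 * sl ν m)) ^ r0 ν := by
  obtain ⟨l, hl, hl2, hUn⟩ := sl_pow hm
  obtain ⟨t, ht, ht1⟩ : ∃ t : ℕ, sl ν m = 4 * t ∧ 1 ≤ t := by
    refine ⟨2 ^ (l - 2), ?_, Nat.one_le_two_pow⟩
    rw [hl]
    have : l = (l - 2) + 2 := by omega
    conv_lhs => rw [this]
    rw [pow_add]
    ring
  obtain ⟨N, hN⟩ : ∃ N : ℕ, N = 4 ^ ν := ⟨_, rfl⟩
  have hN64 : 64 ≤ N := by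
    rw [hN]
    calc 64 = 4 ^ 3 := by norm_num
      _ ≤ 4 ^ ν := Nat.pow_le_pow_right (by norm_num) hν
  have hNn : N = 2 ^ ν * 2 ^ ν := by
    rw [hN, ← Nat.mul_pow]
  have hb : Bl ν m ≤ 16 * N * t := by
    have h1 := Bl_upper ν m
    have h2 : 2 * 2 ^ ν * Un ν m = 16 * N * t := by
      rw [← hUn, ht, hNn]
      ring
    omega
  have hp2 : 2 ≤ p := by
    refine le_trans ?_ hp
    calc 2 = 2 ^ 1 := by norm_num
      _ ≤ 2 ^ (40 * 4 ^ ν) := Nat.pow_le_pow_right (by norm_num) (by rw [← hN]; omega)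
  have key : ∀ k e : ℕ, e ≤ 40 * N * k → 2 ^ e ≤ p ^ k := by
    intro k e he
    calc 2 ^ e ≤ 2 ^ (40 * N * k) := Nat.pow_le_pow_right (by norm_num) he
      _ = (2 ^ (40 * N)) ^ k := by rw [pow_mul]
      _ ≤ p ^ k := Nat.pow_le_pow_left (by rw [hN]; exact hp) k
  have hr0 : r0 ν = 26 * N := by rw [r0, hN]
  rw [hr0, ht, ← hN]
  have hs4 : 4 * t / 4 = t := Nat.mul_div_cancel_left t (by norm_num)
  rw [hs4]
  -- the factors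
  have f1 : (J + 1) ^ 2 ≤ p ^ 1 := by rw [pow_one]; exact hJ
  have f2 : (6 * N * (4 * t) + 1) ^ 2 ≤ p ^ (2 * t) := by
    have h1 : 6 * N * (4 * t) + 1 ≤ 2 ^ (6 * N * (4 * t)) := Nat.lt_two_pow_self
    calc (6 * N * (4 * t) + 1) ^ 2 ≤ (2 ^ (6 * N * (4 * t))) ^ 2 := Nat.pow_le_pow_left h1 2
      _ = 2 ^ (48 * (N * t)) := by rw [← pow_mul]; ring_nf
      _ ≤ p ^ (2 * t) := by
          refine key _ _ ?_
          calc 48 * (N * t) ≤ 80 * (N * t) := by omega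
            _ = 40 * N * (2 * t) := by ring
  have f3 : (2 ^ (2 * Bl ν m)) ^ (26 * N) ≤ p ^ (21 * (N * t)) := by
    rw [← pow_mul]
    refine key _ _ ?_
    calc 2 * Bl ν m * (26 * N) ≤ 2 * (16 * N * t) * (26 * N) := by gcongr
      _ = 832 * (N * N * t) := by ring
      _ ≤ 840 * (N * N * t) := by omega
      _ = 40 * N * (21 * (N * t)) := by ring
  have f4 : (p ^ t) ^ (26 * N) = p ^ (26 * (N * t)) := by rw [← pow_mul]; ring_nf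
  have f5 : ((2 * p) ^ (4 * t)) ^ (26 * N) ≤ p ^ (3 * t + 104 * (N * t)) := by
    rw [← pow_mul, mul_pow, pow_add]
    refine Nat.mul_le_mul ?_ (le_of_eq (by ring_nf))
    refine key _ _ ?_
    calc 4 * t * (26 * N) = 104 * (N * t) := by ring
      _ ≤ 120 * (N * t) := by omega
      _ = 40 * N * (3 * t) := by ring
  have f6 : p ^ (2 * (6 * N * (4 * t))) = p ^ (48 * (N * t)) := by ring_nf
  calc ((J + 1) ^ 2 * (6 * N * (4 * t) + 1) ^ 2 * p ^ (2 * (6 * N * (4 * t)))) *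
      (2 ^ (2 * Bl ν m) * (p ^ t * (2 * p) ^ (4 * t))) ^ (26 * N)
      = ((J + 1) ^ 2 * (6 * N * (4 * t) + 1) ^ 2 * p ^ (2 * (6 * N * (4 * t)))) *
      ((2 ^ (2 * Bl ν m)) ^ (26 * N) * ((p ^ t) ^ (26 * N) * ((2 * p) ^ (4 * t)) ^ (26 * N))) := by
        rw [mul_pow, mul_pow]
    _ ≤ (p ^ 1 * p ^ (2 * t) * p ^ (48 * (N * t))) *
      (p ^ (21 * (N * t)) * (p ^ (26 * (N * t)) * p ^ (3 * t + 104 * (N * t)))) := by
        rw [f4, f6]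
        gcongr
    _ = p ^ (1 + 5 * t + 199 * (N * t)) := by
        rw [← pow_add, ← pow_add, ← pow_add, ← pow_add, ← pow_add]
        congr 1
        ring
    _ < p ^ (208 * (N * t)) := by
        refine Nat.pow_lt_pow_right hp2 ?_
        have : 64 * t ≤ N * t := Nat.mul_le_mul_right t hN64
        omega
    _ = (p ^ (2 * (4 * t))) ^ (26 * N) := by rw [← pow_mul]; congr 1; ring

/-- Module FARN. -/
theorem scale_le {ν m D' : ℕ} (hν : 3 ≤ ν) (hm : m0 ν ≤ m) (h0 : st ν 0 ≤ D')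
    (h : bi ν D' = m) : D' ≤ 6 * 4 ^ ν * sl ν m ∧ Bl ν m + sl ν m / 4 ≤ 6 * 4 ^ ν * sl ν m := by
  obtain ⟨l, hl, hl2, hUn⟩ := sl_pow hm
  have h1 := Bl_upper ν m
  have h2 := lt_Bl_bi_add h0
  rw [h] at h2
  have hn : 8 ≤ 2 ^ ν := by
    calc 8 = 2 ^ 3 := by norm_num
      _ ≤ 2 ^ ν := Nat.pow_le_pow_right (by norm_num) hν
  have h4 : 4 ^ ν = 2 ^ ν * 2 ^ ν := by
    rw [← Nat.mul_pow]
  rw [h4]
  obtain ⟨n, hn'⟩ : ∃ n : ℕ, n = 2 ^ ν := ⟨_, rfl⟩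
  obtain ⟨s, hs'⟩ : ∃ s : ℕ, s = sl ν m := ⟨_, rfl⟩
  rw [← hn', ← hs'] at hUn
  rw [← hn'] at h1 hn ⊢
  rw [← hs']
  rw [← hUn] at h1 h2
  have h5 : 8 * (n * s) ≤ n * (n * s) := Nat.mul_le_mul_right _ hn
  have h6 : s ≤ n * s := Nat.le_mul_of_pos_left _ (by omega)
  have e1 : 2 * n * (2 * n * s) = 4 * (n * (n * s)) := by ring
  have e2 : 2 * (2 * n * s) = 4 * (n * s) := by ring
  have e3 : 6 * (n * n) * s = 6 * (n * (n * s)) := by ring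
  rw [e1] at h1
  rw [e2] at h2
  rw [e3]
  constructor
  · omega
  · have : s / 4 ≤ s := Nat.div_le_self _ _
    omega

end Pool.Agent.B2g
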