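import Pool.Agent.B2g.NumC

/-! Module NUME (MP_491344_nt, text MP_491344_nt_b2g_helper7.md). -/

namespace Pool.Agent.B2g

/-- Module NUME: if `D ≤ B` then all blocks are inside `[0,B)`. Induction on `j`:
`Bl (bi D) ≤ D ≤ B` and `D - Bl ≤ B - Bl`. -/
theorem spl_of_le {ν : ℕ} (j D B : ℕ) (h : D ≤ B) : Spl ν j D B := by
  induction j generalizing D B with
  | zero => trivial
  | succ j ih =>
    by_cases h0 : D < st ν 0
    · exact Or.inl h0
    · have h1 := Bl_bi_le (not_lt.1 h0)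
      exact Or.inr ⟨h1.trans h, Or.inr (ih _ _ (by omega))⟩

/-- Module NUME: `x = 2 ^ l`, `0 < e < x / n` (that is `e * n < x`): `Spl j (x+e) x`.
Strong induction on `l` (for all `j`).  `j = 0` or `x + e < st 0`: clear.
`e ≥ 1` gives `x > n`, `x = Bl k`, `k = n (l - ν)`, `Un k = 2^(l-ν) = x/n`, `sl k = x/n/(2n)`.
If `e ≥ sl k` then `st k ≤ x + e < x + x/n = Bl (k+1) ≤ st (k+1)`, so `bi (x+e) = k` and
`B = Bl k`.  If `e < sl k` then `x ≥ 2 n²`, `k ≥ 1`, `Bl (k-1) = x - x/(2n)`,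
`st (k-1) ≤ x ≤ x+e < st k`, `bi (x+e) = k-1`, and the remainders are `x/(2n) + e` and `x/(2n)`,
`e n < x/(2n)` because `e < sl k = x/(2n²)`: induction. -/
theorem spl_pow {ν : ℕ} (j l e : ℕ) (he : 0 < e) (h : e * 2 ^ ν < 2 ^ l) :
    Spl ν j (2 ^ l + e) (2 ^ l) := by
  induction l using Nat.strong_induction_on generalizing j with
  | _ l ih =>
    cases j with
    | zero => trivial
    | succ j =>
      have hνl : ν < l := by
        have h1 : 2 ^ ν ≤ e * 2 ^ ν := Nat.le_mul_of_pos_left _ he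
        exact (Nat.pow_lt_pow_iff_right (by norm_num)).1 (lt_of_le_of_lt h1 h)
      have hBl : Bl ν (2 ^ ν * (l - ν)) = 2 ^ l := by
        rw [NUMC_Bl]
        congr 1
        omega
      have hUn : Un ν (2 ^ ν * (l - ν)) = 2 ^ (l - ν) := NUMC_Un ν _
      have hl : 2 ^ l = 2 ^ (l - ν) * 2 ^ ν := by
        rw [← pow_add]
        congr 1
        omega
      have he' : e < 2 ^ (l - ν) := by
        rw [hl] at h
        exact Nat.lt_of_mul_lt_mul_right h
      have hB1 : Bl ν (2 ^ ν * (l - ν) + 1) = Bl ν (2 ^ ν * (l - ν)) + Un ν (2 ^ ν * (l - ν)) :=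
        Bl_succ ν _
      have hs0 : st ν (2 ^ ν * (l - ν)) = Bl ν (2 ^ ν * (l - ν)) + sl ν (2 ^ ν * (l - ν)) := rfl
      have hs1 : st ν (2 ^ ν * (l - ν) + 1) =
        Bl ν (2 ^ ν * (l - ν) + 1) + sl ν (2 ^ ν * (l - ν) + 1) := rfl
      by_cases hc : sl ν (2 ^ ν * (l - ν)) ≤ e
      · have hbi : bi ν (2 ^ l + e) = 2 ^ ν * (l - ν) := bi_eq (by omega) (by omega)
        refine Or.inr ⟨?_, Or.inl ?_⟩
        · rw [hbi, hBl]
        · rw [hbi, hBl]
      · have hν2 : ν + 1 ≤ l - ν := by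
          by_contra h1
          have h2 : sl ν (2 ^ ν * (l - ν)) = 0 := by
            unfold sl
            rw [hUn, show 2 * 2 ^ ν = 2 ^ (ν + 1) by ring]
            exact Nat.div_eq_of_lt (Nat.pow_lt_pow_right (by norm_num) (by omega))
          omega
        have hsl : sl ν (2 ^ ν * (l - ν)) = 2 ^ (l - ν - ν - 1) := by
          rw [NUMC_sl ν _ (by rw [NUMC_mul_div]; exact hν2), NUMC_mul_div]
        have hk : 1 ≤ 2 ^ ν * (l - ν) := Nat.mul_pos (by positivity) (by omega)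
        have hk' : 2 ^ ν * (l - ν) - 1 + 1 = 2 ^ ν * (l - ν) := by omega
        have hdiv : (2 ^ ν * (l - ν) - 1) / 2 ^ ν = l - ν - 1 := by
          apply Nat.div_eq_of_lt_le
          · have h1 : 2 ^ ν * (l - ν) = (l - ν - 1) * 2 ^ ν + 2 ^ ν := by
              obtain ⟨a, ha⟩ : ∃ a, l - ν = a + 1 := ⟨l - ν - 1, by omega⟩
              rw [ha, Nat.add_sub_cancel]
              ring
            have h2 : 0 < 2 ^ ν := by positivity
            omega
          · have h1 : (l - ν - 1 + 1) * 2 ^ ν = 2 ^ ν * (l - ν) := by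
              rw [Nat.sub_add_cancel (by omega), mul_comm]
            rw [h1]
            omega
        have hUn' : Un ν (2 ^ ν * (l - ν) - 1) = 2 ^ (l - ν - 1) := by
          unfold Un
          rw [hdiv]
        have hB2 : Bl ν (2 ^ ν * (l - ν)) = Bl ν (2 ^ ν * (l - ν) - 1) + 2 ^ (l - ν - 1) := by
          have := Bl_succ ν (2 ^ ν * (l - ν) - 1)
          rwa [hk', hUn'] at this
        have hst1 : st ν (2 ^ ν * (l - ν) - 1) ≤ Bl ν (2 ^ ν * (l - ν)) := by
          have := st_le_Bl_succ ν (2 ^ ν * (l - ν) - 1)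
          rwa [hk'] at this
        have hbi : bi ν (2 ^ l + e) = 2 ^ ν * (l - ν) - 1 :=
          bi_eq (by omega) (by rw [hk']; omega)
        refine Or.inr ⟨by rw [hbi]; omega, Or.inr ?_⟩
        have e1 : 2 ^ l + e - Bl ν (bi ν (2 ^ l + e)) = 2 ^ (l - ν - 1) + e := by
          rw [hbi]; omega
        have e2 : 2 ^ l - Bl ν (bi ν (2 ^ l + e)) = 2 ^ (l - ν - 1) := by
          rw [hbi]; omega
        rw [e1, e2]
        apply ih (l - ν - 1) (by omega)
        have h3 : e < 2 ^ (l - ν - ν - 1) := by omega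
        have h4 : e * 2 ^ ν < 2 ^ (l - ν - ν - 1) * 2 ^ ν :=
          Nat.mul_lt_mul_of_pos_right h3 (by positivity)
        have h5 : 2 ^ (l - ν - ν - 1) * 2 ^ ν = 2 ^ (l - ν - 1) := by
          rw [← pow_add]
          congr 1
          omega
        omega

/-- Module NUME: `m0 ≤ m`, `Bl m < D ≤ Bl m + sl m / 4`: `bi D = m-1`, and
`D - Bl (m-1) = u + e`, `Bl m - Bl (m-1) = u = 2^(o(m-1))`, `e n < u` : `spl_pow`. -/
theorem spl_far {ν m D : ℕ} (hν : 3 ≤ ν) (hm : m0 ν ≤ m) (j : ℕ)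
    (h : D ≤ Bl ν m + sl ν m / 4) : Spl ν j D (Bl ν m) := by
  by_cases hD : D ≤ Bl ν m
  · exact spl_of_le j D _ hD
  · cases j with
    | zero => trivial
    | succ j =>
      obtain ⟨q, hq, e1, e2, e3, e4, e5, e6⟩ := NUMC_est hν hm
      obtain ⟨hm1, hm2⟩ := le_div_of_m0 hm
      obtain ⟨k1, k2, k3⟩ := Bl_ui hm1 hm2
      have hm' : m - 1 + 1 = m := by omega
      have hst1 : st ν (m - 1) ≤ Bl ν m := by
        have := st_le_Bl_succ ν (m - 1)
        rwa [hm'] at this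
      have hstm : st ν m = Bl ν m + sl ν m := rfl
      have hbi : bi ν D = m - 1 := bi_eq (by omega) (by rw [hm']; omega)
      refine Or.inr ⟨by rw [hbi]; omega, Or.inr ?_⟩
      obtain ⟨e, he⟩ : ∃ e, D = Bl ν m + e := ⟨D - Bl ν m, by omega⟩
      have g1 : D - Bl ν (bi ν D) = 2 ^ ((m - 1) / 2 ^ ν) + e := by
        rw [hbi]; omega
      have g2 : Bl ν m - Bl ν (bi ν D) = 2 ^ ((m - 1) / 2 ^ ν) := by
        rw [hbi]; omega
      rw [g1, g2]
      apply spl_pow j _ e (by omega)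
      rw [← e6]
      apply Nat.mul_lt_mul_of_pos_right _ (by positivity)
      omega

end Pool.Agent.B2g
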