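import Pool.Agent.B2g.SetA
import Pool.Agent.B2g.NumE

/-! Module SPLIT (MP_491344_nt, text MP_491344_nt_b2g_helper7.md). -/

namespace Pool.Agent.B2g

variable {p ν : ℕ} [Fact p.Prime] {Φ : Flds p ν} {η : ℕ → (V p →ₗ[ZMod p] V p)}

/-- decomposition of `G m w` -/
private theorem SPLIT_dec (hη : ∀ m, ShOK ν m (η m)) (m : ℕ) (w : V p) :
    G ν η m w = G ν η m (tr p (Bl ν m) w) + sh p (Bl ν m) (tl p (Bl ν m) w) := by
  have h1 : G ν η m (sh p (Bl ν m) (tl p (Bl ν m) w)) = sh p (Bl ν m) (tl p (Bl ν m) w) := by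
    refine idOn_G hη m _ fun i hi => ?_
    simp [hi]
  conv_lhs => rw [← tr_add_sh_tl (Bl ν m) w]
  rw [map_add, h1]

private theorem SPLIT_tl_sh {m B : ℕ} (h : m ≤ B) (a : V p) :
    tl p B (sh p m a) = tl p (B - m) a := by
  funext i
  simp only [tl_apply, sh_apply]
  have h1 : ¬ (i + B < m) := by omega
  rw [if_neg h1]
  congr 1
  omega

/-- Module SPLIT.  Induction on `j` (for all `D, B`).  `j = 0` or `D < st 0`: `A = {0}`,
take `i = 0`, `c = 0`.  Otherwise `m = bi D`, `a = G m w`, `G m w = G m (tr w) + sh (tl w)`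
(`idOn_G`).  Given `ξ` there is at most one possible `tr w` (by `Uni.congr_inv`, as
`Bl m ≤ B`).  If `B = Bl m`: `tl B a = tl B (G m (tr w)) + tl w`, `i = j`, `c = tl B (G m (tr w))`.
If `B > Bl m` use the induction hypothesis for `tl (Bl m) w ∈ A j (D - Bl m)`, with `ξ'` determined
by `ξ`; `D - B = (D - Bl m) - (B - Bl m)`. -/
theorem spl_tail (hη : ∀ m, ShOK ν m (η m)) {j D B : ℕ} (h : Spl ν j D B) :
    ∃ i ≤ j, used ν i (D - B) ⊆ used ν j D ∧ ∀ ξ : V p, ∃ c : V p, ∀ a ∈ A η Φ j D,
      (∀ k < B, a k = ξ k) → tl p B a - c ∈ A η Φ i (D - B) := by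
  induction j generalizing D B with
  | zero =>
    refine ⟨0, le_rfl, by simp [used], fun ξ => ⟨0, fun a ha _ => ?_⟩⟩
    rw [A_zero] at ha ⊢
    rw [Set.mem_singleton_iff] at ha ⊢
    rw [ha]
    simp
  | succ j ih =>
    by_cases hD : D < st ν 0
    · refine ⟨0, Nat.zero_le _, by simp [used], fun ξ => ⟨0, fun a ha _ => ?_⟩⟩
      rw [A_small _ hD, Set.mem_singleton_iff] at ha
      rw [A_zero, Set.mem_singleton_iff, ha]
      simp
    · have hD' : st ν 0 ≤ D := Nat.le_of_not_lt hD
      rcases h with h | ⟨hB, h⟩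
      · exact absurd h hD
      have hused : used ν (j + 1) D = insert (bi ν D) (used ν j (D - Bl ν (bi ν D))) := by
        rw [used, if_neg hD]
      -- general form of the step
      have key : ∀ i : ℕ, (∀ ξ' : V p, ∃ c' : V p, ∀ a' ∈ A η Φ j (D - Bl ν (bi ν D)),
          (∀ k < B - Bl ν (bi ν D), a' k = ξ' k) →
            tl p (B - Bl ν (bi ν D)) a' - c' ∈ A η Φ i (D - B)) →
          ∀ ξ : V p, ∃ c : V p, ∀ a ∈ A η Φ (j + 1) D,
            (∀ k < B, a k = ξ k) → tl p B a - c ∈ A η Φ i (D - B) := by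
        intro i hi ξ
        by_cases hex : ∃ a0 ∈ A η Φ (j + 1) D, ∀ k < B, a0 k = ξ k
        · obtain ⟨a0, ha0, hξ0⟩ := hex
          obtain ⟨w0, -, -, hw0⟩ := (mem_A_succ hD').mp ha0
          obtain ⟨c', hc'⟩ := hi (tl p (Bl ν (bi ν D)) w0)
          refine ⟨tl p B (G ν η (bi ν D) (tr p (Bl ν (bi ν D)) w0)) + c', fun a ha hξ => ?_⟩
          obtain ⟨w, -, hwt, hw⟩ := (mem_A_succ hD').mp ha
          have hagree : ∀ k < B, w k = w0 k := by
            refine (uni_G hη (bi ν D)).congr_inv fun k hk => ?_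
            rw [← hw, ← hw0, hξ k hk, hξ0 k hk]
          have htr : tr p (Bl ν (bi ν D)) w = tr p (Bl ν (bi ν D)) w0 := by
            funext k
            simp only [tr_apply]
            by_cases hk : k < Bl ν (bi ν D)
            · rw [if_pos hk, if_pos hk, hagree k (lt_of_lt_of_le hk hB)]
            · rw [if_neg hk, if_neg hk]
          have hfin := hc' (tl p (Bl ν (bi ν D)) w) hwt (fun k hk => by
            simp only [tl_apply]
            exact hagree _ (by omega))
          have e1 : tl p B a = tl p B (G ν η (bi ν D) (tr p (Bl ν (bi ν D)) w0)) +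
              tl p (B - Bl ν (bi ν D)) (tl p (Bl ν (bi ν D)) w) := by
            rw [hw, SPLIT_dec hη, map_add, htr, SPLIT_tl_sh hB]
          have e2 : tl p B a - (tl p B (G ν η (bi ν D) (tr p (Bl ν (bi ν D)) w0)) + c') =
              tl p (B - Bl ν (bi ν D)) (tl p (Bl ν (bi ν D)) w) - c' := by
            rw [e1]; abel
          rw [e2]
          exact hfin
        · refine ⟨0, fun a ha hξ => ?_⟩
          exact absurd ⟨a, ha, hξ⟩ hex
      rcases h with h | h
      · refine ⟨j, Nat.le_succ j, ?_, ?_⟩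
        · rw [hused, ← h]
          exact Finset.subset_insert _ _
        · refine key j fun ξ' => ⟨0, fun a' ha' _ => ?_⟩
          have e1 : B - Bl ν (bi ν D) = 0 := by omega
          rw [e1, h, sub_zero]
          have e2 : tl p 0 a' = a' := by funext k; simp
          rw [e2]
          exact ha'
      · obtain ⟨i, hij, hsub, hI⟩ := ih h
        have e1 : D - Bl ν (bi ν D) - (B - Bl ν (bi ν D)) = D - B := by omega
        rw [e1] at hsub hI
        refine ⟨i, Nat.le_succ_of_le hij, ?_, key i hI⟩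
        rw [hused]
        exact hsub.trans (Finset.subset_insert _ _)

end Pool.Agent.B2g
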