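import Pool.Agent.B2g.Fib
import Pool.Agent.B2g.SplT
import Pool.Agent.B2g.SetB

/-! Module FARY (MP_491344_nt, text MP_491344_nt_b2g_helper7.md). -/

namespace Pool.Agent.B2g

variable {p ν : ℕ} [Fact p.Prime] {Φ : Flds p ν} {η : ℕ → (V p →ₗ[ZMod p] V p)}

theorem FARY_union {α β : Type*} (s : Finset α) (f : α → Set β) (K : ℕ∞)
    (h : ∀ a ∈ s, (f a).encard ≤ K) : (⋃ a ∈ s, f a).encard ≤ s.card * K := by
  classical
  induction s using Finset.induction_on with
  | empty => simp
  | insert a s ha ih =>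
    rw [Finset.card_insert_of_notMem ha, Finset.set_biUnion_insert]
    refine (Set.encard_union_le _ _).trans ?_
    have h1 := h a (Finset.mem_insert_self a s)
    have h2 := ih (fun b hb => h b (Finset.mem_insert_of_mem hb))
    calc (f a).encard + (⋃ x ∈ s, f x).encard ≤ K + s.card * K := add_le_add h1 h2
      _ = ((s.card + 1 : ℕ) : ℕ∞) * K := by push_cast; ring

/-- Module FARY.  `a := t - H m w - y - sh (Bl m) a'` agrees with `t - H m w` below `Bl m`, so by
`spl_tail` (with `B = Bl m`) `tl a` takes at most `p ^ (D - Bl m)` values (`ncard_A`, `len_le`), hence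
also `a`.  For fixed `a` the vector `y + sh a' = t - H m w - a` is fixed, so `a' i` is fixed for
`i ≥ sl m`: at most `(2p)^(sl m)` values of `a'` by `fib`, and `y` is determined. -/
theorem far_Y (hη : ∀ m, ShOK ν m (η m)) {J m j D j' D' : ℕ}
    (hF : Far p ν J m j D j' D') (t w : V p) :
    {y : V p | (∀ i, (i < Bl ν m ∨ Bl ν m + sl ν m ≤ i) → y i = 0) ∧
      ∃ a' ∈ A η Φ j' (D' - Bl ν m), t - H ν η m w - y - sh p (Bl ν m) a' ∈ A η Φ j D}.encard ≤
      ((p ^ (D - Bl ν m) * (2 * p) ^ sl ν m : ℕ) : ℕ∞) := by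
  classical
  obtain ⟨-, -, -, -, -, -, hS, -⟩ := hF
  set B := Bl ν m with hB
  set u : V p := t - H ν η m w with hu
  obtain ⟨i, -, -, hc⟩ := spl_tail (Φ := Φ) hη hS
  obtain ⟨c, hc⟩ := hc u
  obtain ⟨hfin, hcard⟩ := ncard_A (Φ := Φ) hη i (D - B)
  -- the possible values of a
  let F : V p → V p := fun x => tr p B u + sh p B (c + x)
  let S : Finset (V p) := hfin.toFinset.image F
  have hScard : S.card ≤ p ^ (D - B) := by
    refine Finset.card_image_le.trans ?_
    rw [← Set.ncard_eq_toFinset_card _ hfin, hcard]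
    exact Nat.pow_le_pow_right (Fact.out : p.Prime).pos (len_le ν i (D - B))
  let f : V p → Set (V p) := fun a =>
    (fun a' => u - a - sh p B a') '' {a' | a' ∈ A η Φ j' (D' - B) ∧ ∀ i, sl ν m ≤ i →
      a' i = tl p B (u - a) i}
  have hf : ∀ a ∈ S, (f a).encard ≤ (((2 * p) ^ sl ν m : ℕ) : ℕ∞) := by
    intro a _
    exact (Set.encard_image_le _ _).trans (fib hη j' (D' - B) (sl ν m) (tl p B (u - a)))
  have hsub : {y : V p | (∀ i, (i < B ∨ B + sl ν m ≤ i) → y i = 0) ∧
      ∃ a' ∈ A η Φ j' (D' - B), u - y - sh p B a' ∈ A η Φ j D} ⊆ ⋃ a ∈ S, f a := by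
    rintro y ⟨hy, a', ha', hA⟩
    set a : V p := u - y - sh p B a' with ha
    have hlow : ∀ k < B, a k = u k := by
      intro k hk
      simp [ha, hy k (Or.inl hk), hk]
    have hx := hc a hA hlow
    have haS : a ∈ S := by
      refine Finset.mem_image.2 ⟨tl p B a - c, hfin.mem_toFinset.2 hx, ?_⟩
      have h1 : tr p B u = tr p B a := by
        funext k
        simp only [tr_apply]
        split_ifs with hk
        · exact (hlow k hk).symm
        · rfl
      simp only [F]
      rw [h1, add_sub_cancel, tr_add_sh_tl]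
    refine Set.mem_biUnion haS ⟨a', ⟨ha', ?_⟩, ?_⟩
    · intro k hk
      have h2 : u - a = y + sh p B a' := by rw [ha]; abel
      rw [h2]
      simp [hy (k + B) (Or.inr (by omega))]
    · show u - a - sh p B a' = y
      rw [ha]; abel
  refine (Set.encard_le_encard hsub).trans ((FARY_union S f _ hf).trans ?_)
  rw [← Nat.cast_mul]
  exact Nat.cast_le.2 (Nat.mul_le_mul_right _ hScard)

end Pool.Agent.B2g
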