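import Pool.Agent.B2g.FarP
import Pool.Agent.B2g.FarY
import Pool.Agent.B2g.FarC
import Pool.Agent.B2g.FarN

/-! Module FARG (MP_491344_nt, text MP_491344_nt_b2g_helper7.md). -/

namespace Pool.Agent.B2g

variable {p ν : ℕ} [Fact p.Prime]

/-- restriction to the first `b` positions -/
def FARG_res (p b : ℕ) [Fact p.Prime] : V p →ₗ[ZMod p] (Fin b → ZMod p × ZMod p) where
  toFun w := fun i => w i
  map_add' _ _ := rfl
  map_smul' _ _ := rfl

/-- extension by zero, placed at `[c, c + b)` -/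
def FARG_ext (p b c : ℕ) [Fact p.Prime] : (Fin b → ZMod p × ZMod p) →ₗ[ZMod p] V p where
  toFun x := fun i => if h : c ≤ i ∧ i < c + b then x ⟨i - c, by omega⟩ else 0
  map_add' x y := by
    funext i
    by_cases h : c ≤ i ∧ i < c + b
    · simp [h]
    · simp only [dif_neg h, Pi.add_apply, add_zero]
  map_smul' a x := by
    funext i
    by_cases h : c ≤ i ∧ i < c + b
    · simp [h]
    · simp only [dif_neg h, Pi.smul_apply, smul_zero]

theorem FARG_ext_inj (p b c : ℕ) [Fact p.Prime] : Function.Injective (FARG_ext p b c) := by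
  intro x y h
  funext i
  have := congrFun h (c + i)
  have hi : c ≤ c + (i : ℕ) ∧ c + (i : ℕ) < c + b := ⟨by omega, by omega⟩
  simp only [FARG_ext, LinearMap.coe_mk, AddHom.coe_mk, dif_pos hi] at this
  convert this using 2
  · ext; simp
  · ext; simp

theorem FARG_ext_res {p b : ℕ} [Fact p.Prime] {w : V p} (h : ∀ i, b ≤ i → w i = 0) :
    FARG_ext p b 0 (FARG_res p b w) = w := by
  funext i
  by_cases hi : 0 ≤ i ∧ i < 0 + b
  · simp only [FARG_ext, FARG_res, LinearMap.coe_mk, AddHom.coe_mk, dif_pos hi, Nat.sub_zero]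
  · simp only [FARG_ext, FARG_res, LinearMap.coe_mk, AddHom.coe_mk, dif_neg hi]
    exact (h i (by omega)).symm

theorem FARG_ext_lo {p b c : ℕ} [Fact p.Prime] (x : Fin b → ZMod p × ZMod p) (i : ℕ)
    (h : i < c ∨ c + b ≤ i) : FARG_ext p b c x i = 0 := by
  have hi : ¬ (c ≤ i ∧ i < c + b) := by omega
  simp only [FARG_ext, LinearMap.coe_mk, AddHom.coe_mk, dif_neg hi]

/-- Module FARG.  Apply `count_lin` with `W = Fin (Bl m) → ZMod p × ZMod p`,
`Y = Fin (sl m) → ZMod p × ZMod p`, `r = r0`, `T` = all `(j, j', D, D', t)` with `j, j' ≤ J`,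
`D, D' ≤ X = 6 n² s`, `t` supported in `[0, X)`; `P t` = restrictions of the candidates
(`Cand`, empty if the quadruple is not far), `Z` as in `far_Y` (`p^(D - Bl m) ≤ p^(sl m / 4)`).
`L` gives `θ = (extension by zero, placed at [Bl m, Bl m + sl m)) ∘ L ∘ restriction`, `ShOK m θ`.
With `η' = Function.update η m θ`: `H ν η' m = H ν η m` (`H_congr`) and the sets `A η' Φ j D`
(`bi D < m` or `D < st 0`), `A η' Φ j' (D' - Bl m)` (`bi (D' - Bl m) < m` or small, because
`D' - Bl m < 2 Un m ≤ Bl m ≤ st m`) are those of `η` (`A_congr`).  A survivor `w` for `t` (supported in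
`[0, D')`, else there are none, as `A j D`, `A (j'+1) D'` are supported there, `supp_A`) is a
candidate, and `η' m w = θ w` lies in `Z`:
`t - H (w + θ w + sh a') = t - H w - θ w - sh a'` by `idOn_H`.  Linear independence of survivors
is equivalent to that of their restrictions. -/
theorem good_step (hν : 3 ≤ ν) (hp : 2 ^ (40 * 4 ^ ν) ≤ p) {J : ℕ} (hJ : (J + 1) ^ 2 ≤ p)
    (Φ : Flds p ν) (η : ℕ → (V p →ₗ[ZMod p] V p)) (hη : ∀ m, ShOK ν m (η m)) {m : ℕ}
    (hm : m0 ν ≤ m) :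
    ∃ θ : V p →ₗ[ZMod p] V p, ShOK ν m θ ∧ Good Φ (Function.update η m θ) J m := by
  classical
  set b := Bl ν m with hb
  set s0 := sl ν m with hs0
  set X := 6 * 4 ^ ν * s0 with hX
  have : NeZero p := ⟨(Fact.out : p.Prime).ne_zero⟩
  have hcardZ : Nat.card (ZMod p × ZMod p) = p ^ 2 := by
    rw [Nat.card_prod, Nat.card_zmod, sq]
  have hcardF : ∀ k : ℕ, Nat.card (Fin k → ZMod p × ZMod p) = p ^ (2 * k) := by
    intro k
    rw [Nat.card_fun, hcardZ, Nat.card_eq_fintype_card, Fintype.card_fin, ← pow_mul]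
  -- the data for count_lin
  let T := ((Fin (J + 1) × Fin (J + 1)) × (Fin (X + 1) × Fin (X + 1))) ×
    (Fin X → ZMod p × ZMod p)
  let W := Fin b → ZMod p × ZMod p
  let Y := Fin s0 → ZMod p × ZMod p
  let P : T → Set W := fun τ => {x | Far p ν J m τ.1.1.1 τ.1.2.1 τ.1.1.2 τ.1.2.2 ∧
    FARG_ext p b 0 x ∈ Cand Φ η m τ.1.1.1 τ.1.2.1 (FARG_ext p X 0 τ.2)}
  let Z : T → W → Set Y := fun τ x => {y | ∃ a' ∈ A η Φ τ.1.1.2 (τ.1.2.2 - Bl ν m),
    FARG_ext p X 0 τ.2 - H ν η m (FARG_ext p b 0 x) - FARG_ext p s0 b y - sh p (Bl ν m) a' ∈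
      A η Φ τ.1.1.1 τ.1.2.1}
  have hP : ∀ τ : T, (P τ).ncard ≤ 2 ^ (2 * b) := by
    intro τ
    by_cases hF : Far p ν J m τ.1.1.1 τ.1.2.1 τ.1.1.2 τ.1.2.2
    · have h1 : (FARG_ext p b 0) '' (P τ) ⊆
          Cand Φ η m τ.1.1.1 τ.1.2.1 (FARG_ext p X 0 τ.2) := by
        rintro _ ⟨x, hx, rfl⟩
        exact hx.2
      have h2 := (Set.encard_le_encard h1).trans (cand_all hη hF (FARG_ext p X 0 τ.2))
      rw [(FARG_ext_inj p b 0).encard_image] at h2
      have h3 : ((P τ).ncard : ℕ∞) ≤ ((2 ^ (2 * b) : ℕ) : ℕ∞) := by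
        rw [(Set.toFinite (P τ)).cast_ncard_eq]; exact h2
      exact_mod_cast h3
    · have : P τ = ∅ := by
        ext x; simp only [P, Set.mem_ofPred_eq, Set.mem_empty_iff_false, iff_false]
        exact fun h => hF h.1
      rw [this]; simp
  have hZ : ∀ τ : T, ∀ x ∈ P τ, (Z τ x).ncard ≤ p ^ (s0 / 4) * (2 * p) ^ s0 := by
    intro τ x hx
    obtain ⟨hF, hc⟩ := hx
    have h1 : (FARG_ext p s0 b) '' (Z τ x) ⊆
        {y : V p | (∀ i, (i < Bl ν m ∨ Bl ν m + sl ν m ≤ i) → y i = 0) ∧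
          ∃ a' ∈ A η Φ τ.1.1.2 (τ.1.2.2 - Bl ν m),
            FARG_ext p X 0 τ.2 - H ν η m (FARG_ext p b 0 x) - y - sh p (Bl ν m) a' ∈
              A η Φ τ.1.1.1 τ.1.2.1} := by
      rintro _ ⟨y, hy, rfl⟩
      exact ⟨fun i hi => FARG_ext_lo y i hi, hy⟩
    have h2 := (Set.encard_le_encard h1).trans
      (far_Y hη hF (FARG_ext p X 0 τ.2) (FARG_ext p b 0 x))
    rw [(FARG_ext_inj p s0 b).encard_image] at h2
    have h3 : ((Z τ x).ncard : ℕ∞) ≤
        ((p ^ ((τ.1.2.1 : ℕ) - Bl ν m) * (2 * p) ^ sl ν m : ℕ) : ℕ∞) := by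
      rw [(Set.toFinite (Z τ x)).cast_ncard_eq]; exact h2
    have h4 : (Z τ x).ncard ≤ p ^ ((τ.1.2.1 : ℕ) - Bl ν m) * (2 * p) ^ sl ν m := by
      exact_mod_cast h3
    refine h4.trans (Nat.mul_le_mul_right _ (Nat.pow_le_pow_right (NeZero.pos p) ?_))
    have := hF.2.2.2.2.2.1
    omega
  have hlt : Nat.card T * (2 ^ (2 * b) * (p ^ (s0 / 4) * (2 * p) ^ s0)) ^ (r0 ν) <
      Nat.card Y ^ (r0 ν) := by
    have hT : Nat.card T = (J + 1) ^ 2 * (X + 1) ^ 2 * p ^ (2 * X) := by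
      simp only [T]
      rw [Nat.card_prod, Nat.card_prod, Nat.card_prod, Nat.card_prod, hcardF X,
        Nat.card_eq_fintype_card, Fintype.card_fin, Nat.card_eq_fintype_card, Fintype.card_fin]
      ring
    have hY : Nat.card Y = p ^ (2 * s0) := hcardF s0
    rw [hT, hY]
    exact far_num hν hm hp hJ
  obtain ⟨L, hL⟩ := count_lin (F := ZMod p) (W := W) (Y := Y) (T := T) P Z hP hZ hlt
  let θ : V p →ₗ[ZMod p] V p := (FARG_ext p s0 b).comp (L.comp (FARG_res p b))
  have hθ : ShOK ν m θ := by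
    refine ⟨?_, ?_⟩
    · intro w hw
      have : FARG_res p b w = 0 := by
        funext i
        exact hw i i.2
      simp [θ, this]
    · intro w i hi
      exact FARG_ext_lo _ i hi
  refine ⟨θ, hθ, ?_⟩
  set η' := Function.update η m θ with hη'
  have hη'm : η' m = θ := by simp [hη']
  have hη'k : ∀ k < m, η' k = η k := by
    intro k hk
    simp [hη', Function.update_of_ne (Nat.ne_of_lt hk)]
  have hη'OK : ∀ k, ShOK ν k (η' k) := by
    intro k
    by_cases hk : k = m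
    · subst hk; rw [hη'm]; exact hθ
    · rw [hη', Function.update_of_ne hk]; exact hη k
  have hH : H ν η' m = H ν η m := H_congr hη'k
  intro j D j' D' hF t s hs hli
  obtain ⟨hj, hj', hD'0, hbi, hDm, hDle, hSpl, hused⟩ := hF
  have hF' : Far p ν J m j D j' D' := ⟨hj, hj', hD'0, hbi, hDm, hDle, hSpl, hused⟩
  have hA : A η' Φ j D = A η Φ j D := A_congr hη'k hDm
  have hbD' : b ≤ D' := by
    have := Bl_bi_le hD'0; rw [hbi] at this; exact this
  have hD'm : D' - b < st ν 0 ∨ bi ν (D' - b) < m := by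
    by_cases h : D' - b < st ν 0
    · exact Or.inl h
    · right
      push Not at h
      have h1 := (bi_spec h).1
      have h2 := lt_Bl_bi_add hD'0
      rw [hbi] at h2
      have h3 : 2 * Un ν m ≤ Bl ν m := by
        refine le_trans (Nat.mul_le_mul_right _ ?_) (Bl_lower ν m)
        calc 2 = 2 ^ 1 := rfl
          _ ≤ 2 ^ ν := Nat.pow_le_pow_right (by norm_num) (by omega)
      have h4 : st ν (bi ν (D' - b)) < st ν m := by
        have : Bl ν m ≤ st ν m := Nat.le_add_right _ _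
        omega
      exact (st_strictMono ν).lt_iff_lt.1 h4
  have hA' : A η' Φ j' (D' - Bl ν m) = A η Φ j' (D' - Bl ν m) := A_congr hη'k hD'm
  -- rewrite survivors
  have key : ∀ w ∈ Surv Φ η' m j D j' D' t, (∀ i, b ≤ i → w i = 0) ∧
      pm Φ m w ^ 2 = vm Φ m w ∧ ∃ a' ∈ A η Φ j' (D' - Bl ν m),
        t - H ν η m w - θ w - sh p (Bl ν m) a' ∈ A η Φ j D := by
    rintro w ⟨h1, h2, a', ha', h3⟩
    refine ⟨h1, h2, a', hA' ▸ ha', ?_⟩
    rw [hη'm, hH, hA] at h3
    have h4 : H ν η m (w + θ w + sh p (Bl ν m) a') =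
        H ν η m w + (θ w + sh p (Bl ν m) a') := by
      rw [add_assoc, map_add]
      congr 1
      refine idOn_H hη m _ ?_
      intro i hi
      rw [Pi.add_apply, hθ.2 w i (Or.inl hi), sh_apply, if_pos hi, add_zero]
    rw [h4] at h3
    convert h3 using 1
    abel
  have hr0 : 0 < r0 ν := by unfold r0; positivity
  have hsc := scale_le hν hm hD'0 hbi
  have hDX : D ≤ X := hDle.trans hsc.2
  have hD'X : D' ≤ X := hsc.1
  -- t is supported below X
  have ht : ∀ i, X ≤ i → t i = 0 := by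
    intro i hi
    obtain ⟨h1, h2, a', ha', h3⟩ := hs ⟨0, hr0⟩
    set w := s ⟨0, hr0⟩
    have e1 : (t - H ν η' m (w + η' m w + sh p (Bl ν m) a')) i = 0 :=
      supp_A hη'OK h3 i (hDX.trans hi)
    have e2 : G ν η' m (w + sh p (Bl ν m) a') =
        H ν η' m (w + η' m w + sh p (Bl ν m) a') := by
      rw [G_eq, LinearMap.comp_apply]
      congr 1
      rw [LinearMap.add_apply, LinearMap.id_apply, map_add]
      have : η' m (sh p (Bl ν m) a') = 0 := by
        refine (hη'OK m).1 _ ?_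
        intro k hk
        rw [sh_apply, if_pos hk]
      rw [this, add_zero]
      abel
    have e3 : G ν η' m (w + sh p (Bl ν m) a') i = 0 := by
      have hst : st ν m ≤ D' := by
        have := (bi_spec hD'0).1; rw [hbi] at this; exact this
      refine supp_G hη'OK hst ?_ i (hD'X.trans hi)
      intro k hk
      have hbk : Bl ν m ≤ k := hbD'.trans hk
      rw [Pi.add_apply, h1 k hbk, sh_apply, if_neg (by omega), zero_add]
      exact supp_A hη'OK ha' _ (by omega)
    rw [← e2, Pi.sub_apply, e3, sub_zero] at e1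
    exact e1
  have htt : FARG_ext p X 0 (FARG_res p X t) = t := FARG_ext_res ht
  have hsw : ∀ i, FARG_ext p b 0 (FARG_res p b (s i)) = s i :=
    fun i => FARG_ext_res (key _ (hs i)).1
  let τ : T := (((⟨j, by omega⟩, ⟨j', by omega⟩), (⟨D, by omega⟩, ⟨D', by omega⟩)),
    FARG_res p X t)
  refine hL τ (fun i => FARG_res p b (s i)) ?_ ?_
  · intro i
    obtain ⟨h1, h2, a', ha', h3⟩ := key _ (hs i)
    refine ⟨⟨hF', ?_⟩, ?_⟩
    · show FARG_ext p b 0 (FARG_res p b (s i)) ∈ Cand Φ η m j D (FARG_ext p X 0 (FARG_res p X t))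
      rw [hsw i, htt]
      refine ⟨h1, h2, θ (s i) + sh p (Bl ν m) a', ?_, ?_⟩
      · intro k hk
        rw [Pi.add_apply, hθ.2 _ k (Or.inl hk), sh_apply, if_pos hk, add_zero]
      · rw [← sub_sub]; exact h3
    · show ∃ a' ∈ A η Φ j' (D' - Bl ν m), FARG_ext p X 0 (FARG_res p X t) -
        H ν η m (FARG_ext p b 0 (FARG_res p b (s i))) -
          FARG_ext p s0 b (L (FARG_res p b (s i))) - sh p (Bl ν m) a' ∈ A η Φ j D
      rw [hsw i, htt]
      exact ⟨a', ha', h3⟩
  · have h1 : LinearIndependent (ZMod p)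
        ((FARG_ext p b 0) ∘ (fun i => FARG_res p b (s i))) := by
      have : ((FARG_ext p b 0) ∘ (fun i => FARG_res p b (s i))) = s := by
        funext i; exact hsw i
      rw [this]; exact hli
    exact LinearIndependent.of_comp _ h1

end Pool.Agent.B2g
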