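import Pool.Agent.B2g.MapsB

/-! Module SLO (MP_491344_nt, text MP_491344_nt_b2g_helper7.md). -/

namespace Pool.Agent.B2g

variable {p : ℕ} [Fact p.Prime]

/-- Module SLO: different slopes and a unipotent map in between: transversal.
If `w ≠ 0` is in both, let `i` be its lowest nonzero position; `i < B` by `hM`, `w i = (lam v, v)`
with `v ≠ 0`; `R w` vanishes below `i` and `(R w) i = w i`; the slope of `R w ∈ N` at `i` is in
`Λ`, contradiction. -/
theorem slope_disjoint {N M : Submodule (ZMod p) (V p)} {Λ : Set (ZMod p)} {B : ℕ}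
    {lam : ZMod p} {R : V p →ₗ[ZMod p] V p} (hN : Slope N Λ B) (hlam : lam ∉ Λ)
    (hM : ∀ w ∈ M, (∀ i, B ≤ i → w i = 0) ∧ ∀ i, (w i).1 = lam * (w i).2) (hR : Uni R) :
    N.comap R ⊓ M = ⊥ := by
  classical
  rw [Submodule.eq_bot_iff]
  intro w hw
  rw [Submodule.mem_inf, Submodule.mem_comap] at hw
  obtain ⟨hw1, hw2⟩ := hw
  by_contra hne
  have hex : ∃ i, w i ≠ 0 := by
    by_contra hcon
    push Not at hcon
    exact hne (funext hcon)
  set i := Nat.find hex with hi
  have hi1 : w i ≠ 0 := Nat.find_spec hex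
  have hi2 : ∀ k < i, w k = 0 := fun k hk => by
    by_contra hcon
    exact Nat.find_min hex hk hcon
  obtain ⟨hM1, hM2⟩ := hM w hw2
  have hiB : i < B := by
    by_contra hcon
    exact hi1 (hM1 i (not_lt.1 hcon))
  have hRi : R w i = w i := hR w i hi2
  have hRk : ∀ k < i, R w k = 0 := fun k hk => by
    rw [hR w k (fun l hl => hi2 l (hl.trans hk)), hi2 k hk]
  obtain ⟨lam', hlam', v, hv, hwv⟩ := hN (R w) hw1 i hiB (by rw [hRi]; exact hi1) hRk
  rw [hRi] at hwv
  have h1 := hM2 i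
  rw [hwv] at h1
  have h2 : lam' = lam := mul_right_cancel₀ hv h1
  exact hlam (h2 ▸ hlam')

end Pool.Agent.B2g
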