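import Pool.Agent.B2g.QSet
import Pool.Agent.B2g.Bez
import Pool.Agent.B2g.Slo

/-! Module FARP (MP_491344_nt, text MP_491344_nt_b2g_helper7.md). -/

namespace Pool.Agent.B2g

variable {p ν : ℕ} [Fact p.Prime] {Φ : Flds p ν} {η : ℕ → (V p →ₗ[ZMod p] V p)}

/-- the candidates: they do not depend on `η m` -/
def Cand (Φ : Flds p ν) (η : ℕ → (V p →ₗ[ZMod p] V p)) (m j D : ℕ) (t : V p) : Set (V p) :=
  {w | (∀ i, Bl ν m ≤ i → w i = 0) ∧ pm Φ m w ^ 2 = vm Φ m w ∧
    ∃ y : V p, (∀ i < Bl ν m, y i = 0) ∧ t - H ν η m w - y ∈ A η Φ j D}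

/-- vectors supported in `[0, B)` -/
def FARP_supp (p : ℕ) [Fact p.Prime] (B : ℕ) : Submodule (ZMod p) (V p) where
  carrier := {w | ∀ i, B ≤ i → w i = 0}
  add_mem' := by
    intro a b ha hb i hi
    simp only [Set.mem_ofPred_eq] at ha hb
    simp [ha i hi, hb i hi]
  zero_mem' := by intro i _; rfl
  smul_mem' := by
    intro c a ha i hi
    simp only [Set.mem_ofPred_eq] at ha
    simp [ha i hi]

theorem FARP_mem_supp {B : ℕ} {w : V p} : w ∈ FARP_supp p B ↔ ∀ i, B ≤ i → w i = 0 := Iff.rfl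

/-- restriction to the first `B` positions, on the vectors supported there -/
def FARP_res (p : ℕ) [Fact p.Prime] (B : ℕ) :
    FARP_supp p B →ₗ[ZMod p] (Fin B → ZMod p × ZMod p) where
  toFun w := fun i => (w : V p) i
  map_add' _ _ := rfl
  map_smul' _ _ := rfl

theorem FARP_res_inj (B : ℕ) : Function.Injective (FARP_res p B) := by
  intro w z h
  apply Subtype.ext
  funext i
  by_cases hi : i < B
  · exact congrFun h ⟨i, hi⟩
  · rw [FARP_mem_supp.1 w.2 i (by omega), FARP_mem_supp.1 z.2 i (by omega)]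

instance FARP_fin (B : ℕ) : FiniteDimensional (ZMod p) (FARP_supp p B) :=
  FiniteDimensional.of_injective _ (FARP_res_inj B)

theorem FARP_finrank (B : ℕ) : Module.finrank (ZMod p) (FARP_supp p B) ≤ 2 * B := by
  have h := LinearMap.finrank_le_finrank_of_injective (FARP_res_inj (p := p) B)
  refine h.trans (le_of_eq ?_)
  rw [Module.finrank_pi_fintype]
  simp [Module.finrank_prod, mul_comm]

theorem FARP_ne {m k : ℕ} (h1 : k < m) (h2 : m < k + p) : (m : ZMod p) ≠ (k : ZMod p) := by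
  intro h
  rw [ZMod.natCast_eq_natCast_iff] at h
  have h3 := (Nat.modEq_iff_dvd' h1.le).1 h.symm
  have := Nat.le_of_dvd (by omega) h3
  omega

theorem FARP_slope {m : ℕ} {w : V p} (hs : ∀ i, Bl ν m ≤ i → w i = 0) (h : pm Φ m w = 0) :
    ∀ i, (w i).1 = (m : ZMod p) * (w i).2 := by
  intro i
  by_cases hi : i < Bl ν m
  · have h2 := (Φ.ker m (fun i => (w i).1 - (m : ZMod p) * (w i).2)).1 h i hi
    exact sub_eq_zero.1 h2
  · rw [hs i (by omega)]; simp

/-- Module FARP.  `quad_set` with `B = Bl m` gives `N`; `quad_comap` with `L = - H m`, `c = t`;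
`quad_sq` for `pm m`, `vm m`; `quad_sub` for the subspace of vectors supported in `[0, Bl m)`;
`quad_inf` twice, `quad_mono`.  The intersection of the asymptotic spaces is `0` by
`slope_disjoint` (`lam = m`; `m ≠ k` in `ZMod p` because `k < m < k + p`; `pm m w = 0` and support
in `[0, Bl m)` give `(w i).1 = m (w i).2` for all `i`; `R = H m`, `uni_H`; comap under `- H` and
`H` is the same).  `bez` with `w0 = 0`. -/
theorem cand_bound (hη : ∀ m, ShOK ν m (η m)) {J m j D j' D' : ℕ}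
    (hF : Far p ν J m j D j' D') (t : V p) (Ω : Submodule (ZMod p) (V p))
    [FiniteDimensional (ZMod p) Ω] {r : ℕ} (hr : Module.finrank (ZMod p) Ω ≤ r) :
    {w | w ∈ Cand Φ η m j D t ∧ w ∈ Ω}.encard ≤ ((2 ^ r : ℕ) : ℕ∞) := by
  obtain ⟨-, -, -, -, -, -, hS, hu⟩ := hF
  obtain ⟨N, hN1, hN2⟩ := quad_set (Φ := Φ) hη j D (Bl ν m) hS
  have q1 := quad_comap hN1 (-(H ν η m)) t
  have q2 := quad_sq (pm Φ m) (vm Φ m)
  have q3 : Quad (ZMod p) {w : V p | w ∈ FARP_supp p (Bl ν m)} (FARP_supp p (Bl ν m)) :=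
    quad_sub (fun w hw => hw)
  have q4 := quad_inf q1 (quad_inf q2 q3)
  have hlam : (m : ZMod p) ∉ {x : ZMod p | ∃ k ∈ used ν j D, x = (k : ZMod p)} := by
    rintro ⟨k, hk, he⟩
    exact FARP_ne (hu k hk).1 (hu k hk).2 he
  have hdis : N.comap (H ν η m) ⊓ (LinearMap.ker (pm Φ m) ⊓ FARP_supp p (Bl ν m)) = ⊥ := by
    apply slope_disjoint hN2 hlam _ (uni_H hη m)
    intro w hw
    obtain ⟨hw1, hw2⟩ := Submodule.mem_inf.1 hw
    exact ⟨hw2, FARP_slope (Φ := Φ) hw2 (LinearMap.mem_ker.1 hw1)⟩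
  have hbot : N.comap (-(H ν η m)) ⊓ (LinearMap.ker (pm Φ m) ⊓ FARP_supp p (Bl ν m)) = ⊥ := by
    rw [← hdis]
    congr 1
    ext w
    simp
  rw [hbot] at q4
  have hb := bez (Ω := Ω) hr q4 (bot_inf_eq _) 0
  refine le_trans (Set.encard_le_encard ?_) hb
  rintro w ⟨⟨h1, h2, y, hy, hA⟩, hΩ⟩
  refine ⟨⟨?_, h2, h1⟩, by simpa using hΩ⟩
  refine ⟨y, hy, ?_⟩
  simpa [sub_eq_add_neg] using hA

/-- Module FARP: all candidates: `Ω` = vectors supported in `[0, Bl m)`, dimension `2 Bl m`. -/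
theorem cand_all (hη : ∀ m, ShOK ν m (η m)) {J m j D j' D' : ℕ}
    (hF : Far p ν J m j D j' D') (t : V p) :
    (Cand Φ η m j D t).encard ≤ ((2 ^ (2 * Bl ν m) : ℕ) : ℕ∞) := by
  refine le_trans (Set.encard_le_encard ?_)
    (cand_bound (Φ := Φ) hη hF t (FARP_supp p (Bl ν m)) (FARP_finrank _))
  intro w hw
  exact ⟨hw, hw.1⟩

end Pool.Agent.B2g
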