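import Pool.Agent.B2g.FarP
import Pool.Agent.B2g.Cro
import Pool.Agent.B2g.SplT

/-! Module FARX (MP_491344_nt, text MP_491344_nt_b2g_helper7.md). -/

namespace Pool.Agent.B2g

variable {p ν : ℕ} [Fact p.Prime] {Φ : Flds p ν} {η : ℕ → (V p →ₗ[ZMod p] V p)}

theorem FARX_sub (hη : ∀ m, ShOK ν m (η m)) {m j D j' D' : ℕ} (t : V p) :
    Surv Φ η m j D j' D' t ⊆ Cand Φ η m j D t := by
  rintro w ⟨hw1, hw2, a', ha', ht⟩
  refine ⟨hw1, hw2, η m w + sh p (Bl ν m) a', ?_, ?_⟩
  · intro i hi
    rw [Pi.add_apply, (hη m).2 w i (Or.inl hi), sh_apply, if_pos hi, add_zero]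
  · have h0 : H ν η m (η m w + sh p (Bl ν m) a') = η m w + sh p (Bl ν m) a' := by
      apply idOn_H hη m
      intro i hi
      rw [Pi.add_apply, (hη m).2 w i (Or.inl hi), sh_apply, if_pos hi, add_zero]
    rw [add_assoc, map_add, h0, ← sub_sub] at ht
    exact ht

theorem FARX_surv (hη : ∀ m, ShOK ν m (η m)) {J m j D j' D' : ℕ}
    (hF : Far p ν J m j D j' D') (hgood : Good Φ η J m) (t : V p) :
    (Surv Φ η m j D j' D' t).encard ≤ ((2 ^ r0 ν : ℕ) : ℕ∞) := by
  classical
  obtain ⟨b, hbS, hbsp, hbli⟩ := exists_linearIndependent (ZMod p) (Surv Φ η m j D j' D' t)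
  have hlt : ¬ ∃ f : Fin (r0 ν) → b, Function.Injective f := by
    rintro ⟨f, hf⟩
    exact hgood j D j' D' hF t (fun i => (f i : V p)) (fun i => hbS (f i).2)
      (hbli.comp f hf)
  have hfin : b.Finite := by
    by_contra hinf
    have : Infinite b := Set.infinite_coe_iff.2 hinf
    apply hlt
    exact ⟨fun i => Infinite.natEmbedding b i, fun i k hik => by
      exact Fin.ext ((Infinite.natEmbedding b).injective hik)⟩
  have : Fintype b := hfin.fintype
  have hcard : Fintype.card b ≤ r0 ν := by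
    by_contra hc
    apply hlt
    have hle : Fintype.card (Fin (r0 ν)) ≤ Fintype.card b := by
      rw [Fintype.card_fin]; omega
    obtain ⟨e⟩ := Function.Embedding.nonempty_of_card_le hle
    exact ⟨e, e.injective⟩
  have hΩ : FiniteDimensional (ZMod p) (Submodule.span (ZMod p) b) :=
    FiniteDimensional.span_of_finite (ZMod p) hfin
  have hfr : Module.finrank (ZMod p) (Submodule.span (ZMod p) b) ≤ r0 ν := by
    refine le_trans (finrank_span_le_card (R := ZMod p) b) ?_
    rw [Set.toFinset_card]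
    exact hcard
  refine le_trans (Set.encard_le_encard ?_)
    (cand_bound (Φ := Φ) hη hF t (Submodule.span (ZMod p) b) hfr)
  intro w hw
  refine ⟨FARX_sub hη t hw, ?_⟩
  rw [hbsp]
  exact Submodule.subset_span hw

/-- Module FARX.  The survivors contain no `r0` linearly independent vectors, so they lie in a
subspace `Ω` of dimension `< r0` (take a maximal linearly independent subset), and
`Surv ⊆ Cand` (`y = H m (η m w + sh a')`-part: `H m (w + η m w + sh a') = H m w + (η m w + sh a')`
by `idOn_H`): at most `2 ^ r0` survivors.  An element of the set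
`{a ∈ A j D | b = t - a ∈ A (j'+1) D'}`: `b = G m w' = H m (w' + η m w')`,
`w' = tr w' + sh (tl w')`, `η m w' = η m (tr w')`, so `w := tr (Bl m) w'` is a survivor with
`a' = tl w'`.  For a fixed survivor `w`: `a` is known below `Bl m` (it is `t - H m w` there); by
`spl_tail` with `c` : `tl a - c ∈ A i (D - Bl m)`, `i ≤ j`, and
`tl a + a' = tl (t - H m w - η m w)` is fixed, so the number of `a` is at most `R`.
`encard_le_mul`. -/
theorem far_cross (hη : ∀ m, ShOK ν m (η m)) {J m j D j' D' R : ℕ}
    (hF : Far p ν J m j D j' D') (hgood : Good Φ η J m)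
    (hR : ∀ i ≤ j, used ν i (D - Bl ν m) ⊆ used ν j D →
      Cross (A η Φ i (D - Bl ν m)) (A η Φ j' (D' - Bl ν m)) R) :
    Cross (A η Φ j D) (A η Φ (j' + 1) D') (2 ^ r0 ν * R) := by
  classical
  intro t
  have hF0 := hF
  obtain ⟨-, -, hst, hbi, -, -, hspl, -⟩ := hF0
  set M := Bl ν m with hM
  -- the decomposition of the second summand
  have hdec : ∀ a : V p, t - a ∈ A η Φ (j' + 1) D' → ∃ w : V p,
      pm Φ m w ^ 2 = vm Φ m w ∧ tl p M w ∈ A η Φ j' (D' - M) ∧ t - a = G ν η m w := by
    intro a ha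
    have := (mem_A_succ hst).1 ha
    rw [hbi] at this
    exact this
  let W : V p → V p := fun a => if h : t - a ∈ A η Φ (j' + 1) D' then
    Classical.choose (hdec a h) else 0
  have hW : ∀ a : V p, t - a ∈ A η Φ (j' + 1) D' →
      pm Φ m (W a) ^ 2 = vm Φ m (W a) ∧ tl p M (W a) ∈ A η Φ j' (D' - M) ∧
        t - a = G ν η m (W a) := by
    intro a ha
    have := Classical.choose_spec (hdec a ha)
    simp only [W, dif_pos ha]
    exact this
  -- the formula for `t - a`
  have hη' : ∀ w : V p, η m (tr p M w) = η m w := by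
    intro w
    have h1 : η m (w - tr p M w) = 0 := (hη m).1 _ (fun i hi => by
      rw [Pi.sub_apply, tr_apply, if_pos hi, sub_self])
    rw [map_sub, sub_eq_zero] at h1
    exact h1.symm
  have hG : ∀ w : V p, G ν η m w =
      H ν η m (tr p M w + η m (tr p M w) + sh p M (tl p M w)) := by
    intro w
    rw [G_eq, LinearMap.comp_apply, LinearMap.add_apply, LinearMap.id_apply, hη']
    congr 1
    conv_lhs => rw [← tr_add_sh_tl M w]
    rw [tr_add_sh_tl]
    have := tr_add_sh_tl M w
    calc w + η m w = (tr p M w + sh p M (tl p M w)) + η m w := by rw [this]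
      _ = _ := by abel
  have hG2 : ∀ w : V p, G ν η m w =
      H ν η m (tr p M w) + η m (tr p M w) + sh p M (tl p M w) := by
    intro w
    rw [hG, add_assoc, map_add]
    have h0 : H ν η m (η m (tr p M w) + sh p M (tl p M w)) =
        η m (tr p M w) + sh p M (tl p M w) := by
      apply idOn_H hη m
      intro i hi
      rw [Pi.add_apply, (hη m).2 _ i (Or.inl hi), sh_apply, if_pos hi, add_zero]
    rw [h0, add_assoc]
  refine encard_le_mul _ (fun a => tr p M (W a)) ?_ ?_
  · refine le_trans (Set.encard_le_encard ?_) (FARX_surv hη hF hgood t)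
    rintro _ ⟨a, ⟨haA, hta⟩, rfl⟩
    obtain ⟨h1, h2, h3⟩ := hW a hta
    refine ⟨?_, ?_, tl p M (W a), h2, ?_⟩
    · intro i hi
      show tr p M (W a) i = 0
      rw [tr_apply, if_neg (by omega)]
    · show pm Φ m (tr p M (W a)) ^ 2 = vm Φ m (tr p M (W a))
      have hp1 : pm Φ m (tr p M (W a)) = pm Φ m (W a) := pm_congr (fun i hi => by
        rw [tr_apply, if_pos hi])
      have hv1 : vm Φ m (tr p M (W a)) = vm Φ m (W a) := vm_congr (fun i hi => by
        rw [tr_apply, if_pos hi])
      rw [hp1, hv1]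
      exact h1
    · rw [← hM]
      show t - H ν η m (tr p M (W a) + η m (tr p M (W a)) + sh p M (tl p M (W a))) ∈ _
      rw [← hG, ← h3, sub_sub_cancel]
      exact haA
  · intro b
    obtain ⟨i, hij, hus, hξ⟩ := spl_tail (Φ := Φ) hη hspl
    obtain ⟨c, hc⟩ := hξ (t - H ν η m b)
    -- `a` below `M`
    have hlow : ∀ a : V p, t - a ∈ A η Φ (j' + 1) D' → tr p M (W a) = b →
        ∀ k < M, a k = (t - H ν η m b) k := by
      intro a hta hab k hk
      obtain ⟨h1, h2, h3⟩ := hW a hta
      rw [hG2, hab] at h3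
      have h4 := congrFun h3 k
      rw [Pi.add_apply, Pi.add_apply, (hη m).2 _ k (Or.inl hk), sh_apply, if_pos hk, add_zero,
        add_zero, Pi.sub_apply] at h4
      rw [Pi.sub_apply, ← h4, sub_sub_cancel]
    have hinj : Set.InjOn (fun a : V p => tl p M a - c)
        {a | a ∈ {a | a ∈ A η Φ j D ∧ t - a ∈ A η Φ (j' + 1) D'} ∧ tr p M (W a) = b} := by
      rintro a ⟨⟨ha1, ha2⟩, ha3⟩ a2 ⟨⟨hb1, hb2⟩, hb3⟩ hab
      have hab' : tl p M a = tl p M a2 := sub_left_injective hab
      funext k
      by_cases hk : k < M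
      · rw [hlow a ha2 ha3 k hk, hlow a2 hb2 hb3 k hk]
      · have h5 := congrFun hab' (k - M)
        rw [tl_apply, tl_apply, Nat.sub_add_cancel (by omega)] at h5
        exact h5
    rw [← hinj.encard_image]
    refine le_trans (Set.encard_le_encard ?_)
      (hR i hij hus (tl p M t - tl p M (H ν η m b + η m b) - c))
    rintro _ ⟨a, ⟨⟨ha1, ha2⟩, ha3⟩, rfl⟩
    obtain ⟨h1, h2, h3⟩ := hW a ha2
    refine ⟨hc a ha1 (hlow a ha2 ha3), ?_⟩
    rw [hG2, ha3] at h3
    have h6 : tl p M (sh p M (tl p M (W a))) = tl p M (W a) := by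
      funext k
      rw [tl_apply, sh_apply, if_neg (by omega), Nat.add_sub_cancel]
    have h7 : tl p M t - tl p M (H ν η m b + η m b) - c - (tl p M a - c) = tl p M (W a) := by
      have h8 := congrArg (tl p M) h3
      rw [map_add, h6, map_sub] at h8
      have h9 : tl p M (W a) = tl p M t - tl p M a - tl p M (H ν η m b + η m b) := by
        rw [h8]; abel
      rw [h9]
      abel
    show tl p M t - tl p M (H ν η m b + η m b) - c - (tl p M a - c) ∈ _
    rw [h7]
    exact h2

end Pool.Agent.B2g
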