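import Pool.Agent.B2g.QSet
import Pool.Agent.B2g.Bez
import Pool.Agent.B2g.Cro

/-! Module FIB (MP_491344_nt, text MP_491344_nt_b2g_helper7.md). -/

namespace Pool.Agent.B2g

variable {p ν : ℕ} [Fact p.Prime] {Φ : Flds p ν} {η : ℕ → (V p →ₗ[ZMod p] V p)}

/-- vectors supported in `[0, s)` with vanishing vertical coordinates -/
private def FIB_om (p : ℕ) [Fact p.Prime] (s : ℕ) : Submodule (ZMod p) (V p) where
  carrier := {w | (∀ i, s ≤ i → w i = 0) ∧ ∀ i, (w i).2 = 0}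
  add_mem' := by
    rintro a b ⟨h1, h2⟩ ⟨h3, h4⟩
    refine ⟨fun i hi => ?_, fun i => ?_⟩
    · rw [Pi.add_apply, h1 i hi, h3 i hi, add_zero]
    · rw [Pi.add_apply, Prod.snd_add, h2 i, h4 i, add_zero]
  zero_mem' := ⟨fun _ _ => rfl, fun _ => rfl⟩
  smul_mem' := by
    rintro c a ⟨h1, h2⟩
    refine ⟨fun i hi => ?_, fun i => ?_⟩
    · rw [Pi.smul_apply, h1 i hi, smul_zero]
    · rw [Pi.smul_apply, Prod.smul_snd, h2 i, smul_zero]

/-- coordinates on `FIB_om` -/
private def FIB_co (p : ℕ) [Fact p.Prime] (s : ℕ) : FIB_om p s →ₗ[ZMod p] (Fin s → ZMod p) where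
  toFun w := fun i => (w.1 i.val).1
  map_add' _ _ := rfl
  map_smul' _ _ := rfl

private theorem FIB_co_inj (p : ℕ) [Fact p.Prime] (s : ℕ) : Function.Injective (FIB_co p s) := by
  intro w z h
  apply Subtype.ext
  funext i
  by_cases hi : i < s
  · have h1 : (w.1 i).1 = (z.1 i).1 := congrFun h ⟨i, hi⟩
    exact Prod.ext h1 ((w.2.2 i).trans (z.2.2 i).symm)
  · rw [w.2.1 i (not_lt.1 hi), z.2.1 i (not_lt.1 hi)]

/-- Module FIB.  Use `quad_set` with `B = max D s` (`spl_of_le`) and `quad_mono`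
(`A j D ⊆ Z`, take `y = 0`).  The set is covered by the `p ^ s` sets
`{a ∈ A j D | a i = c i for i ≥ s, (a i).2 = f i for i < s}`, `f : Fin s → ZMod p`; each one is
contained in `w0 + Ω` with `Ω = {w | w i = 0 for i ≥ s, (w i).2 = 0 for all i}`, of dimension `s`
(`w ↦ (i ↦ (w i).1)` is injective into `Fin s → ZMod p`), and `N ⊓ Ω = ⊥` by `Slope`
(the lowest nonzero position of `w ∈ Ω` is `< s ≤ B` and would have `v ≠ 0`).  `bez` gives `≤ 2^s`
for each. -/
theorem fib (hη : ∀ m, ShOK ν m (η m)) (j D s : ℕ) (c : V p) :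
    {a | a ∈ A η Φ j D ∧ ∀ i, s ≤ i → a i = c i}.encard ≤ (((2 * p) ^ s : ℕ) : ℕ∞) := by
  classical
  obtain ⟨N, hQ, hSl⟩ := quad_set (Φ := Φ) hη j D (max D s) (spl_of_le j D _ (le_max_left _ _))
  have hfd : FiniteDimensional (ZMod p) (FIB_om p s) :=
    FiniteDimensional.of_injective (FIB_co p s) (FIB_co_inj p s)
  have hrk : Module.finrank (ZMod p) (FIB_om p s) ≤ s := by
    have h1 := LinearMap.finrank_le_finrank_of_injective (FIB_co_inj p s)
    rwa [Module.finrank_fin_fun] at h1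
  have hbot : N ⊓ FIB_om p s = ⊥ := by
    rw [Submodule.eq_bot_iff]
    intro w hw
    rw [Submodule.mem_inf] at hw
    by_contra hne
    have hex : ∃ i, w i ≠ 0 := by
      by_contra hcon
      push Not at hcon
      exact hne (funext hcon)
    set i := Nat.find hex with hi
    have hi1 : w i ≠ 0 := Nat.find_spec hex
    have hi2 : ∀ k < i, w k = 0 := fun k hk => by
      by_contra hcon
      exact Nat.find_min hex hk hcon
    have his : i < s := by
      by_contra hcon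
      exact hi1 (hw.2.1 i (not_lt.1 hcon))
    obtain ⟨lam, -, v, hv, hwv⟩ := hSl w hw.1 i (lt_of_lt_of_le his (le_max_right _ _)) hi1 hi2
    have h1 := hw.2.2 i
    rw [hwv] at h1
    exact hv h1
  have hmul := encard_le_mul {a | a ∈ A η Φ j D ∧ ∀ i, s ≤ i → a i = c i}
    (fun a => (fun i : Fin s => (a i.val).2)) (M := p ^ s) (R := 2 ^ s) ?_ ?_
  · rw [mul_comm (p ^ s) (2 ^ s), ← mul_pow] at hmul
    exact hmul
  · refine (Set.encard_le_encard (Set.subset_univ _)).trans ?_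
    rw [Set.encard_univ, ENat.card_eq_coe_fintype_card, Fintype.card_fun, ZMod.card, Fintype.card_fin]
  · intro b
    rcases Set.eq_empty_or_nonempty {a | a ∈ {a | a ∈ A η Φ j D ∧ ∀ i, s ≤ i → a i = c i} ∧
        (fun i : Fin s => (a i.val).2) = b} with hS | ⟨w0, hw0⟩
    · rw [hS, Set.encard_empty]
      exact bot_le
    refine le_trans (Set.encard_le_encard ?_) (bez hrk hQ hbot w0)
    rintro a ⟨⟨ha1, ha2⟩, ha3⟩
    refine ⟨⟨0, fun _ _ => rfl, by rw [sub_zero]; exact ha1⟩, ?_, ?_⟩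
    · intro i hi
      rw [Pi.sub_apply, ha2 i hi, hw0.1.2 i hi, sub_self]
    · intro i
      rw [Pi.sub_apply, Prod.snd_sub]
      by_cases hi : i < s
      · have h1 : (a i).2 = b ⟨i, hi⟩ := congrFun ha3 ⟨i, hi⟩
        have h2 : (w0 i).2 = b ⟨i, hi⟩ := congrFun hw0.2 ⟨i, hi⟩
        rw [h1, h2, sub_self]
      · rw [ha2 i (not_lt.1 hi), hw0.1.2 i (not_lt.1 hi), sub_self]

end Pool.Agent.B2g
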