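import Pool.Agent.B2g.Fin0

/-! Module FIN (MP_491344_nt, text MP_491344_nt_b2g_helper7.md). -/

namespace Pool.Agent.B2g

theorem FIN_log_le {L : ℝ} (hL : 0 < L) : Real.log L ≤ 2 * Real.sqrt L := by
  have h1 : Real.log (Real.sqrt L) ≤ Real.sqrt L - 1 :=
    Real.log_le_sub_one_of_pos (Real.sqrt_pos.2 hL)
  have h2 : Real.log (Real.sqrt L) = Real.log L / 2 := Real.log_sqrt hL.le
  linarith

/-- Module FIN (final form).  `L = log (1/ε)`.  For `ε` small choose `ν ≥ 3` with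
`4^ν ≤ L / log L < 4^(ν+1)`; then `60 * 4^ν ≤ 60 L / log L` and
`log (2^(ν-1)) ≥ (1/2) log (L / log L) - log 4 ≥ (1/8) log L` (`L` large), `log (8/ε) ≤ 2 L`.
For `ε` not small (`L` bounded; `L / log L` is bounded below by a positive constant as `log L > 0`)
use `ν = 3` and a large `C`. -/
theorem final : ∃ C : ℝ, 0 < C ∧ ∀ ε : ℝ, 0 < ε → ε < 1 / 16 → ∃ A : Set ℕ,
    (∀ n : ℕ, (Set.ncard {x : ℕ × ℕ | x.1 ∈ A ∧ x.2 ∈ A ∧ x.1 + x.2 = n} : ℝ) ≤
      Real.exp (C * Real.log (1 / ε) / Real.log (Real.log (1 / ε)))) ∧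
    ∃ N0 : ℕ, ∀ N : ℕ, N0 ≤ N → (N : ℝ) ^ (1 / 2 - ε) ≤ ((A ∩ Set.Icc 1 N).ncard : ℝ) := by
  refine ⟨40000, by norm_num, ?_⟩
  intro ε hε hε2
  obtain ⟨L, hL⟩ : ∃ L : ℝ, L = Real.log (1 / ε) := ⟨_, rfl⟩
  have hlog2a : (0.6931471803 : ℝ) < Real.log 2 := Real.log_two_gt_d9
  have hlog2b : Real.log 2 < 0.6931471808 := Real.log_two_lt_d9
  have h16 : (16 : ℝ) < 1 / ε := by
    rw [lt_div_iff₀ hε]
    linarith
  have hlog16 : Real.log 16 = 4 * Real.log 2 := by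
    rw [show (16 : ℝ) = 2 ^ 4 by norm_num, Real.log_pow]
    norm_num
  have hlog8 : Real.log 8 = 3 * Real.log 2 := by
    rw [show (8 : ℝ) = 2 ^ 3 by norm_num, Real.log_pow]
    norm_num
  have hL1 : 4 * Real.log 2 < L := by
    rw [hL, ← hlog16]
    exact Real.log_lt_log (by norm_num) h16
  have hLe : Real.exp 1 < L := by
    have := Real.exp_one_lt_d9
    linarith
  have hL0 : 0 < L := by linarith
  have hll : 1 < Real.log L := by
    rw [← Real.log_exp 1]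
    exact Real.log_lt_log (Real.exp_pos 1) hLe
  have h8e : Real.log (8 / ε) = 3 * Real.log 2 + L := by
    rw [hL, show 8 / ε = 8 * (1 / ε) by ring, Real.log_mul (by norm_num) (by positivity), hlog8]
  have h8L : Real.log (8 / ε) ≤ 2 * L := by rw [h8e]; linarith
  obtain ⟨y, hy⟩ : ∃ y : ℝ, y = L / Real.log L := ⟨_, rfl⟩
  have hyL : y * Real.log L = L := by
    rw [hy]
    field_simp
  have hy1 : 1 ≤ y := by
    rw [hy, one_le_div (by linarith)]
    have := Real.log_le_sub_one_of_pos hL0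
    linarith
  have hsq : Real.log L ≤ 2 * Real.sqrt L := FIN_log_le hL0
  have hsL : Real.sqrt L * Real.sqrt L = L := Real.mul_self_sqrt hL0.le
  have hs0 : 0 < Real.sqrt L := Real.sqrt_pos.2 hL0
  -- it suffices to find ν with a bound for the exponent
  have key : ∀ ν : ℕ, 3 ≤ ν →
      Real.log (8 / ε) / Real.log (2 ^ (ν - 1)) + 60 * 4 ^ ν ≤ 40000 * y →
      ∃ A : Set ℕ,
    (∀ n : ℕ, (Set.ncard {x : ℕ × ℕ | x.1 ∈ A ∧ x.2 ∈ A ∧ x.1 + x.2 = n} : ℝ) ≤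
      Real.exp (40000 * Real.log (1 / ε) / Real.log (Real.log (1 / ε)))) ∧
    ∃ N0 : ℕ, ∀ N : ℕ, N0 ≤ N → (N : ℝ) ^ (1 / 2 - ε) ≤ ((A ∩ Set.Icc 1 N).ncard : ℝ) := by
    intro ν hν hb
    obtain ⟨A, hA1, hA2⟩ := fin0 hν hε (by linarith)
    refine ⟨A, fun n => (hA1 n).trans ?_, hA2⟩
    rw [← hL]
    have e1 : 40000 * L / Real.log L = 40000 * y := by rw [hy]; ring
    rw [e1, Real.rpow_def_of_pos (by norm_num)]
    refine Real.exp_le_exp.2 ?_
    set z := Real.log (8 / ε) / Real.log (2 ^ (ν - 1)) + 60 * 4 ^ ν with hz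
    have hz0 : 0 ≤ z := by
      have h1 : 0 ≤ Real.log (8 / ε) := by rw [h8e]; linarith
      have h2 : 0 ≤ Real.log ((2 : ℝ) ^ (ν - 1)) :=
        Real.log_nonneg (one_le_pow₀ (by norm_num))
      positivity
    nlinarith
  by_cases hy64 : 64 ≤ y
  · -- large
    obtain ⟨ν, hν⟩ : ∃ ν : ℕ, ν = Nat.log 4 ⌊y⌋₊ := ⟨_, rfl⟩
    have hf : 64 ≤ ⌊y⌋₊ := Nat.le_floor (by exact_mod_cast hy64)
    have hν3 : 3 ≤ ν := by
      rw [hν]
      refine (Nat.le_log_iff_pow_le (by norm_num) (by omega)).2 ?_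
      norm_num
      exact hf
    have h4a : (4 : ℝ) ^ ν ≤ y := by
      have h1 : 4 ^ ν ≤ ⌊y⌋₊ := by
        rw [hν]
        exact Nat.pow_log_le_self 4 (by omega)
      have h2 : ((⌊y⌋₊ : ℕ) : ℝ) ≤ y := Nat.floor_le (by linarith)
      calc (4 : ℝ) ^ ν = ((4 ^ ν : ℕ) : ℝ) := by push_cast; rfl
        _ ≤ (⌊y⌋₊ : ℝ) := by exact_mod_cast h1
        _ ≤ y := h2
    have h4b : y < (4 : ℝ) ^ (ν + 1) := by
      have h1 : ⌊y⌋₊ < 4 ^ (ν + 1) := by
        rw [hν]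
        exact Nat.lt_pow_succ_log_self (by norm_num) _
      have h2 : ⌊y⌋₊ + 1 ≤ 4 ^ (ν + 1) := h1
      calc y < ⌊y⌋₊ + 1 := Nat.lt_floor_add_one y
        _ = ((⌊y⌋₊ + 1 : ℕ) : ℝ) := by push_cast; rfl
        _ ≤ ((4 ^ (ν + 1) : ℕ) : ℝ) := by exact_mod_cast h2
        _ = (4 : ℝ) ^ (ν + 1) := by push_cast; rfl
    refine key ν hν3 ?_
    -- sqrt L ≤ 2 y
    have h5 : Real.sqrt L ≤ 2 * y := by
      have : y * Real.log L ≤ y * (2 * Real.sqrt L) :=
        mul_le_mul_of_nonneg_left hsq (by linarith)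
      nlinarith
    have h6 : Real.sqrt L < 2 * 4 ^ (ν + 1) := by linarith
    have h7 : Real.log L = 2 * Real.log (Real.sqrt L) := by
      rw [Real.log_sqrt hL0.le]
      ring
    have h8 : Real.log (Real.sqrt L) ≤ (2 * (ν : ℝ) + 3) * Real.log 2 := by
      have : Real.log (Real.sqrt L) ≤ Real.log ((2 : ℝ) * 4 ^ (ν + 1)) :=
        Real.log_le_log hs0 h6.le
      refine this.trans (le_of_eq ?_)
      have e4 : (2 : ℝ) * 4 ^ (ν + 1) = 2 ^ (2 * ν + 3) := by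
        rw [show (4 : ℝ) = 2 ^ 2 by norm_num, ← pow_mul, ← pow_succ']
        congr 1
      rw [e4, Real.log_pow]
      push_cast
      ring
    have hνR : (3 : ℝ) ≤ ν := by exact_mod_cast hν3
    have h9 : Real.log L ≤ 9 * ((ν : ℝ) - 1) * Real.log 2 := by
      rw [h7]
      nlinarith
    have h10 : Real.log ((2 : ℝ) ^ (ν - 1)) = ((ν : ℝ) - 1) * Real.log 2 := by
      rw [Real.log_pow]
      congr 1
      rw [Nat.cast_sub (by omega)]
      simp
    rw [h10]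
    have h11 : 0 < ((ν : ℝ) - 1) * Real.log 2 := mul_pos (by linarith) (by linarith)
    have h12 : Real.log (8 / ε) / (((ν : ℝ) - 1) * Real.log 2) ≤ 18 * y := by
      rw [div_le_iff₀ h11]
      have : y * Real.log L ≤ y * (9 * ((ν : ℝ) - 1) * Real.log 2) :=
        mul_le_mul_of_nonneg_left h9 (by linarith)
      nlinarith
    nlinarith
  · push Not at hy64
    refine key 3 le_rfl ?_
    have h5 : Real.sqrt L ≤ 128 := by
      have : y * Real.log L ≤ 64 * (2 * Real.sqrt L) :=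
        mul_le_mul hy64.le hsq (by linarith) (by norm_num)
      nlinarith
    have h6 : L ≤ 16384 := by nlinarith
    have h7 : Real.log ((2 : ℝ) ^ (3 - 1)) = 2 * Real.log 2 := by
      rw [Real.log_pow]
      norm_num
    rw [h7]
    have h8 : Real.log (8 / ε) / (2 * Real.log 2) ≤ 2 * 16384 := by
      rw [div_le_iff₀ (by linarith)]
      nlinarith
    norm_num at h8 ⊢
    nlinarith

end Pool.Agent.B2g
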