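import Pool.Agent.B2g.Asy

/-! Module FIN0 (MP_491344_nt, text MP_491344_nt_b2g_helper7.md). -/

namespace Pool.Agent.B2g

theorem FIN0_exp (ν J : ℕ) : 2 * RR ν J = 2 ^ (1 + J + 8 * 2 ^ ν + 52 * 4 ^ ν) := by
  have h : 2 * r0 ν = 52 * 4 ^ ν := by
    unfold r0
    ring
  unfold RR
  rw [h]
  rw [pow_add, pow_add, pow_add, pow_one]
  ring

/-- Module FIN0: for given `ν ≥ 3` and `ε`: `J = ⌈log (8/ε) / log (2^ν/2)⌉ + 2`, `p` a prime larger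
than all bounds. `2 * RR = 2^(1 + J + 8n + 52n²)`. -/
theorem fin0 {ν : ℕ} (hν : 3 ≤ ν) {ε : ℝ} (hε : 0 < ε) (hε2 : ε < 1 / 2) :
    ∃ A : Set ℕ,
      (∀ n : ℕ, (Set.ncard {x : ℕ × ℕ | x.1 ∈ A ∧ x.2 ∈ A ∧ x.1 + x.2 = n} : ℝ) ≤
        2 ^ (Real.log (8 / ε) / Real.log (2 ^ (ν - 1)) + 60 * 4 ^ ν)) ∧
      ∃ N0 : ℕ, ∀ N : ℕ, N0 ≤ N → (N : ℝ) ^ (1 / 2 - ε) ≤ ((A ∩ Set.Icc 1 N).ncard : ℝ) := by
  set x : ℝ := Real.log (8 / ε) / Real.log (2 ^ (ν - 1)) with hx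
  obtain ⟨J, hJ⟩ : ∃ J : ℕ, J = ⌈x⌉₊ + 2 := ⟨_, rfl⟩
  have h8 : (1 : ℝ) < 8 / ε := by
    rw [lt_div_iff₀ hε]
    linarith
  have hb : (1 : ℝ) < 2 ^ (ν - 1) := one_lt_pow₀ (by norm_num) (by omega)
  have hlb : 0 < Real.log (2 ^ (ν - 1)) := Real.log_pos hb
  have hl8 : 0 < Real.log (8 / ε) := Real.log_pos h8
  have hx0 : 0 ≤ x := (div_pos hl8 hlb).le
  have hxJ : x ≤ J := by
    rw [hJ]
    push_cast
    have := Nat.le_ceil x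
    linarith
  have hJx : (J : ℝ) ≤ x + 3 := by
    rw [hJ]
    push_cast
    have := (Nat.ceil_lt_add_one hx0).le
    linarith
  -- the prime
  obtain ⟨a1, ha1⟩ : ∃ a : ℕ, a = 2 ^ (40 * 4 ^ ν) := ⟨_, rfl⟩
  obtain ⟨a2, ha2⟩ : ∃ a : ℕ, a = (J + 1) ^ 2 := ⟨_, rfl⟩
  obtain ⟨a3, ha3⟩ : ∃ a : ℕ, a = 2 ^ ν * (5 + J * (2 * ν + 4)) := ⟨_, rfl⟩
  obtain ⟨a4, ha4⟩ : ∃ a : ℕ, a = ⌈Real.exp (8 * Real.log 2 / ε)⌉₊ := ⟨_, rfl⟩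
  obtain ⟨p, hp1, hp2⟩ := Nat.exists_infinite_primes (a1 + a2 + a3 + a4)
  have : Fact p.Prime := ⟨hp2⟩
  have hq1 : a1 ≤ p := by omega
  have hq2 : a2 ≤ p := by omega
  have hq3 : a3 ≤ p := by omega
  have hq4 : a4 ≤ p := by omega
  rw [ha1] at hq1
  rw [ha2] at hq2
  rw [ha3] at hq3
  rw [ha4] at hq4
  have h1 : (2 / 2 ^ ν : ℝ) ^ J ≤ ε / 8 := by
    have e1 : (2 / 2 ^ ν : ℝ) = (2 ^ (ν - 1))⁻¹ := by
      have : (2 : ℝ) ^ ν = 2 * 2 ^ (ν - 1) := by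
        rw [← pow_succ']
        congr 1
        omega
      rw [this]
      field_simp
    rw [e1, inv_pow]
    have e2 : 8 / ε ≤ (2 ^ (ν - 1) : ℝ) ^ J := by
      rw [← Real.log_le_log_iff (by linarith) (by positivity), Real.log_pow]
      have : x * Real.log (2 ^ (ν - 1)) = Real.log (8 / ε) := by
        rw [hx]
        field_simp
      rw [← this]
      exact mul_le_mul_of_nonneg_right hxJ hlb.le
    calc ((2 ^ (ν - 1) : ℝ) ^ J)⁻¹ ≤ (8 / ε)⁻¹ := inv_anti₀ (by linarith) e2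
      _ = ε / 8 := by rw [inv_div]
  have h2 : Real.log 2 ≤ ε / 8 * Real.log (2 * p) := by
    have hpp : (0 : ℝ) < p := by exact_mod_cast hp2.pos
    have e1 : Real.exp (8 * Real.log 2 / ε) ≤ p := by
      refine (Nat.le_ceil _).trans ?_
      exact_mod_cast hq4
    have e2 : 8 * Real.log 2 / ε ≤ Real.log (2 * p) := by
      rw [Real.le_log_iff_exp_le (by positivity)]
      linarith
    rw [div_le_iff₀ hε] at e2
    linarith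
  obtain ⟨A, hA1, hA2⟩ := asy (p := p) hν (J := J) (by omega) hq1 hq2 hq3
    hε hε2 h1 h2
  refine ⟨A, ?_, hA2⟩
  intro n
  have e1 : (Set.ncard {x : ℕ × ℕ | x.1 ∈ A ∧ x.2 ∈ A ∧ x.1 + x.2 = n} : ℝ) ≤
      ((2 * RR ν J : ℕ) : ℝ) := by exact_mod_cast hA1 n
  refine e1.trans ?_
  rw [FIN0_exp]
  push_cast
  rw [← Real.rpow_natCast]
  refine Real.rpow_le_rpow_of_exponent_le (by norm_num) ?_
  push_cast
  have e2 : (2 : ℝ) ^ ν * 2 ^ ν = 4 ^ ν := by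
    rw [← mul_pow]
    norm_num
  have e3 : (8 : ℝ) ≤ 2 ^ ν := by
    calc (8 : ℝ) = 2 ^ 3 := by norm_num
      _ ≤ 2 ^ ν := pow_le_pow_right₀ (by norm_num) hν
  nlinarith

end Pool.Agent.B2g
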