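import Pool.Agent.B2g.NumC

/-! Module FLD1 (MP_491344_nt, text MP_491344_nt_b2g_helper7.md). -/

namespace Pool.Agent.B2g

/-- Module FLD1, for arbitrary finite fields over `F`. -/
theorem FLD1_gen {F k K₁ K : Type} [Field F] [Field k] [Field K₁] [Field K] [Algebra F k]
    [Algebra F K₁] [Algebra F K] [Finite k] [Finite K₁] [Finite K]
    (h1 : Module.finrank F k ∣ Module.finrank F K₁)
    (h2 : Module.finrank F K = Module.finrank F K₁ + Module.finrank F k)
    (hk : 0 < Module.finrank F k) :
    ∃ (f : k →+* K₁) (g : k →+* K) (Ψ : (K₁ × k) ≃+ K),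
      ∀ c a x, Ψ (f c * a, c * x) = g c * Ψ (a, x) := by
  obtain ⟨f⟩ := FiniteField.nonempty_algHom_of_finrank_dvd h1
  have h3 : Module.finrank F k ∣ Module.finrank F K := by
    rw [h2]
    exact Dvd.dvd.add h1 (dvd_refl _)
  obtain ⟨g⟩ := FiniteField.nonempty_algHom_of_finrank_dvd h3
  letI a1 : Algebra k K₁ := f.toRingHom.toAlgebra
  letI a2 : Algebra k K := g.toRingHom.toAlgebra
  haveI t1 : IsScalarTower F k K₁ := IsScalarTower.of_algebraMap_eq fun x => (f.commutes x).symm
  haveI t2 : IsScalarTower F k K := IsScalarTower.of_algebraMap_eq fun x => (g.commutes x).symm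
  haveI : Module.Finite k K₁ := Module.Finite.of_finite
  haveI : Module.Finite k K := Module.Finite.of_finite
  have e1 := Module.finrank_mul_finrank F k K₁
  have e2 := Module.finrank_mul_finrank F k K
  have e3 : Module.finrank k (K₁ × k) = Module.finrank k K := by
    rw [Module.finrank_prod, Module.finrank_self]
    have : Module.finrank F k * (Module.finrank k K₁ + 1) =
        Module.finrank F k * Module.finrank k K := by
      rw [e2, h2, mul_add, e1, mul_one]
    exact Nat.eq_of_mul_eq_mul_left hk this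
  let Ψ : (K₁ × k) ≃ₗ[k] K := LinearEquiv.ofFinrankEq _ _ e3
  refine ⟨f.toRingHom, g.toRingHom, Ψ.toAddEquiv, fun c a x => ?_⟩
  have h4 := Ψ.map_smul c (a, x)
  have h5 : c • ((a, x) : K₁ × k) = (f.toRingHom c * a, c * x) := rfl
  have h6 : c • Ψ (a, x) = g.toRingHom c * Ψ (a, x) := rfl
  rw [h5, h6] at h4
  exact h4

/-- Module FLD1.  `u ∣ b₁`, `b = b₁ + u`, `u > 0`: embeddings `f`, `g` of `GaloisField p u` into the
two others (`FiniteField.nonempty_algHom_of_finrank_dvd`, `GaloisField.finrank`), and a linear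
equivalence over `k = GaloisField p u` because the dimensions over `k` agree:
`b₁/u + 1 = b/u` (`finrank_mul_finrank`). -/
theorem exists_merge (p : ℕ) [Fact p.Prime] (b₁ u b : ℕ) (hu : 0 < u) (h1 : u ∣ b₁)
    (hb₁ : 0 < b₁) (hb : b = b₁ + u) :
    ∃ (f : GaloisField p u →+* GaloisField p b₁) (g : GaloisField p u →+* GaloisField p b)
      (Ψ : (GaloisField p b₁ × GaloisField p u) ≃+ GaloisField p b),
      ∀ c a x, Ψ (f c * a, c * x) = g c * Ψ (a, x) := by
  have e1 := GaloisField.finrank p hu.ne'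
  have e2 := GaloisField.finrank p hb₁.ne'
  have e3 := GaloisField.finrank p (n := b) (by omega)
  refine FLD1_gen (F := ZMod p) ?_ ?_ ?_
  · rw [e1, e2]; exact h1
  · rw [e1, e2, e3]; exact hb
  · rw [e1]; exact hu

end Pool.Agent.B2g
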