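import Pool.Agent.B2g.Strad

/-! Module MAIN (MP_491344_nt, text MP_491344_nt_b2g_helper7.md). -/

namespace Pool.Agent.B2g

variable {p ν : ℕ} [Fact p.Prime] {Φ : Flds p ν} {η : ℕ → (V p →ₗ[ZMod p] V p)}

/-- Module MAIN.  Strong induction on `D'`.  Trivial cases as in `strad`.  Same block: `same` and
induction.  `D ≤ Bl m + sl m / 4`, `bi D < m = bi D'`: `str1`.  Otherwise
`Bl m + sl m / 4 < D < st m`: `near`, and the inner pair `e = D - Bl m < sl m ≤ e' = D' - Bl m`
with `sl m = 2^l` (`sl_pow`): `strad` with `(j - 2, j' - 1)`;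
`2^(4n) * 2^(min (j-2) (j'-1)) * 2^(4n) 2^(2 r0) ≤ 2^(min j j') 2^(8n) 2^(2 r0)`. -/
theorem main_rec {J : ℕ} (S : Setup Φ η J) : ∀ (D' j j' D : ℕ), j ≤ J → j' ≤ J → D ≤ D' →
    Hyp p ν (m0 ν) j D D' →
    Cross (A η Φ j D) (A η Φ j' D') (2 ^ (min j j') * (2 ^ (8 * 2 ^ ν) * 2 ^ (2 * r0 ν))) := by
  intro D'
  induction D' using Nat.strong_induction_on with
  | _ D' ih =>
  intro j j' D hj hj' h1 hH
  have hone : ∀ a b : ℕ, 1 ≤ 2 ^ (min a b) * (2 ^ (8 * 2 ^ ν) * 2 ^ (2 * r0 ν)) :=
    fun a b => Nat.one_le_iff_ne_zero.mpr (by positivity)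
  cases j' with
  | zero =>
    exact (cross_zero_right (A η Φ j D)).mono (le_refl _) (le_refl _) (hone _ _)
  | succ j' =>
    by_cases hu : used ν j D = ∅
    · rw [A_eq_zero_of_used hu]
      exact (cross_zero_left _).mono (le_refl _) (le_refl _) (hone _ _)
    · obtain ⟨h0, hbi⟩ := REC1_bi hu
      have h0' : st ν 0 ≤ D' := by omega
      have hle : bi ν D ≤ bi ν D' := bi_mono ν (by omega)
      have hm : m0 ν ≤ bi ν D' := le_trans (hH _ hbi).1 hle
      by_cases hs : bi ν D = bi ν D'
      · cases j with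
        | zero => exact absurd rfl hu
        | succ j =>
          have hB : Bl ν (bi ν D') ≤ D := hs ▸ Bl_bi_le h0
          have hpos : 0 < Bl ν (bi ν D') := lt_of_le_of_lt (Nat.zero_le _) (lt_Bl ν _)
          have hsub : used ν j (D - Bl ν (bi ν D')) ⊆ used ν (j + 1) D := by
            have e1 : used ν (j + 1) D = insert (bi ν D) (used ν j (D - Bl ν (bi ν D))) := by
              simp [used, not_lt.mpr h0]
            rw [e1, hs]
            exact Finset.subset_insert _ _
          have key := ih (D' - Bl ν (bi ν D')) (by omega) j j'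
            (D - Bl ν (bi ν D')) (by omega) (by omega) (by omega)
            (hH.mono hsub (Nat.sub_le _ _))
          have := same S.p_ne_two S.hη h0 h0' hs (by rw [hs]; exact key)
          refine this.mono (le_refl _) (le_refl _) (le_of_eq ?_)
          rw [min_add_add_right, pow_succ]
          ring
      · have hlt : bi ν D < bi ν D' := lt_of_le_of_ne hle hs
        by_cases hfar : D ≤ Bl ν (bi ν D') + sl ν (bi ν D') / 4
        · refine (str1 S hj hj' h0' hfar (Or.inr hlt) hH).mono (le_refl _) (le_refl _) ?_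
          calc 2 ^ (2 * r0 ν) = 1 * (1 * 2 ^ (2 * r0 ν)) := by ring
            _ ≤ _ := Nat.mul_le_mul (REC1_one_le _)
              (Nat.mul_le_mul (REC1_one_le _) (le_refl _))
        · push Not at hfar
          have hDst : D < st ν (bi ν D') := STRAD_lt h0 hlt
          have hste : st ν (bi ν D') = Bl ν (bi ν D') + sl ν (bi ν D') := rfl
          have hstD' : st ν (bi ν D') ≤ D' := (bi_spec h0').1
          obtain ⟨l, hl, _, _⟩ := sl_pow hm
          have key := strad S (D' - Bl ν (bi ν D')) l (j - 2) j' (D - Bl ν (bi ν D')) (by omega)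
            (by omega) (by omega) (by omega)
            (hH.mono (STRAD_used S.hν hm hfar hDst) (Nat.sub_le _ _))
          have := near S.hν S.hp' S.hη hm h0' rfl hfar hDst key
          refine this.mono (le_refl _) (le_refl _) ?_
          have e8 : (2 : ℕ) ^ (8 * 2 ^ ν) = 2 ^ (4 * 2 ^ ν) * 2 ^ (4 * 2 ^ ν) := by
            rw [← pow_add]; congr 1; ring
          have hmin : (2 : ℕ) ^ (min (j - 2) j') ≤ 2 ^ (min j (j' + 1)) :=
            Nat.pow_le_pow_right (by norm_num) (by omega)
          calc 2 ^ (4 * 2 ^ ν) * (2 ^ min (j - 2) j' * (2 ^ (4 * 2 ^ ν) * 2 ^ (2 * r0 ν)))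
              = 2 ^ min (j - 2) j' * (2 ^ (8 * 2 ^ ν) * 2 ^ (2 * r0 ν)) := by rw [e8]; ring
            _ ≤ _ := Nat.mul_le_mul hmin (le_refl _)

end Pool.Agent.B2g
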