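import Pool.Agent.B2g.NumC

/-! Module MAPA (MP_491344_nt, text MP_491344_nt_b2g_helper7.md). -/

namespace Pool.Agent.B2g

variable {p : ℕ} [Fact p.Prime]

@[simp] theorem tr_apply (m : ℕ) (w : V p) (i : ℕ) : tr p m w i = if i < m then w i else 0 := rfl

@[simp] theorem tl_apply (m : ℕ) (w : V p) (i : ℕ) : tl p m w i = w (i + m) := rfl

@[simp] theorem sh_apply (m : ℕ) (w : V p) (i : ℕ) :
    sh p m w i = if i < m then 0 else w (i - m) := rfl

theorem tr_add_sh_tl (m : ℕ) (w : V p) : tr p m w + sh p m (tl p m w) = w := by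
  funext i
  by_cases h : i < m
  · simp [h]
  · simp [h, Nat.sub_add_cancel (Nat.le_of_not_lt h)]

/-- Module MAPA: the action of `lift`. -/
theorem mapa_lift_apply (m : ℕ) (T : V p →ₗ[ZMod p] V p) (w : V p) (i : ℕ) :
    lift p m T w i = if i < m then w i else T (tl p m w) (i - m) := by
  have h : lift p m T w i = tr p m w i + sh p m (T (tl p m w)) i := rfl
  rw [h, tr_apply, sh_apply]
  by_cases hi : i < m
  · simp only [hi, if_true, add_zero]
  · simp only [hi, if_false, zero_add]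

/-- Module MAPA. -/
theorem Uni.comp {S T : V p →ₗ[ZMod p] V p} (hS : Uni S) (hT : Uni T) : Uni (S.comp T) := by
  intro w i h
  have h1 : ∀ k < i, T w k = 0 := by
    intro k hk
    rw [hT w k (fun k' hk' => h k' (hk'.trans hk))]
    exact h k hk
  rw [LinearMap.comp_apply, hS (T w) i h1, hT w i h]

/-- Module MAPA. -/
theorem Uni.id : Uni (LinearMap.id : V p →ₗ[ZMod p] V p) := by
  intro w i _
  rfl

/-- Module MAPA. -/
theorem Uni.lift {T : V p →ₗ[ZMod p] V p} (hT : Uni T) (m : ℕ) : Uni (lift p m T) := by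
  intro w i h
  rw [mapa_lift_apply]
  by_cases hi : i < m
  · simp only [hi, if_true]
  · simp only [hi, if_false]
    have hi' : m ≤ i := Nat.le_of_not_lt hi
    rw [hT (tl p m w) (i - m) ?_]
    · rw [tl_apply, Nat.sub_add_cancel hi']
    · intro k hk
      rw [tl_apply]
      apply h
      omega

/-- Module MAPA: the kernel version of `congr_inv`. -/
theorem mapa_inv_zero {T : V p →ₗ[ZMod p] V p} (hT : Uni T) {m : ℕ} {w : V p}
    (h : ∀ i < m, T w i = 0) : ∀ i < m, w i = 0 := by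
  intro i
  induction i using Nat.strong_induction_on with
  | _ i ih =>
    intro hi
    have h1 : ∀ k < i, w k = 0 := fun k hk => ih k hk (hk.trans hi)
    rw [← hT w i h1]
    exact h i hi

/-- Module MAPA: the kernel version of `congr`. -/
theorem mapa_zero {T : V p →ₗ[ZMod p] V p} (hT : Uni T) {m : ℕ} {w : V p}
    (h : ∀ i < m, w i = 0) : ∀ i < m, T w i = 0 := by
  intro i hi
  rw [hT w i (fun k hk => h k (hk.trans hi))]
  exact h i hi

/-- Module MAPA: the lowest nonzero position is preserved. -/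
theorem Uni.injective {T : V p →ₗ[ZMod p] V p} (hT : Uni T) : Function.Injective T := by
  intro w z hwz
  have h0 : T (w - z) = 0 := by rw [map_sub, hwz, sub_self]
  have h1 : w - z = 0 := by
    funext i
    exact mapa_inv_zero hT (m := i + 1) (w := w - z) (fun k _ => by rw [h0]; rfl) i
      (Nat.lt_succ_self i)
  exact sub_eq_zero.mp h1

/-- Module MAPA: `T w` below `m` depends only on `w` below `m`. -/
theorem Uni.congr {T : V p →ₗ[ZMod p] V p} (hT : Uni T) {m : ℕ} {w z : V p}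
    (h : ∀ i < m, w i = z i) : ∀ i < m, T w i = T z i := by
  intro i hi
  have h1 : T (w - z) i = 0 :=
    mapa_zero hT (m := m) (w := w - z)
      (fun k hk => by rw [Pi.sub_apply, h k hk, sub_self]) i hi
  rw [map_sub, Pi.sub_apply] at h1
  exact sub_eq_zero.mp h1

/-- Module MAPA: and conversely. -/
theorem Uni.congr_inv {T : V p →ₗ[ZMod p] V p} (hT : Uni T) {m : ℕ} {w z : V p}
    (h : ∀ i < m, T w i = T z i) : ∀ i < m, w i = z i := by
  intro i hi
  have h1 : (w - z) i = 0 :=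
    mapa_inv_zero hT (m := m) (w := w - z)
      (fun k hk => by rw [map_sub, Pi.sub_apply, h k hk, sub_self]) i hi
  rw [Pi.sub_apply] at h1
  exact sub_eq_zero.mp h1

/-- Module MAPA. -/
theorem uni_shear {ν m : ℕ} {θ : V p →ₗ[ZMod p] V p} (h : ShOK ν m θ) :
    Uni (LinearMap.id + θ) := by
  intro w i hw
  have h1 : (LinearMap.id + θ : V p →ₗ[ZMod p] V p) w i = w i + θ w i := rfl
  rw [h1]
  by_cases hi : i < Bl ν m
  · rw [h.2 w i (Or.inl hi), add_zero]
  · rw [h.1 w (fun k hk => hw k (by omega))]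
    simp

variable {ν : ℕ} {η : ℕ → (V p →ₗ[ZMod p] V p)}

/-- Module MAPA. -/
theorem G_eq (m : ℕ) : G ν η m = (H ν η m).comp (LinearMap.id + η m) := by
  cases m with
  | zero =>
    rw [G, H, LinearMap.id_comp]
  | succ m =>
    rw [G, H]

/-- Module MAPA. -/
theorem H_eq {m : ℕ} (hm : 1 ≤ m) (h : ν ≤ (m - 1) / 2 ^ ν) :
    H ν η m = (G ν η (m - 1)).comp (lift p (Bl ν (m - 1)) (G ν η (ui ν m))) := by
  obtain ⟨k, rfl⟩ : ∃ k, m = k + 1 := ⟨m - 1, by omega⟩
  have h' : ν ≤ k / 2 ^ ν := by simpa using h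
  rw [H, if_pos h', ui]
  rfl

/-- Module MAPA: the other case. -/
theorem mapa_H_eq' {m : ℕ} (hm : 1 ≤ m) (h : ¬ ν ≤ (m - 1) / 2 ^ ν) :
    H ν η m = G ν η (m - 1) := by
  obtain ⟨k, rfl⟩ : ∃ k, m = k + 1 := ⟨m - 1, by omega⟩
  have h' : ¬ ν ≤ k / 2 ^ ν := by simpa using h
  rw [H, if_neg h', LinearMap.comp_id]
  rfl

end Pool.Agent.B2g
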