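import Pool.Agent.B2g.MapsA

/-! Module MAPB (MP_491344_nt, text MP_491344_nt_b2g_helper7.md). -/

namespace Pool.Agent.B2g

variable {p : ℕ} [Fact p.Prime] {ν : ℕ} {η : ℕ → (V p →ₗ[ZMod p] V p)}

/-- Module MAPB: `H 0` is the identity. -/
theorem mapb_H_zero : H ν η 0 = LinearMap.id := by
  rw [H]

/-- Module MAPB: the action of `G m`. -/
theorem mapb_G_apply (m : ℕ) (w : V p) : G ν η m w = H ν η m (w + η m w) := by
  rw [G_eq]
  rfl

/-- Module MAPB: induction step for `uni_H`. -/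
theorem mapb_uni_H_step (m : ℕ) (ih : ∀ k < m, Uni (G ν η k)) : Uni (H ν η m) := by
  rcases Nat.eq_zero_or_pos m with hm | hm
  · rw [hm, mapb_H_zero]
    exact Uni.id
  · by_cases h : ν ≤ (m - 1) / 2 ^ ν
    · rw [H_eq hm h]
      exact (ih (m - 1) (by omega)).comp ((ih (ui ν m) (Bl_ui hm h).2.2).lift _)
    · rw [mapa_H_eq' hm h]
      exact ih (m - 1) (by omega)

/-- Module MAPB: strong induction on `m`. -/
theorem uni_G (hη : ∀ m, ShOK ν m (η m)) (m : ℕ) : Uni (G ν η m) := by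
  induction m using Nat.strong_induction_on with
  | _ m ih =>
    rw [G_eq]
    exact (mapb_uni_H_step m ih).comp (uni_shear (hη m))

/-- Module MAPB. -/
theorem uni_H (hη : ∀ m, ShOK ν m (η m)) (m : ℕ) : Uni (H ν η m) :=
  mapb_uni_H_step m (fun k _ => uni_G hη k)

/-- Module MAPB: `lift` is the identity far out. -/
theorem mapb_idOn_lift {T : V p →ₗ[ZMod p] V p} {a b : ℕ} (h : IdOn T b) :
    IdOn (lift p a T) (a + b) := by
  intro w hw
  funext i
  rw [mapa_lift_apply]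
  by_cases hi : i < a
  · simp only [hi, if_true]
  · simp only [hi, if_false]
    rw [h (tl p a w) (fun k hk => by rw [tl_apply]; exact hw _ (by omega)), tl_apply,
      Nat.sub_add_cancel (Nat.le_of_not_lt hi)]

/-- Module MAPB: `IdOn` is monotone. -/
theorem mapb_IdOn_mono {T : V p →ₗ[ZMod p] V p} {a b : ℕ} (h : IdOn T a) (hab : a ≤ b) :
    IdOn T b :=
  fun w hw => h w (fun i hi => hw i (lt_of_lt_of_le hi hab))

/-- Module MAPB: `Bl (m-1) ≤ Bl m`. -/
theorem mapb_Bl_pred_le (ν m : ℕ) : Bl ν (m - 1) ≤ Bl ν m :=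
  (Bl_strictMono ν).monotone (Nat.sub_le m 1)

/-- Module MAPB: induction step for `idOn_H`. -/
theorem mapb_idOn_H_step (m : ℕ) (ih : ∀ k < m, IdOn (G ν η k) (Bl ν k)) :
    IdOn (H ν η m) (Bl ν m) := by
  rcases Nat.eq_zero_or_pos m with hm | hm
  · rw [hm, mapb_H_zero]
    intro w _
    rfl
  · have h1 : IdOn (G ν η (m - 1)) (Bl ν m) :=
      mapb_IdOn_mono (ih (m - 1) (by omega)) (mapb_Bl_pred_le ν m)
    by_cases h : ν ≤ (m - 1) / 2 ^ ν
    · rw [H_eq hm h]
      have h2 : IdOn (lift p (Bl ν (m - 1)) (G ν η (ui ν m))) (Bl ν m) := by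
        rw [(Bl_ui hm h).2.1]
        exact mapb_idOn_lift (ih (ui ν m) (Bl_ui hm h).2.2)
      intro w hw
      rw [LinearMap.comp_apply, h2 w hw, h1 w hw]
    · rw [mapa_H_eq' hm h]
      exact h1

/-- Module MAPB: strong induction.  `G m` is the identity on the vectors supported in
`[Bl m, ∞)`: `η m` vanishes there, `lift (Bl (m-1)) (G (ui m))` is the identity on
`[Bl (m-1) + Bl (ui m), ∞) = [Bl m, ∞)`, `G (m-1)` on `[Bl (m-1), ∞)`. -/
theorem idOn_G (hη : ∀ m, ShOK ν m (η m)) (m : ℕ) : IdOn (G ν η m) (Bl ν m) := by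
  induction m using Nat.strong_induction_on with
  | _ m ih =>
    intro w hw
    rw [mapb_G_apply, (hη m).1 w hw, add_zero]
    exact mapb_idOn_H_step m ih w hw

/-- Module MAPB. -/
theorem idOn_H (hη : ∀ m, ShOK ν m (η m)) (m : ℕ) : IdOn (H ν η m) (Bl ν m) :=
  mapb_idOn_H_step m (fun k _ => idOn_G hη k)

/-- Module MAPB: `H m` preserves the supports below `M ≥ st m`, induction step. -/
theorem mapb_supp_H_step (m : ℕ) (ih : ∀ k < m, ∀ M, st ν k ≤ M → ∀ w : V p,
      (∀ i, M ≤ i → w i = 0) → ∀ i, M ≤ i → G ν η k w i = 0)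
    {M : ℕ} (hM : st ν m ≤ M) {w : V p}
    (hw : ∀ i, M ≤ i → w i = 0) : ∀ i, M ≤ i → H ν η m w i = 0 := by
  rcases Nat.eq_zero_or_pos m with hm | hm
  · rw [hm, mapb_H_zero]
    exact hw
  · have hst : st ν (m - 1) ≤ M :=
      ((st_strictMono ν).monotone (Nat.sub_le m 1)).trans hM
    by_cases h : ν ≤ (m - 1) / 2 ^ ν
    · rw [H_eq hm h]
      have hui := st_ui_le (ν := ν) hm h
      have h2 : ∀ i, M ≤ i → lift p (Bl ν (m - 1)) (G ν η (ui ν m)) w i = 0 := by
        intro i hi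
        rw [mapa_lift_apply]
        have hst0 : Bl ν (m - 1) ≤ i := by omega
        have hi' : ¬ i < Bl ν (m - 1) := by omega
        simp only [hi', if_false]
        refine ih (ui ν m) (Bl_ui hm h).2.2 (M - Bl ν (m - 1)) (by omega) _ ?_ _ (by omega)
        intro k hk
        rw [tl_apply]
        exact hw _ (by omega)
      intro i hi
      rw [LinearMap.comp_apply]
      exact ih (m - 1) (by omega) M hst _ h2 i hi
    · rw [mapa_H_eq' hm h]
      exact ih (m - 1) (by omega) M hst w hw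

/-- Module MAPB: the supports of `w + η m w`. -/
theorem mapb_supp_shear {m : ℕ} (hη : ShOK ν m (η m)) {M : ℕ} (hM : st ν m ≤ M) {w : V p}
    (hw : ∀ i, M ≤ i → w i = 0) : ∀ i, M ≤ i → (w + η m w) i = 0 := by
  intro i hi
  rw [Pi.add_apply, hw i hi, hη.2 w i (Or.inr (le_trans hM hi)), add_zero]

/-- Module MAPB: strong induction, `st_ui_le`. -/
theorem supp_G (hη : ∀ m, ShOK ν m (η m)) {m M : ℕ} (hM : st ν m ≤ M) {w : V p}
    (hw : ∀ i, M ≤ i → w i = 0) : ∀ i, M ≤ i → G ν η m w i = 0 := by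
  induction m using Nat.strong_induction_on generalizing M w with
  | _ m ih =>
    rw [mapb_G_apply]
    exact mapb_supp_H_step m (fun k hk M hM w hw => ih k hk hM hw) hM
      (mapb_supp_shear (hη m) hM hw)

/-- Module MAPB: the same for `H m`. -/
theorem mapb_supp_H (hη : ∀ m, ShOK ν m (η m)) {m M : ℕ} (hM : st ν m ≤ M) {w : V p}
    (hw : ∀ i, M ≤ i → w i = 0) : ∀ i, M ≤ i → H ν η m w i = 0 :=
  mapb_supp_H_step m (fun _ _ _ hM _ hw => supp_G hη hM hw) hM hw

/-- Module MAPB: induction step of `H_congr`. -/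
theorem mapb_H_congr_step {η' : ℕ → (V p →ₗ[ZMod p] V p)} {m : ℕ}
    (h : ∀ k < m, G ν η k = G ν η' k) : H ν η m = H ν η' m := by
  rcases Nat.eq_zero_or_pos m with hm | hm
  · rw [hm, mapb_H_zero, mapb_H_zero]
  · by_cases h' : ν ≤ (m - 1) / 2 ^ ν
    · rw [H_eq hm h', H_eq hm h', h (m - 1) (by omega), h (ui ν m) (Bl_ui hm h').2.2]
    · rw [mapa_H_eq' hm h', mapa_H_eq' hm h', h (m - 1) (by omega)]

/-- Module MAPB: `G m` depends only on the shears with index `≤ m`. -/
theorem G_congr {η' : ℕ → (V p →ₗ[ZMod p] V p)} {m : ℕ} (h : ∀ k ≤ m, η k = η' k) :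
    G ν η m = G ν η' m := by
  induction m using Nat.strong_induction_on with
  | _ m ih =>
    rw [G_eq, G_eq, h m le_rfl,
      mapb_H_congr_step (fun k hk => ih k hk (fun l hl => h l (hl.trans hk.le)))]

/-- Module MAPB: `H m` depends only on the shears with index `< m`. -/
theorem H_congr {η' : ℕ → (V p →ₗ[ZMod p] V p)} {m : ℕ} (h : ∀ k < m, η k = η' k) :
    H ν η m = H ν η' m :=
  mapb_H_congr_step (fun _ hk => G_congr (fun l hl => h l (lt_of_le_of_lt hl hk)))

end Pool.Agent.B2g
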