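import Pool.Agent.B2g.Defs

/-! Module QUADB (MP_491344_nt, text MP_491344_nt_b2g_helper7.md). -/

namespace Pool.Agent.B2g

variable {F : Type*} [Field F] {W : Type*} [AddCommGroup W] [Module F W]
  {W' : Type*} [AddCommGroup W'] [Module F W']

/-- Composition of forms with a linear map, linear over the algebraic closure. -/
noncomputable def QUADB_R (L : W' →ₗ[F] W) :
    (W →ₗ[F] AlgebraicClosure F) →ₗ[AlgebraicClosure F] (W' →ₗ[F] AlgebraicClosure F) where
  toFun l := l.comp L
  map_add' _ _ := rfl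
  map_smul' _ _ := rfl

theorem QUADB_R_apply (L : W' →ₗ[F] W) (l : W →ₗ[F] AlgebraicClosure F) :
    QUADB_R L l = l.comp L := rfl

/-- The span of the image under composition. -/
theorem QUADB_span (L : W' →ₗ[F] W) (A : Set (W →ₗ[F] AlgebraicClosure F))
    (B : Set (W' →ₗ[F] AlgebraicClosure F)) (hAB : ∀ l ∈ A, l.comp L ∈ B)
    (l : W →ₗ[F] AlgebraicClosure F) (hl : l ∈ Submodule.span (AlgebraicClosure F) A) :
    l.comp L ∈ Submodule.span (AlgebraicClosure F) B := by
  have h1 : QUADB_R L l ∈ Submodule.map (QUADB_R L) (Submodule.span (AlgebraicClosure F) A) :=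
    Submodule.mem_map_of_mem hl
  rw [Submodule.map_span] at h1
  refine Submodule.span_mono ?_ h1
  rintro _ ⟨l', hl', rfl⟩
  exact hAB l' hl'

/-- Module QCOM.  `l : W' → E` vanishes on `N.comap L ⊇ ker L`, so `l = l' ∘ L` on `W'` with `l'`
defined on `range L`, zero on `N ⊓ range L`; extend `l'` to `W` with `l' = 0` on `N`
(consistent on `N ⊔ range L`; e.g. factor through `W ⧸ N`: the map `range L → W ⧸ N` has kernel
`range L ⊓ N`).  So `l' ∈ span (Lset F X)`, and for `l'' ∈ Lset F X` the form `l'' ∘ L` is in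
`Lset F {w | c + L w ∈ X}`: `(l''(L w))^2 = (l''(c + L w) - l''(c))^2
= α(c + L w) + c₀ - 2 l''(c) l''(L w) - l''(c)^2`, affine in `w`
(use `l''(c + L w) = l''(c) + l''(L w)`). -/
theorem quad_comap {X : Set W} {N : Submodule F W} (hX : Quad F X N) (L : W' →ₗ[F] W) (c : W) :
    Quad F {w | c + L w ∈ X} (N.comap L) := by
  intro l hl
  set q : W' →ₗ[F] (W ⧸ N) := N.mkQ.comp L with hq
  have hker : LinearMap.ker q ≤ LinearMap.ker l := by
    intro w hw
    rw [LinearMap.mem_ker]
    refine hl w ?_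
    rw [Submodule.mem_comap, ← Submodule.Quotient.mk_eq_zero]
    exact hw
  obtain ⟨g, hg⟩ : ∃ g : (W ⧸ N) →ₗ[F] AlgebraicClosure F, g.comp q = l := by
    obtain ⟨s, hs⟩ := LinearMap.exists_rightInverse_of_surjective q.rangeRestrict
      (LinearMap.range_rangeRestrict q)
    obtain ⟨g, hg⟩ := LinearMap.exists_extend (l.comp s)
    refine ⟨g, LinearMap.ext fun w => ?_⟩
    have h1 : q (s (q.rangeRestrict w)) = q w := by
      have h2 := LinearMap.congr_fun hs (q.rangeRestrict w)
      have h3 := congrArg Subtype.val h2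
      exact h3
    have h4 : l (s (q.rangeRestrict w)) = l w := by
      have h5 : s (q.rangeRestrict w) - w ∈ LinearMap.ker q := by
        rw [LinearMap.mem_ker, map_sub, h1, sub_self]
      have h6 := hker h5
      rw [LinearMap.mem_ker, map_sub] at h6
      exact sub_eq_zero.1 h6
    have h7 := LinearMap.congr_fun hg (q.rangeRestrict w)
    rw [LinearMap.comp_apply, LinearMap.comp_apply] at h7
    rw [LinearMap.comp_apply, ← h4, ← h7]
    rfl
  set k : W →ₗ[F] AlgebraicClosure F := g.comp N.mkQ with hk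
  have hkN : ∀ w ∈ N, k w = 0 := by
    intro w hw
    have h1 : N.mkQ w = 0 := by
      rw [Submodule.mkQ_apply, Submodule.Quotient.mk_eq_zero]
      exact hw
    rw [hk, LinearMap.comp_apply, h1, map_zero]
  have hkL : k.comp L = l := by
    rw [← hg, hk, hq, LinearMap.comp_assoc]
  rw [← hkL]
  refine QUADB_span L (Lset F X) _ ?_ k (hX k hkN)
  rintro l' ⟨α, d, hα⟩
  refine ⟨α.comp L - (2 * l' c) • l'.comp L, α c + d - l' c ^ 2, fun w hw => ?_⟩
  have h1 := hα (c + L w) hw
  simp only [map_add] at h1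
  simp only [LinearMap.comp_apply, LinearMap.sub_apply, LinearMap.smul_apply, smul_eq_mul]
  linear_combination h1

/-- Module QMAP.  Choose a linear left inverse `Γ` of `T`.  If `l` vanishes on `N.map T` then
`l ∘ T` vanishes on `N`, so `l ∘ T = ∑ cᵢ lᵢ`, `lᵢ ∈ Lset F X`.  Then `lᵢ ∘ Γ ∈ Lset F (T '' X)`
and `l - ∑ cᵢ (lᵢ ∘ Γ)` vanishes on `range T ⊇ T '' X`, so it is in `Lset F (T '' X)` too.
(Formally: the set of `k : W → E` in the span such that `k ∘ Γ ∈ span (Lset (T '' X))` is a
submodule containing `Lset F X`.) -/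
theorem quad_map {X : Set W} {N : Submodule F W} (hX : Quad F X N) (T : W →ₗ[F] W')
    (hT : Function.Injective T) : Quad F (T '' X) (N.map T) := by
  obtain ⟨Γ, hΓ⟩ := LinearMap.exists_leftInverse_of_injective T (LinearMap.ker_eq_bot.2 hT)
  have hΓT : ∀ w, Γ (T w) = w := fun w => LinearMap.congr_fun hΓ w
  intro l hl
  have h1 : l.comp T ∈ Submodule.span (AlgebraicClosure F) (Lset F X) :=
    hX _ fun w hw => hl _ (Submodule.mem_map_of_mem hw)
  have h2 : (l.comp T).comp Γ ∈ Submodule.span (AlgebraicClosure F) (Lset F (T '' X)) := by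
    refine QUADB_span Γ (Lset F X) _ ?_ _ h1
    rintro l' ⟨α, d, hα⟩
    refine ⟨α.comp Γ, d, ?_⟩
    rintro _ ⟨w, hw, rfl⟩
    rw [LinearMap.comp_apply, LinearMap.comp_apply, hΓT]
    exact hα w hw
  have h3 : l - (l.comp T).comp Γ ∈ Lset F (T '' X) := by
    refine ⟨0, 0, ?_⟩
    rintro _ ⟨w, hw, rfl⟩
    rw [LinearMap.sub_apply, LinearMap.comp_apply, LinearMap.comp_apply, hΓT, sub_self]
    simp
  have h4 := Submodule.add_mem _ (Submodule.subset_span h3) h2
  rwa [sub_add_cancel] at h4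

end Pool.Agent.B2g
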