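import Pool.Agent.B2g.Defs

/-! Module QSQ (MP_491344_nt, text MP_491344_nt_b2g_helper7.md). -/

namespace Pool.Agent.B2g

variable {F : Type*} [Field F] {W : Type*} [AddCommGroup W] [Module F W]

/-- The algebra maps span the space of linear maps. -/
theorem QSQ_top (K : Type*) [Field K] [Algebra F K] [FiniteDimensional F K]
    [Algebra.IsSeparable F K] :
    Submodule.span (AlgebraicClosure F)
      (Set.range (AlgHom.toLinearMap : (K →ₐ[F] AlgebraicClosure F) → K →ₗ[F] AlgebraicClosure F))
      = ⊤ := by
  have hli := linearIndependent_toLinearMap F K (AlgebraicClosure F)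
  refine hli.span_eq_top_of_card_eq_finrank' ?_
  rw [Module.finrank_linearMap, Module.finrank_self, mul_one]
  exact AlgHom.card F K (AlgebraicClosure F)

/-- Module QSQ.  Let `l` vanish on `ker π`: `l = φ ∘ π` with `φ : K → E` `F`-linear (first on
`range π`, then extended).  Every `F`-linear `φ : K → E`, `E` an algebraic closure of `F`, is an
`E`-combination of the `F`-algebra maps `σ : K → E` (there are `[K:F]` of them because `K/F` is
finite separable, they are `E`-linearly independent by `linearIndependent_monoidHom`, and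
`Hom_F(K,E)` has `E`-dimension `[K:F]`; or by the trace form).  And `σ ∘ π ∈ Lset`:
`(σ(π w))^2 = σ(π w ^2) = σ(ν w)`. -/
theorem quad_sq {K : Type*} [Field K] [Algebra F K] [FiniteDimensional F K]
    [Algebra.IsSeparable F K] (π μ : W →ₗ[F] K) :
    Quad F {w : W | π w ^ 2 = μ w} (LinearMap.ker π) := by
  intro l hl
  obtain ⟨φ, hφ⟩ : ∃ φ : K →ₗ[F] AlgebraicClosure F, φ.comp π = l := by
    obtain ⟨s, hs⟩ := LinearMap.exists_rightInverse_of_surjective π.rangeRestrict
      (LinearMap.range_rangeRestrict π)
    obtain ⟨g, hg⟩ := LinearMap.exists_extend (l.comp s)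
    refine ⟨g, LinearMap.ext fun w => ?_⟩
    have h1 : π (s (π.rangeRestrict w)) = π w := by
      have h2 := LinearMap.congr_fun hs (π.rangeRestrict w)
      exact congrArg Subtype.val h2
    have h4 : l (s (π.rangeRestrict w)) = l w := by
      have h6 := hl (s (π.rangeRestrict w) - w) (by
        rw [LinearMap.mem_ker, map_sub, h1, sub_self])
      rw [map_sub] at h6
      exact sub_eq_zero.1 h6
    have h7 := LinearMap.congr_fun hg (π.rangeRestrict w)
    rw [LinearMap.comp_apply, LinearMap.comp_apply] at h7
    rw [LinearMap.comp_apply, ← h4, ← h7]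
    rfl
  rw [← hφ]
  clear hφ hl
  have h1 : φ ∈ Submodule.span (AlgebraicClosure F)
      (Set.range (AlgHom.toLinearMap :
        (K →ₐ[F] AlgebraicClosure F) → K →ₗ[F] AlgebraicClosure F)) := by
    rw [QSQ_top]
    exact Submodule.mem_top
  induction h1 using Submodule.span_induction with
  | mem x hx =>
    obtain ⟨σ, rfl⟩ := hx
    refine Submodule.subset_span ⟨σ.toLinearMap.comp μ, 0, fun w hw => ?_⟩
    rw [LinearMap.comp_apply, LinearMap.comp_apply, AlgHom.toLinearMap_apply,
      AlgHom.toLinearMap_apply, ← map_pow, add_zero]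
    exact congrArg σ hw
  | zero =>
    rw [LinearMap.zero_comp]
    exact Submodule.zero_mem _
  | add x y _ _ hx hy =>
    rw [LinearMap.add_comp]
    exact Submodule.add_mem _ hx hy
  | smul c x _ hx =>
    rw [LinearMap.smul_comp]
    exact Submodule.smul_mem _ _ hx

end Pool.Agent.B2g
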