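import Pool.Agent.B2g.QuadA
import Pool.Agent.B2g.QuadB
import Pool.Agent.B2g.QuadSq
import Pool.Agent.B2g.Bez

/-! Module MERGE (MP_491344_nt, text MP_491344_nt_b2g_helper7.md). -/

namespace Pool.Agent.B2g

/-- Module MERGE (abstract merging lemma).  `k ⊂ K₁`, `k ⊂ K` finite fields, `Ψ : K₁ × k ≃ K`
`k`-linear, slopes `l, l₁, l₂ ∈ k` with `l ≠ l₁`, `l ≠ l₂`.  For all `τ₁ τ₂ : K` the number of
`(h, v) ∈ K × K` with `(h - l v)^2 = v` and, for `(h', v') = (τ₁ - h, τ₂ - v)`,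
`(h'₁ - l₁ v'₁)^2 = v'₁` and `(h'₂ - l₂ v'₂)^2 = v'₂` (`(x₁,x₂) = Ψ⁻¹ x`)
is at most `2 ^ (2 [K:k])`.
Proof: `W = K × K` over `k`.  `X₁ = {(h - l v)^2 = v}`: `quad_sq` with `π = h - l v`, `μ = v` (values
in `K`).  `X₂ = {((Ψ⁻¹(h))₁ - l₁ (Ψ⁻¹ v)₁)^2 = (Ψ⁻¹ v)₁}` with values in `K₁`, `X₃` similarly with
values in `k`; pull back by `w ↦ τ - w` (`quad_comap` with `L = -id`; its asymptotic space is the
same subspace).  `quad_inf`.  The intersection of the three kernels: `h = l v`,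
`(l - l₁)(Ψ⁻¹ v)₁ = 0`, `(l - l₂)(Ψ⁻¹ v)₂ = 0`, so `v = 0`, `h = 0`.  `bez` with `Ω = ⊤`,
`finrank (K × K) = 2 [K:k]`. -/
theorem merge {k K₁ K : Type*} [Field k] [Field K₁] [Field K] [Finite k] [Finite K₁] [Finite K]
    [Algebra k K₁] [Algebra k K] (Ψ : (K₁ × k) ≃ₗ[k] K) (l l₁ l₂ : k) (h1 : l ≠ l₁)
    (h2 : l ≠ l₂) (τ₁ τ₂ : K) :
    {w : K × K | (w.1 - l • w.2) ^ 2 = w.2 ∧
      ((Ψ.symm (τ₁ - w.1)).1 - l₁ • (Ψ.symm (τ₂ - w.2)).1) ^ 2 = (Ψ.symm (τ₂ - w.2)).1 ∧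
      ((Ψ.symm (τ₁ - w.1)).2 - l₂ • (Ψ.symm (τ₂ - w.2)).2) ^ 2 =
        (Ψ.symm (τ₂ - w.2)).2}.encard ≤ ((2 ^ (2 * Module.finrank k K) : ℕ) : ℕ∞) := by
  have hK1 : Module.Finite k K₁ := Module.Finite.of_finite
  have hK : Module.Finite k K := Module.Finite.of_finite
  -- the three quadrics
  let p₁ : (K × K) →ₗ[k] K := LinearMap.fst k K K - l • LinearMap.snd k K K
  let A₁ : (K × K) →ₗ[k] K₁ := (LinearMap.fst k K₁ k).comp (Ψ.symm.toLinearMap.comp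
    (LinearMap.fst k K K))
  let B₁ : (K × K) →ₗ[k] K₁ := (LinearMap.fst k K₁ k).comp (Ψ.symm.toLinearMap.comp
    (LinearMap.snd k K K))
  let A₂ : (K × K) →ₗ[k] k := (LinearMap.snd k K₁ k).comp (Ψ.symm.toLinearMap.comp
    (LinearMap.fst k K K))
  let B₂ : (K × K) →ₗ[k] k := (LinearMap.snd k K₁ k).comp (Ψ.symm.toLinearMap.comp
    (LinearMap.snd k K K))
  have q1 : Quad k {w : K × K | p₁ w ^ 2 = LinearMap.snd k K K w} (LinearMap.ker p₁) :=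
    quad_sq p₁ (LinearMap.snd k K K)
  have q2 : Quad k {w : K × K | (A₁ - l₁ • B₁) w ^ 2 = B₁ w} (LinearMap.ker (A₁ - l₁ • B₁)) :=
    quad_sq (A₁ - l₁ • B₁) B₁
  have q3 : Quad k {w : K × K | (A₂ - l₂ • B₂) w ^ 2 = B₂ w} (LinearMap.ker (A₂ - l₂ • B₂)) :=
    quad_sq (A₂ - l₂ • B₂) B₂
  have q2' := quad_comap q2 (-LinearMap.id) (τ₁, τ₂)
  have q3' := quad_comap q3 (-LinearMap.id) (τ₁, τ₂)
  have q := quad_inf q1 (quad_inf q2' q3')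
  have hbot : (LinearMap.ker p₁ ⊓ ((LinearMap.ker (A₁ - l₁ • B₁)).comap (-LinearMap.id) ⊓
      (LinearMap.ker (A₂ - l₂ • B₂)).comap (-LinearMap.id))) ⊓ ⊤ = ⊥ := by
    rw [inf_top_eq, eq_bot_iff]
    rintro ⟨h, v⟩ ⟨e1, e2, e3⟩
    have e1' : h = l • v := sub_eq_zero.1 e1
    have e2' : (Ψ.symm (-h)).1 - l₁ • (Ψ.symm (-v)).1 = 0 := e2
    have e3' : (Ψ.symm (-h)).2 - l₂ • (Ψ.symm (-v)).2 = 0 := e3
    rw [e1', ← smul_neg, map_smul, Prod.smul_fst, ← sub_smul] at e2'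
    rw [e1', ← smul_neg, map_smul, Prod.smul_snd, ← sub_smul] at e3'
    have f1 : (Ψ.symm (-v)).1 = 0 := (smul_eq_zero.1 e2').resolve_left (sub_ne_zero.2 h1)
    have f2 : (Ψ.symm (-v)).2 = 0 := (smul_eq_zero.1 e3').resolve_left (sub_ne_zero.2 h2)
    have f3 : Ψ.symm (-v) = 0 := Prod.ext f1 f2
    have f4 : v = 0 := by
      rw [LinearEquiv.map_eq_zero_iff] at f3
      exact neg_eq_zero.1 f3
    rw [Submodule.mem_bot]
    refine Prod.ext ?_ f4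
    change h = 0
    rw [e1', f4, smul_zero]
  have hr : Module.finrank k (⊤ : Submodule k (K × K)) ≤ 2 * Module.finrank k K := by
    rw [finrank_top, Module.finrank_prod]
    omega
  refine le_trans (Set.encard_le_encard ?_) (bez hr q hbot 0)
  rintro ⟨h, v⟩ ⟨e1, e2, e3⟩
  refine ⟨⟨e1, ?_, ?_⟩, Submodule.mem_top⟩
  · have g1 : τ₁ + -h = τ₁ - h := (sub_eq_add_neg _ _).symm
    have g2 : τ₂ + -v = τ₂ - v := (sub_eq_add_neg _ _).symm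
    change ((Ψ.symm (τ₁ + -h)).1 - l₁ • (Ψ.symm (τ₂ + -v)).1) ^ 2 = (Ψ.symm (τ₂ + -v)).1
    rw [g1, g2]
    exact e2
  · have g1 : τ₁ + -h = τ₁ - h := (sub_eq_add_neg _ _).symm
    have g2 : τ₂ + -v = τ₂ - v := (sub_eq_add_neg _ _).symm
    change ((Ψ.symm (τ₁ + -h)).2 - l₂ • (Ψ.symm (τ₂ + -v)).2) ^ 2 = (Ψ.symm (τ₂ + -v)).2
    rw [g1, g2]
    exact e3

end Pool.Agent.B2g
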