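import Pool.Agent.B2g.MapsB

/-! Module SETA (MP_491344_nt, text MP_491344_nt_b2g_helper7.md). -/

namespace Pool.Agent.B2g

variable {p ν : ℕ} [Fact p.Prime] {Φ : Flds p ν} {η : ℕ → (V p →ₗ[ZMod p] V p)}

theorem A_zero (D : ℕ) : A η Φ 0 D = {0} := rfl

theorem A_small {D : ℕ} (j : ℕ) (h : D < st ν 0) : A η Φ j D = {0} := by
  cases j with
  | zero => rfl
  | succ j => simp [A, h]

/-- Module SETA. -/
theorem mem_A_succ {j D : ℕ} (h : st ν 0 ≤ D) {a : V p} : a ∈ A η Φ (j + 1) D ↔
    ∃ w : V p, pm Φ (bi ν D) w ^ 2 = vm Φ (bi ν D) w ∧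
      tl p (Bl ν (bi ν D)) w ∈ A η Φ j (D - Bl ν (bi ν D)) ∧ a = G ν η (bi ν D) w := by
  simp only [A]
  rw [if_neg (not_lt.2 h)]
  rfl

private theorem SETA_E_congr {m : ℕ} {y z : ℕ → ZMod p} (h : ∀ i < Bl ν m, y i = z i) :
    Φ.E m y = Φ.E m z := by
  rw [← sub_eq_zero, ← map_sub, Φ.ker]
  intro i hi
  rw [Pi.sub_apply, h i hi, sub_self]

private theorem SETA_E_inj {m : ℕ} {y z : ℕ → ZMod p} (h : Φ.E m y = Φ.E m z) :
    ∀ i < Bl ν m, y i = z i := by
  rw [← sub_eq_zero, ← map_sub, Φ.ker] at h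
  intro i hi
  exact sub_eq_zero.1 (h i hi)

/-- Module SETA: `pm Φ m w` depends only on the positions below `Bl ν m`. -/
theorem pm_congr {m : ℕ} {w z : V p} (h : ∀ i < Bl ν m, w i = z i) : pm Φ m w = pm Φ m z := by
  unfold pm
  refine SETA_E_congr fun i hi => ?_
  change (w i).1 - (m : ZMod p) * (w i).2 = (z i).1 - (m : ZMod p) * (z i).2
  rw [h i hi]

/-- Module SETA. -/
theorem vm_congr {m : ℕ} {w z : V p} (h : ∀ i < Bl ν m, w i = z i) : vm Φ m w = vm Φ m z := by
  unfold vm
  refine SETA_E_congr fun i hi => ?_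
  change (w i).2 = (z i).2
  rw [h i hi]

/-- Module SETA: `pm` and `vm` together are injective on the first `Bl ν m` positions. -/
theorem eq_of_pm_vm {m : ℕ} {w z : V p} (h1 : pm Φ m w = pm Φ m z) (h2 : vm Φ m w = vm Φ m z) :
    ∀ i < Bl ν m, w i = z i := by
  unfold pm at h1
  unfold vm at h2
  intro i hi
  have e2 := SETA_E_inj h2 i hi
  have e1 := SETA_E_inj h1 i hi
  change (w i).2 = (z i).2 at e2
  change (w i).1 - (m : ZMod p) * (w i).2 = (z i).1 - (m : ZMod p) * (z i).2 at e1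
  refine Prod.ext ?_ e2
  rw [e2] at e1
  exact sub_left_injective e1

/-- Module SETA: every pair `(x, y)` is `(pm, vm)` of a vector supported in `[0, Bl ν m)`. -/
theorem exists_pm_vm (m : ℕ) (x y : GaloisField p (Bl ν m)) :
    ∃ w : V p, pm Φ m w = x ∧ vm Φ m w = y ∧ ∀ i, Bl ν m ≤ i → w i = 0 := by
  obtain ⟨x', hx'⟩ := Φ.surj m x
  obtain ⟨y', hy'⟩ := Φ.surj m y
  refine ⟨fun i => if i < Bl ν m then (x' i + (m : ZMod p) * y' i, y' i) else 0, ?_, ?_, ?_⟩
  · rw [← hx']
    unfold pm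
    refine SETA_E_congr fun i hi => ?_
    change ((if i < Bl ν m then (x' i + (m : ZMod p) * y' i, y' i) else 0 : ZMod p × ZMod p)).1 -
      (m : ZMod p) * ((if i < Bl ν m then (x' i + (m : ZMod p) * y' i, y' i) else 0 : ZMod p × ZMod p)).2 = x' i
    rw [if_pos hi]
    change x' i + (m : ZMod p) * y' i - (m : ZMod p) * y' i = x' i
    ring
  · rw [← hy']
    unfold vm
    refine SETA_E_congr fun i hi => ?_
    change ((if i < Bl ν m then (x' i + (m : ZMod p) * y' i, y' i) else 0 : ZMod p × ZMod p)).2 = y' i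
    rw [if_pos hi]
  · intro i hi
    exact if_neg (not_lt.2 hi)

/-- Module SETA. -/
theorem zero_mem_A (j D : ℕ) : (0 : V p) ∈ A η Φ j D := by
  induction j generalizing D with
  | zero => exact Set.mem_singleton _
  | succ j ih =>
    by_cases h : D < st ν 0
    · rw [A_small _ h]
      exact Set.mem_singleton _
    · rw [mem_A_succ (not_lt.1 h)]
      refine ⟨0, ?_, ?_, ?_⟩
      · rw [map_zero, map_zero]
        exact zero_pow (by norm_num)
      · rw [map_zero]
        exact ih _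
      · rw [map_zero]

/-- Module SETA. -/
theorem A_mono (j D : ℕ) : A η Φ j D ⊆ A η Φ (j + 1) D := by
  induction j generalizing D with
  | zero =>
    intro a ha
    rw [A_zero, Set.mem_singleton_iff] at ha
    rw [ha]
    exact zero_mem_A _ _
  | succ j ih =>
    intro a ha
    by_cases h : D < st ν 0
    · rw [A_small _ h] at ha ⊢
      exact ha
    · rw [mem_A_succ (not_lt.1 h)] at ha ⊢
      obtain ⟨w, h1, h2, h3⟩ := ha
      exact ⟨w, h1, ih _ h2, h3⟩

/-- Module SETA: induction on `j`, `supp_G`, `st ν (bi ν D) ≤ D`. -/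
theorem supp_A (hη : ∀ m, ShOK ν m (η m)) {j D : ℕ} {a : V p} (ha : a ∈ A η Φ j D) :
    ∀ i, D ≤ i → a i = 0 := by
  induction j generalizing D a with
  | zero =>
    rw [A_zero, Set.mem_singleton_iff] at ha
    intro i _
    rw [ha]
    rfl
  | succ j ih =>
    by_cases h : D < st ν 0
    · rw [A_small _ h, Set.mem_singleton_iff] at ha
      intro i _
      rw [ha]
      rfl
    · rw [mem_A_succ (not_lt.1 h)] at ha
      obtain ⟨w, h1, h2, h3⟩ := ha
      rw [h3]
      refine supp_G hη (bi_spec (not_lt.1 h)).1 fun i hi => ?_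
      have hB := Bl_bi_le (not_lt.1 h)
      have h4 := ih h2 (i - Bl ν (bi ν D)) (by omega)
      rw [tl_apply] at h4
      rwa [Nat.sub_add_cancel (by omega)] at h4

/-- Module SETA: `A j D` depends only on the shears with index `< m` if `D < st 0` or
`bi D < m`. (induction on `j`; `bi (D - Bl) ≤ bi D`.) -/
theorem A_congr {η' : ℕ → (V p →ₗ[ZMod p] V p)} {m : ℕ} (h : ∀ k < m, η k = η' k) {j D : ℕ}
    (hD : D < st ν 0 ∨ bi ν D < m) : A η Φ j D = A η' Φ j D := by
  induction j generalizing D with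
  | zero => rfl
  | succ j ih =>
    by_cases h0 : D < st ν 0
    · rw [A_small _ h0, A_small _ h0]
    · have hm : bi ν D < m := by
        rcases hD with h1 | h1
        · exact absurd h1 h0
        · exact h1
      have hG : G ν η (bi ν D) = G ν η' (bi ν D) := G_congr fun k hk => h k (by omega)
      have hA : A η Φ j (D - Bl ν (bi ν D)) = A η' Φ j (D - Bl ν (bi ν D)) :=
        ih (Or.inr (lt_of_le_of_lt (bi_mono ν (Nat.sub_le _ _)) hm))
      ext a
      rw [mem_A_succ (not_lt.1 h0), mem_A_succ (not_lt.1 h0), hG, hA]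

end Pool.Agent.B2g
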