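import Pool.Agent.B2g.Merge
import Pool.Agent.B2g.SetA

/-! Module NEAR1 (MP_491344_nt, text MP_491344_nt_b2g_helper7.md). -/

namespace Pool.Agent.B2g

variable {p ν : ℕ} [Fact p.Prime] {Φ : Flds p ν} {η : ℕ → (V p →ₗ[ZMod p] V p)}

theorem NEAR1_cast {p N a b : ℕ} [Fact p.Prime] (h : b < a) (h2 : a < b + p) :
    (a : GaloisField p N) ≠ (b : GaloisField p N) := by
  intro he
  have h3 : ((a - b : ℕ) : GaloisField p N) = 0 := by
    rw [Nat.cast_sub h.le, he, sub_self]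
  rw [CharP.cast_eq_zero_iff (GaloisField p N) p] at h3
  have := Nat.le_of_dvd (by omega) h3
  omega

theorem NEAR1_pm (Φ : Flds p ν) (m : ℕ) (w : V p) :
    pm Φ m w = Φ.E m (fun i => (w i).1) - m • Φ.E m (fun i => (w i).2) := by
  have h1 : pm Φ m w = Φ.E m (fun i => (w i).1 - (m : ZMod p) * (w i).2) := rfl
  have h2 : (fun i => (w i).1 - (m : ZMod p) * (w i).2) =
      (fun i => (w i).1) - (m : ZMod p) • (fun i => (w i).2) := by
    funext i; rfl
  rw [h1, h2, map_sub, map_smul, Nat.cast_smul_eq_nsmul]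

/-- Module NEAR1.  Translate `merge` to positions: by `Flds.compat` (`f`, `g` make
`GaloisField p (Bl (m-1))` and `GaloisField p (Bl m)` algebras over
`k = GaloisField p (Bl (ui m))`).  For a vector `w` put
`h = Φ.E m (first coordinates)`, `v = Φ.E m (second coordinates) = vm w`; then
`pm m w = h - m v`, and for `z = τ - w`: `pm (m-1) z`, `vm (m-1) z`,
`pm (ui m) (tl (Bl (m-1)) z)`, `vm (ui m) (tl ..)` are the components of `Ψ⁻¹`.
`[K:k] = Bl m / Bl (ui m) ≤ 2 n` (`Bl_upper`, `Bl m / Un (m-1) ≤ 2n`: `Bl m = Bl (m-1) + Un (m-1) ≤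
2 n Un (m-1)`).  The number of restrictions of `w` to the positions below `Bl m` (here: of `w`
supported in `[0, Bl m)`) is at most `2 ^ (4 n)`. -/
theorem near_first (hp : 2 ^ ν * (ν + 3) < p) {m : ℕ} (hm : 1 ≤ m) (h : ν ≤ (m - 1) / 2 ^ ν)
    (hu : m < ui ν m + 2 ^ ν * (ν + 3)) (τ : V p) :
    {w : V p | (∀ i, Bl ν m ≤ i → w i = 0) ∧ pm Φ m w ^ 2 = vm Φ m w ∧
      pm Φ (m - 1) (τ - w) ^ 2 = vm Φ (m - 1) (τ - w) ∧
      pm Φ (ui ν m) (tl p (Bl ν (m - 1)) (τ - w)) ^ 2 =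
        vm Φ (ui ν m) (tl p (Bl ν (m - 1)) (τ - w))}.encard ≤ ((2 ^ (4 * 2 ^ ν) : ℕ) : ℕ∞) := by
  obtain ⟨f, g, Ψ, hΨ, hE⟩ := Φ.compat m hm h
  obtain ⟨hBu, hBm, hlt⟩ := Bl_ui hm h
  let _ : Algebra (GaloisField p (Bl ν (ui ν m))) (GaloisField p (Bl ν (m - 1))) := f.toAlgebra
  let _ : Algebra (GaloisField p (Bl ν (ui ν m))) (GaloisField p (Bl ν m)) := g.toAlgebra
  let Ψ' : (GaloisField p (Bl ν (m - 1)) × GaloisField p (Bl ν (ui ν m)))
      ≃ₗ[GaloisField p (Bl ν (ui ν m))] GaloisField p (Bl ν m) :=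
    { Ψ with
      map_smul' := by
        rintro c ⟨a, b⟩
        exact hΨ c a b }
  have hΨ' : ∀ y : ℕ → ZMod p, Ψ'.symm (Φ.E m y) =
      (Φ.E (m - 1) y, Φ.E (ui ν m) (fun i => y (i + Bl ν (m - 1)))) := by
    intro y
    rw [LinearEquiv.symm_apply_eq]
    exact hE y
  have hcast1 : ((m : ℕ) : GaloisField p (Bl ν (ui ν m))) ≠ ((m - 1 : ℕ) : GaloisField p _) := by
    apply NEAR1_cast
    · omega
    · have := (Fact.out : p.Prime).one_lt
      omega
  have hcast2 : ((m : ℕ) : GaloisField p (Bl ν (ui ν m))) ≠ ((ui ν m : ℕ) : GaloisField p _) :=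
    NEAR1_cast hlt (by omega)
  have hmerge := merge Ψ' (m : GaloisField p (Bl ν (ui ν m)))
    ((m - 1 : ℕ) : GaloisField p (Bl ν (ui ν m))) ((ui ν m : ℕ) : GaloisField p (Bl ν (ui ν m)))
    hcast1 hcast2 (Φ.E m (fun i => (τ i).1)) (Φ.E m (fun i => (τ i).2))
  -- the degree
  have hfin : Module.finrank (GaloisField p (Bl ν (ui ν m))) (GaloisField p (Bl ν m)) ≤
      2 * 2 ^ ν := by
    have hB0 : ∀ l, Bl ν l ≠ 0 := fun l => by have := lt_Bl ν l; omega
    have hc := Module.natCard_eq_pow_finrank (K := GaloisField p (Bl ν (ui ν m)))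
      (V := GaloisField p (Bl ν m))
    rw [GaloisField.card p _ (hB0 m), GaloisField.card p _ (hB0 _), ← pow_mul] at hc
    have hc' := Nat.pow_right_injective (Fact.out : p.Prime).two_le hc
    have h1 := Bl_upper ν (m - 1)
    have h2 : 0 < Un ν (m - 1) := Un_pos ν (m - 1)
    rw [hBu] at hBm
    obtain ⟨r, hr⟩ : ∃ r, r = Module.finrank (GaloisField p (Bl ν (ui ν m)))
      (GaloisField p (Bl ν m)) := ⟨_, rfl⟩
    rw [← hr] at hc' ⊢
    rw [hBu] at hc'
    by_contra hcon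
    rw [not_le] at hcon
    have h3 : Un ν (m - 1) * (2 * 2 ^ ν + 1) ≤ Un ν (m - 1) * r := Nat.mul_le_mul_left _ hcon
    rw [← hc', hBm] at h3
    nlinarith
  refine le_trans ?_ (le_trans hmerge ?_)
  · refine Set.encard_le_encard_of_injOn
      (f := fun w : V p => (Φ.E m (fun i => (w i).1), Φ.E m (fun i => (w i).2))) ?_ ?_
    · rintro w ⟨hw0, hw1, hw2, hw3⟩
      have e1 : Φ.E m (fun i => (τ i).1) - Φ.E m (fun i => (w i).1) =
          Φ.E m (fun i => ((τ - w) i).1) := by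
        rw [← map_sub]; rfl
      have e2 : Φ.E m (fun i => (τ i).2) - Φ.E m (fun i => (w i).2) =
          Φ.E m (fun i => ((τ - w) i).2) := by
        rw [← map_sub]; rfl
      refine ⟨?_, ?_, ?_⟩
      · rw [NEAR1_pm] at hw1
        rw [Nat.cast_smul_eq_nsmul]
        exact hw1
      · rw [NEAR1_pm] at hw2
        show ((Ψ'.symm (_ - _)).1 - _ • (Ψ'.symm (_ - _)).1) ^ 2 = (Ψ'.symm (_ - _)).1
        rw [e1, e2, hΨ', hΨ', Nat.cast_smul_eq_nsmul]
        exact hw2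
      · rw [NEAR1_pm] at hw3
        show ((Ψ'.symm (_ - _)).2 - _ • (Ψ'.symm (_ - _)).2) ^ 2 = (Ψ'.symm (_ - _)).2
        rw [e1, e2, hΨ', hΨ', Nat.cast_smul_eq_nsmul]
        exact hw3
    · rintro w ⟨hw0, _⟩ z ⟨hz0, _⟩ hwz
      have h1 : Φ.E m (fun i => (w i).1) = Φ.E m (fun i => (z i).1) := congrArg Prod.fst hwz
      have h2 : Φ.E m (fun i => (w i).2) = Φ.E m (fun i => (z i).2) := congrArg Prod.snd hwz
      rw [← sub_eq_zero, ← map_sub, Φ.ker] at h1 h2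
      funext i
      by_cases hi : i < Bl ν m
      · apply Prod.ext
        · exact sub_eq_zero.1 (h1 i hi)
        · exact sub_eq_zero.1 (h2 i hi)
      · rw [hw0 i (by omega), hz0 i (by omega)]
  · have : 2 ^ (2 * Module.finrank (GaloisField p (Bl ν (ui ν m))) (GaloisField p (Bl ν m))) ≤
        2 ^ (4 * 2 ^ ν) := Nat.pow_le_pow_right (by norm_num) (by omega)
    exact_mod_cast this

end Pool.Agent.B2g
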