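import Pool.Agent.B2g.Near1
import Pool.Agent.B2g.Cro
import Pool.Agent.B2g.SetA

/-! Module NEAR2 (MP_491344_nt, text MP_491344_nt_b2g_helper7.md). -/

namespace Pool.Agent.B2g

variable {p ν : ℕ} [Fact p.Prime] {Φ : Flds p ν} {η : ℕ → (V p →ₗ[ZMod p] V p)}

theorem NEAR2_lift (m : ℕ) (T : V p →ₗ[ZMod p] V p) (w : V p) :
    lift p m T w = tr p m w + sh p m (T (tl p m w)) := rfl

theorem NEAR2_tl_sh (m : ℕ) (w z : V p) : tl p m (tr p m w + sh p m z) = z := by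
  funext i
  show (if i + m < m then w (i + m) else 0) + (if i + m < m then 0 else z (i + m - m)) = z i
  rw [if_neg (by omega), if_neg (by omega), zero_add, Nat.add_sub_cancel]

theorem NEAR2_tr_sh (m : ℕ) (w z : V p) : tr p m (tr p m w + sh p m z) = tr p m w := by
  funext i
  show (if i < m then ((if i < m then w i else 0) + (if i < m then 0 else z (i - m))) else 0) =
    if i < m then w i else 0
  by_cases h : i < m
  · simp only [if_pos h, add_zero]
  · simp only [if_neg h]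

theorem NEAR2_first (m : ℕ) (w z : V p) : ∀ i < m, (tr p m w + sh p m z) i = w i := by
  intro i h
  show (if i < m then w i else 0) + (if i < m then 0 else z (i - m)) = w i
  rw [if_pos h, if_pos h, add_zero]

/-- the elements of `A j D` for a near scale `D` -/
theorem NEAR2_left (hν : 3 ≤ ν) {j D m : ℕ} (hm : m0 ν ≤ m)
    (h1 : Bl ν m + sl ν m / 4 < D) (h2 : D < st ν m) {a : V p} (ha : a ∈ A η Φ j D) :
    ∃ w : V p, a = H ν η m w ∧ pm Φ (m - 1) w ^ 2 = vm Φ (m - 1) w ∧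
      pm Φ (ui ν m) (tl p (Bl ν (m - 1)) w) ^ 2 = vm Φ (ui ν m) (tl p (Bl ν (m - 1)) w) ∧
      tl p (Bl ν m) w ∈ A η Φ (j - 2) (D - Bl ν m) := by
  obtain ⟨hst, hbi, hst', hbi', hsub, _⟩ := near_num hν hm h1 h2
  obtain ⟨hm1, hdiv⟩ := le_div_of_m0 hm
  obtain ⟨hBu, hBm, hlt⟩ := Bl_ui hm1 hdiv
  have htl : ∀ w : V p, tl p (Bl ν m) w = tl p (Bl ν (ui ν m)) (tl p (Bl ν (m - 1)) w) := by
    intro w
    funext i
    show w (i + Bl ν m) = w (i + Bl ν (ui ν m) + Bl ν (m - 1))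
    congr 1
    omega
  have hG : ∀ w : V p, H ν η m w = G ν η (m - 1) (tr p (Bl ν (m - 1)) w +
      sh p (Bl ν (m - 1)) (G ν η (ui ν m) (tl p (Bl ν (m - 1)) w))) := by
    intro w
    rw [H_eq hm1 hdiv]
    rfl
  match j, ha with
  | 0, ha =>
    have ha0 : a = 0 := ha
    refine ⟨0, by rw [ha0, map_zero], by rw [map_zero, map_zero]; simp,
      by rw [map_zero, map_zero, map_zero]; simp, ?_⟩
    rw [map_zero]
    exact zero_mem_A _ _
  | 1, ha =>
    rw [mem_A_succ hst, hbi] at ha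
    obtain ⟨w, hw1, hw2, hw3⟩ := ha
    have hw0 : tl p (Bl ν (m - 1)) w = 0 := hw2
    refine ⟨w, ?_, hw1, ?_, ?_⟩
    · rw [hG, hw0, map_zero, map_zero, hw3]
      have := tr_add_sh_tl (Bl ν (m - 1)) w
      rw [hw0, map_zero] at this
      rw [this]
    · rw [hw0, map_zero, map_zero]; simp
    · rw [htl, hw0, map_zero]
      exact zero_mem_A _ _
  | j2 + 2, ha =>
    rw [mem_A_succ hst, hbi] at ha
    obtain ⟨w1, hw1, hw2, hw3⟩ := ha
    rw [mem_A_succ hst', hbi', hsub] at hw2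
    obtain ⟨w2, hw4, hw5, hw6⟩ := hw2
    refine ⟨tr p (Bl ν (m - 1)) w1 + sh p (Bl ν (m - 1)) w2, ?_, ?_, ?_, ?_⟩
    · rw [hG, NEAR2_tl_sh, NEAR2_tr_sh, ← hw6, tr_add_sh_tl, hw3]
    · rw [pm_congr (NEAR2_first (Bl ν (m - 1)) w1 w2), vm_congr (NEAR2_first (Bl ν (m - 1)) w1 w2)]
      exact hw1
    · rw [NEAR2_tl_sh]
      exact hw4
    · rw [htl, NEAR2_tl_sh]
      exact hw5

/-- Module NEAR2.  `m = bi D'`, `D - Bl m = e`.  With `near_num` every `a ∈ A j D` is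
`a = H m w` with `pm (m-1) w ^2 = vm (m-1) w`, `pm (ui m) (tl (Bl (m-1)) w)^2 = vm ..`,
`tl (Bl m) w ∈ Y`, `Y = A (j-2) e` (`j ≥ 2`; `j - 2 = 0` gives `{0}`, so `Y = A (j - 2) e` in all
cases: for `j = 0` `w = 0`; for `j = 1` `tl (Bl (m-1)) w = 0`) (`H_eq`, `lift`).
`b = t - a ∈ A (j'+1) D'`: `b = G m w' = H m (w' + η m w')`, `pm m w' ^2 = vm m w'`,
`tl (Bl m) w' ∈ A j' (D' - Bl m)`.  `H` injective: `w + w' + η m w' = σ` is the same vector for
all solutions.  `η m w'` vanishes below `Bl m`, so the truncation `z = tr (Bl m) w'` satisfies the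
conditions of `near_first` with `τ = σ` (`pm_congr`, ...): at most `2^(4n)` values of `z`.  For
fixed `z`: `η m w' = η m z` is fixed, `tl w + tl w'` is fixed and `a` is determined by
`tl (Bl m) w` (the first positions of `w` are those of `σ - z`): `Cross Y (A j' e')`.
`encard_le_mul`. -/
theorem near (hν : 3 ≤ ν) (hp : 2 ^ ν * (ν + 3) < p) (hη : ∀ m, ShOK ν m (η m))
    {j D j' D' m R : ℕ} (hm : m0 ν ≤ m) (h0' : st ν 0 ≤ D') (hb' : bi ν D' = m)
    (h1 : Bl ν m + sl ν m / 4 < D) (h2 : D < st ν m)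
    (hR : Cross (A η Φ (j - 2) (D - Bl ν m)) (A η Φ j' (D' - Bl ν m)) R) :
    Cross (A η Φ j D) (A η Φ (j' + 1) D') (2 ^ (4 * 2 ^ ν) * R) := by
  classical
  intro t
  obtain ⟨_, _, _, _, _, hu⟩ := near_num hν hm h1 h2
  obtain ⟨hm1, hdiv⟩ := le_div_of_m0 hm
  obtain ⟨hBu, hBm, hlt⟩ := Bl_ui hm1 hdiv
  -- the data of a solution
  have hdata : ∀ a : V p, (a ∈ A η Φ j D ∧ t - a ∈ A η Φ (j' + 1) D') → ∃ q : V p × V p,
      a = H ν η m q.1 ∧ pm Φ (m - 1) q.1 ^ 2 = vm Φ (m - 1) q.1 ∧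
      pm Φ (ui ν m) (tl p (Bl ν (m - 1)) q.1) ^ 2 = vm Φ (ui ν m) (tl p (Bl ν (m - 1)) q.1) ∧
      tl p (Bl ν m) q.1 ∈ A η Φ (j - 2) (D - Bl ν m) ∧
      pm Φ m q.2 ^ 2 = vm Φ m q.2 ∧ tl p (Bl ν m) q.2 ∈ A η Φ j' (D' - Bl ν m) ∧
      t = H ν η m (q.1 + q.2 + η m q.2) := by
    rintro a ⟨ha, hb⟩
    obtain ⟨w, e1, e2, e3, e4⟩ := NEAR2_left hν hm h1 h2 ha
    rw [mem_A_succ h0', hb'] at hb
    obtain ⟨w', e5, e6, e7⟩ := hb
    refine ⟨(w, w'), e1, e2, e3, e4, e5, e6, ?_⟩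
    show t = H ν η m (w + w' + η m w')
    rw [G_eq] at e7
    have e8 : t = a + (H ν η m) (w' + η m w') := by
      have : (H ν η m).comp (LinearMap.id + η m) w' = H ν η m (w' + η m w') := rfl
      rw [← this, ← e7]
      abel
    rw [e8, e1, ← map_add, add_assoc]
  rcases Set.eq_empty_or_nonempty {a | a ∈ A η Φ j D ∧ t - a ∈ A η Φ (j' + 1) D'} with hS | hS
  · rw [hS, Set.encard_empty]; exact zero_le
  obtain ⟨a0, ha0⟩ := hS
  obtain ⟨q0, _, _, _, _, _, _, hq0⟩ := hdata a0 ha0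
  set σ : V p := q0.1 + q0.2 + η m q0.2 with hσ
  choose! q hq using hdata
  have hσ' : ∀ a : V p, (a ∈ A η Φ j D ∧ t - a ∈ A η Φ (j' + 1) D') →
      (q a).1 + (q a).2 + η m (q a).2 = σ := by
    intro a ha
    apply (uni_H hη m).injective
    rw [← (hq a ha).2.2.2.2.2.2, ← hq0]
  have hfirst : ∀ a : V p, (a ∈ A η Φ j D ∧ t - a ∈ A η Φ (j' + 1) D') → ∀ i < Bl ν m,
      (q a).1 i = (σ - tr p (Bl ν m) (q a).2) i := by
    intro a ha i hi
    have h3 := congrFun (hσ' a ha) i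
    have h4 : η m (q a).2 i = 0 := (hη m).2 _ i (Or.inl hi)
    have h5 : (q a).1 i + (q a).2 i + η m (q a).2 i = σ i := h3
    show (q a).1 i = σ i - (if i < Bl ν m then (q a).2 i else 0)
    rw [if_pos hi, ← h5, h4, add_zero]
    abel
  refine encard_le_mul _ (fun a => tr p (Bl ν m) (q a).2) ?_ ?_
  · refine le_trans (Set.encard_le_encard ?_) (near_first (Φ := Φ) hp hm1 hdiv hu σ)
    rintro _ ⟨a, ha, rfl⟩
    obtain ⟨e1, e2, e3, e4, e5, e6, e7⟩ := hq a ha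
    refine ⟨?_, ?_, ?_, ?_⟩
    · intro i hi
      show (if i < Bl ν m then (q a).2 i else 0) = 0
      rw [if_neg (by omega)]
    · have h3 : ∀ i < Bl ν m, tr p (Bl ν m) (q a).2 i = (q a).2 i := by
        intro i hi
        show (if i < Bl ν m then (q a).2 i else 0) = _
        rw [if_pos hi]
      show pm Φ m (tr p (Bl ν m) (q a).2) ^ 2 = vm Φ m (tr p (Bl ν m) (q a).2)
      rw [pm_congr h3, vm_congr h3]
      exact e5
    · have h3 : ∀ i < Bl ν (m - 1), (q a).1 i = (σ - tr p (Bl ν m) (q a).2) i :=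
        fun i hi => hfirst a ha i (by omega)
      show pm Φ (m - 1) (σ - tr p (Bl ν m) (q a).2) ^ 2 =
        vm Φ (m - 1) (σ - tr p (Bl ν m) (q a).2)
      rw [← pm_congr h3, ← vm_congr h3]
      exact e2
    · have h3 : ∀ i < Bl ν (ui ν m), tl p (Bl ν (m - 1)) (q a).1 i =
          tl p (Bl ν (m - 1)) (σ - tr p (Bl ν m) (q a).2) i := by
        intro i hi
        exact hfirst a ha (i + Bl ν (m - 1)) (by omega)
      show pm Φ (ui ν m) (tl p (Bl ν (m - 1)) (σ - tr p (Bl ν m) (q a).2)) ^ 2 =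
        vm Φ (ui ν m) (tl p (Bl ν (m - 1)) (σ - tr p (Bl ν m) (q a).2))
      rw [← pm_congr h3, ← vm_congr h3]
      exact e3
  · intro z
    refine le_trans ?_ (hR (tl p (Bl ν m) (σ - η m z)))
    refine Set.encard_le_encard_of_injOn (f := fun a => tl p (Bl ν m) (q a).1) ?_ ?_
    · rintro a ⟨ha, hz⟩
      obtain ⟨e1, e2, e3, e4, e5, e6, e7⟩ := hq a ha
      refine ⟨e4, ?_⟩
      have hz' : tr p (Bl ν m) (q a).2 = z := hz
      have h3 : η m (q a).2 = η m z := by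
        rw [← sub_eq_zero, ← map_sub]
        apply (hη m).1
        intro i hi
        rw [← hz']
        show (q a).2 i - (if i < Bl ν m then (q a).2 i else 0) = 0
        rw [if_pos hi, sub_self]
      have h4 : tl p (Bl ν m) (σ - η m z) - tl p (Bl ν m) (q a).1 = tl p (Bl ν m) (q a).2 := by
        rw [← map_sub, ← hσ' a ha, h3]
        congr 1
        abel
      show tl p (Bl ν m) (σ - η m z) - tl p (Bl ν m) (q a).1 ∈ _
      rw [h4]
      exact e6
    · rintro a ⟨ha, hz⟩ b ⟨hb, hz2⟩ hab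
      have hab' : tl p (Bl ν m) (q a).1 = tl p (Bl ν m) (q b).1 := hab
      have hza : tr p (Bl ν m) (q a).2 = z := hz
      have hzb : tr p (Bl ν m) (q b).2 = z := hz2
      rw [(hq a ha).1, (hq b hb).1]
      congr 1
      funext i
      by_cases hi : i < Bl ν m
      · rw [hfirst a ha i hi, hfirst b hb i hi, hza, hzb]
      · have h3 := congrFun hab' (i - Bl ν m)
        have h4 : (q a).1 (i - Bl ν m + Bl ν m) = (q b).1 (i - Bl ν m + Bl ν m) := h3
        rw [Nat.sub_add_cancel (by omega)] at h4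
        exact h4

end Pool.Agent.B2g
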