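import Pool.Agent.B2g.Defs

/-! Module NUMA (MP_491344_nt, text MP_491344_nt_b2g_helper7.md). -/

namespace Pool.Agent.B2g

/-- the starting index: `o(m) ≥ 2 ν + 8` for `m ≥ m0 ν` -/
def m0 (ν : ℕ) : ℕ := 2 ^ ν * (2 * ν + 8)

/-- step of the quotient and the remainder -/
theorem NUMA_step (n m : ℕ) (hn : 0 < n) :
    ((m + 1) / n = m / n ∧ (m + 1) % n = m % n + 1) ∨
      ((m + 1) / n = m / n + 1 ∧ (m + 1) % n = 0 ∧ m % n + 1 = n) := by
  have h1 := Nat.div_add_mod m n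
  have h2 := Nat.mod_lt m hn
  rcases Nat.lt_or_ge (m % n + 1) n with h | h
  · left
    have e : m + 1 = (m % n + 1) + n * (m / n) := by omega
    constructor
    · conv_lhs => rw [e]
      rw [Nat.add_mul_div_left _ _ hn, Nat.div_eq_of_lt h, Nat.zero_add]
    · conv_lhs => rw [e]
      rw [Nat.add_mul_mod_self_left, Nat.mod_eq_of_lt h]
  · right
    have h3 : m % n + 1 = n := by omega
    have e : m + 1 = n * (m / n + 1) := by
      rw [Nat.mul_add, Nat.mul_one]; omega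
    refine ⟨?_, ?_, h3⟩
    · conv_lhs => rw [e]
      rw [Nat.mul_div_cancel_left _ hn]
    · conv_lhs => rw [e]
      rw [Nat.mul_mod_right]

/-- Module NUMA.  Write `m = n o + c`, `c < n`.  If `c + 1 < n` then `(m+1) / n = o`,
`(m+1) % n = c+1`; if `c + 1 = n` then `(m+1)/n = o+1`, `(m+1) % n = 0` and
`n 2^(o+1) = 2 n 2^o = (n + (n-1)) 2^o + 2^o`. -/
theorem Bl_succ (ν m : ℕ) : Bl ν (m + 1) = Bl ν m + Un ν m := by
  unfold Bl Un
  rcases NUMA_step (2 ^ ν) m (by positivity) with ⟨h1, h2⟩ | ⟨h1, h2, h3⟩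
  · rw [h1, h2]; ring
  · rw [h1, h2]
    generalize 2 ^ ν = n at *
    have : n + m % n + 1 = 2 * n := by omega
    calc (n + 0) * 2 ^ (m / n + 1) = (2 * n) * 2 ^ (m / n) := by ring
      _ = (n + m % n + 1) * 2 ^ (m / n) := by rw [this]
      _ = _ := by ring

/-- Module NUMA. -/
theorem Un_pos (ν m : ℕ) : 0 < Un ν m := by
  unfold Un; positivity

/-- Module NUMA. -/
theorem Bl_strictMono (ν : ℕ) : StrictMono (Bl ν) := by
  refine strictMono_nat_of_lt_succ fun m => ?_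
  rw [Bl_succ]
  have := Un_pos ν m
  omega

/-- Module NUMA: `(n + c) 2^o ≥ (n + c)(1 + o) ≥ n + c + n o > m`. -/
theorem lt_Bl (ν m : ℕ) : m < Bl ν m := by
  have h0 : 0 < Bl ν 0 := by unfold Bl; positivity
  induction m with
  | zero => exact h0
  | succ m ih =>
    have := Bl_succ ν m
    have := Un_pos ν m
    omega

/-- Module NUMA. -/
theorem Bl_lower (ν m : ℕ) : 2 ^ ν * Un ν m ≤ Bl ν m := by
  unfold Bl Un
  exact Nat.mul_le_mul_right _ (Nat.le_add_right _ _)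

/-- Module NUMA. -/
theorem Bl_upper (ν m : ℕ) : Bl ν m < 2 * 2 ^ ν * Un ν m := by
  unfold Bl Un
  refine Nat.mul_lt_mul_of_pos_right ?_ (by positivity)
  have := Nat.mod_lt m (show 0 < 2 ^ ν by positivity)
  omega

/-- Module NUMA. -/
theorem Un_mono (ν : ℕ) : Monotone (Un ν) := by
  intro a b h
  unfold Un
  exact Nat.pow_le_pow_right (by norm_num) (Nat.div_le_div_right h)

/-- Module NUMA: `(m+1)/n ≤ m/n + 1`. -/
theorem Un_succ_le (ν m : ℕ) : Un ν (m + 1) ≤ 2 * Un ν m := by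
  unfold Un
  have h : (m + 1) / 2 ^ ν ≤ m / 2 ^ ν + 1 := by
    rcases NUMA_step (2 ^ ν) m (by positivity) with ⟨h1, _⟩ | ⟨h1, _, _⟩ <;> omega
  calc 2 ^ ((m + 1) / 2 ^ ν) ≤ 2 ^ (m / 2 ^ ν + 1) := Nat.pow_le_pow_right (by norm_num) h
    _ = _ := by ring

/-- Module NUMA: `sl ≤ Un / 2`. -/
theorem two_sl_le (ν m : ℕ) : 2 * sl ν m ≤ Un ν m := by
  unfold sl
  have h1 : Un ν m / (2 * 2 ^ ν) ≤ Un ν m / 2 := by
    refine Nat.div_le_div_left ?_ (by norm_num)
    have : 0 < 2 ^ ν := by positivity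
    omega
  omega

/-- Module NUMA. -/
theorem sl_mono (ν : ℕ) : Monotone (sl ν) := by
  intro a b h
  unfold sl
  exact Nat.div_le_div_right (Un_mono ν h)

/-- Module NUMA. -/
theorem st_le_Bl_succ (ν m : ℕ) : st ν m ≤ Bl ν (m + 1) := by
  have := Bl_succ ν m
  have := two_sl_le ν m
  unfold st
  omega

/-- Module NUMA. -/
theorem st_strictMono (ν : ℕ) : StrictMono (st ν) := by
  intro a b h
  unfold st
  have h1 := Bl_strictMono ν h
  have h2 := sl_mono ν h.le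
  omega

end Pool.Agent.B2g
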