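import Pool.Agent.B2g.NumA

/-! Module NUMB (MP_491344_nt, text MP_491344_nt_b2g_helper7.md). -/

namespace Pool.Agent.B2g

/-- Module NUMB: `st ν m ≤ D` implies `m < Bl ν m ≤ D`, so `Nat.findGreatest` finds the largest
such `m` (`Nat.findGreatest_spec`, `Nat.findGreatest_is_greatest`). -/
theorem bi_spec {ν D : ℕ} (h : st ν 0 ≤ D) : st ν (bi ν D) ≤ D ∧ D < st ν (bi ν D + 1) := by
  constructor
  · exact Nat.findGreatest_spec (P := fun m => st ν m ≤ D) (Nat.zero_le D) h
  · by_contra hc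
    push Not at hc
    have h1 : bi ν D + 1 ≤ D := by
      have := lt_Bl ν (bi ν D + 1)
      unfold st at hc
      omega
    exact Nat.findGreatest_is_greatest (P := fun m => st ν m ≤ D) (n := D)
      (Nat.lt_succ_self (bi ν D)) h1 hc

/-- Module NUMB. -/
theorem bi_eq {ν D m : ℕ} (h1 : st ν m ≤ D) (h2 : D < st ν (m + 1)) : bi ν D = m := by
  have h0 : st ν 0 ≤ D := le_trans ((st_strictMono ν).monotone (Nat.zero_le m)) h1
  obtain ⟨h3, h4⟩ := bi_spec h0
  have a : bi ν D < m + 1 := (st_strictMono ν).lt_iff_lt.1 (lt_of_le_of_lt h3 h2)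
  have b : m < bi ν D + 1 := (st_strictMono ν).lt_iff_lt.1 (lt_of_le_of_lt h1 h4)
  omega

/-- the value below the starting scale -/
theorem NUMB_bi_lt {ν D : ℕ} (h : D < st ν 0) : bi ν D = 0 := by
  unfold bi
  rw [Nat.findGreatest_eq_zero_iff]
  intro k _ _ hk
  have := (st_strictMono ν).monotone (Nat.zero_le k)
  omega

/-- Module NUMB. -/
theorem bi_mono (ν : ℕ) : Monotone (bi ν) := by
  intro a b h
  rcases Nat.lt_or_ge a (st ν 0) with h1 | h1
  · rw [NUMB_bi_lt h1]; exact Nat.zero_le _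
  · have h2 := (bi_spec h1).1
    have h3 := (bi_spec (le_trans h1 h)).2
    have := (st_strictMono ν).lt_iff_lt.1 (lt_of_le_of_lt (le_trans h2 h) h3)
    omega

/-- Module NUMB. -/
theorem Bl_bi_le {ν D : ℕ} (h : st ν 0 ≤ D) : Bl ν (bi ν D) ≤ D := by
  have h1 := (bi_spec h).1
  unfold st at h1
  omega

/-- Module NUMB: `D < st (m+1) = Bl m + Un m + sl (m+1)`, `sl (m+1) ≤ Un (m+1) / 2 ≤ Un m`. -/
theorem lt_Bl_bi_add {ν D : ℕ} (h : st ν 0 ≤ D) :
    D < Bl ν (bi ν D) + 2 * Un ν (bi ν D) := by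
  have h1 := (bi_spec h).2
  have h2 := Bl_succ ν (bi ν D)
  have h3 := two_sl_le ν (bi ν D + 1)
  have h4 := Un_succ_le ν (bi ν D)
  unfold st at h1
  omega

/-- Module NUMB (`1 ≤ ν`, so `2 Un ≤ Bl`). -/
theorem lt_two_mul_Bl_bi {ν D : ℕ} (hν : 1 ≤ ν) (h : st ν 0 ≤ D) : D < 2 * Bl ν (bi ν D) := by
  have h1 := lt_Bl_bi_add h
  have h2 := Bl_lower ν (bi ν D)
  have h3 : 2 ≤ 2 ^ ν := by
    calc 2 = 2 ^ 1 := by norm_num
      _ ≤ 2 ^ ν := Nat.pow_le_pow_right (by norm_num) hν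
  have h4 : 2 * Un ν (bi ν D) ≤ 2 ^ ν * Un ν (bi ν D) := Nat.mul_le_mul_right _ h3
  omega

/-- Module NUMB: induction on `j`; `bi` is monotone. -/
theorem le_bi_of_mem_used {ν j D k : ℕ} (h : k ∈ used ν j D) : k ≤ bi ν D := by
  induction j generalizing D with
  | zero => simp [used] at h
  | succ j ih =>
    unfold used at h
    split_ifs at h with h1
    · simp at h
    · rw [Finset.mem_insert] at h
      rcases h with h | h
      · exact h.le
      · exact le_trans (ih h) (bi_mono ν (Nat.sub_le _ _))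

/-- Module NUMB: the used blocks fit into `D`; `m ∈ used` implies `st 0 ≤ D`. -/
theorem st_le_of_mem_used {ν j D k : ℕ} (h : k ∈ used ν j D) : st ν 0 ≤ D := by
  cases j with
  | zero => simp [used] at h
  | succ j =>
    unfold used at h
    split_ifs at h with h1
    · simp at h
    · omega

end Pool.Agent.B2g
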