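import Pool.Agent.B2g.NumB

/-! Module NUMC (MP_491344_nt, text MP_491344_nt_b2g_helper7.md). -/

namespace Pool.Agent.B2g

theorem NUMC_div {ν m : ℕ} (hm : m0 ν ≤ m) : 2 * ν + 8 ≤ m / 2 ^ ν := by
  rw [Nat.le_div_iff_mul_le (by positivity), mul_comm]
  exact hm

theorem NUMC_div' {ν m : ℕ} (hm : m0 ν ≤ m) : 2 * ν + 7 ≤ (m - 1) / 2 ^ ν := by
  rw [Nat.le_div_iff_mul_le (by positivity)]
  have h1 : 2 ^ ν * (2 * ν + 8) ≤ m := hm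
  have h2 : 0 < 2 ^ ν := by positivity
  have h3 : 2 ^ ν * (2 * ν + 8) = (2 * ν + 7) * 2 ^ ν + 2 ^ ν := by ring
  omega

theorem NUMC_sl (ν m : ℕ) (h : ν + 1 ≤ m / 2 ^ ν) : sl ν m = 2 ^ (m / 2 ^ ν - ν - 1) := by
  unfold sl Un
  rw [show 2 * 2 ^ ν = 2 ^ (ν + 1) by ring, Nat.pow_div h (by norm_num)]
  congr 1

/-- Module NUMC (`m ≥ m0`): `sl m = 2^(o(m) - ν - 1)` is a power of two, at least `4`, and
`2 n sl m = Un m`. -/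
theorem sl_pow {ν m : ℕ} (hm : m0 ν ≤ m) :
    ∃ l, sl ν m = 2 ^ l ∧ 2 ≤ l ∧ 2 * 2 ^ ν * sl ν m = Un ν m := by
  have h := NUMC_div hm
  have h1 := NUMC_sl ν m (by omega)
  refine ⟨_, h1, by omega, ?_⟩
  rw [h1]
  unfold Un
  rw [show 2 * 2 ^ ν = 2 ^ (ν + 1) by ring, ← pow_add]
  congr 1
  omega

theorem NUMC_mul_div (ν a : ℕ) : 2 ^ ν * a / 2 ^ ν = a :=
  Nat.mul_div_cancel_left a (by positivity)

theorem NUMC_Bl (ν a : ℕ) : Bl ν (2 ^ ν * a) = 2 ^ (ν + a) := by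
  unfold Bl
  rw [Nat.mul_mod_right, NUMC_mul_div, add_zero, pow_add]

theorem NUMC_Un (ν a : ℕ) : Un ν (2 ^ ν * a) = 2 ^ a := by
  unfold Un
  rw [NUMC_mul_div]

/-- Module NUMC: `u = Un (m-1) = 2 ^ (o(m-1))`, `ui m = n (o(m-1) - ν)`, `Bl (ui m) = n 2^(o(m-1)-ν)
= u`. -/
theorem Bl_ui {ν m : ℕ} (hm : 1 ≤ m) (h : ν ≤ (m - 1) / 2 ^ ν) :
    Bl ν (ui ν m) = Un ν (m - 1) ∧ Bl ν m = Bl ν (m - 1) + Bl ν (ui ν m) ∧ ui ν m < m := by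
  have h1 : Bl ν (ui ν m) = Un ν (m - 1) := by
    unfold ui
    rw [NUMC_Bl]
    unfold Un
    congr 1
    omega
  refine ⟨h1, ?_, ?_⟩
  · rw [h1]
    obtain ⟨k, rfl⟩ : ∃ k, m = k + 1 := ⟨m - 1, by omega⟩
    rw [Nat.add_sub_cancel]
    exact Bl_succ ν k
  · unfold ui
    have h2 : 2 ^ ν * ((m - 1) / 2 ^ ν - ν) ≤ 2 ^ ν * ((m - 1) / 2 ^ ν) :=
      Nat.mul_le_mul_left _ (Nat.sub_le _ _)
    have h3 := Nat.mul_div_le (m - 1) (2 ^ ν)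
    omega

/-- Module NUMC: `m0 ν ≤ m` implies `ν ≤ (m-1) / 2 ^ ν`. -/
theorem le_div_of_m0 {ν m : ℕ} (hm : m0 ν ≤ m) : 1 ≤ m ∧ ν ≤ (m - 1) / 2 ^ ν := by
  have h := NUMC_div' hm
  refine ⟨?_, by omega⟩
  by_contra h1
  have h2 : m = 0 := by omega
  rw [h2] at h
  simp at h

/-- Module NUMC: the shear of the merged block fits:
`st (ui m) + Bl (m-1) ≤ st m`. (`sl (ui m) = (u/n)/(2n) ≤ Un m / (2n)`, `u = Un (m-1) ≤ Un m`.) -/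
theorem st_ui_le {ν m : ℕ} (hm : 1 ≤ m) (h : ν ≤ (m - 1) / 2 ^ ν) :
    Bl ν (m - 1) + st ν (ui ν m) ≤ st ν m := by
  obtain ⟨h1, h2, h3⟩ := Bl_ui hm h
  have h4 := sl_mono ν h3.le
  unfold st
  omega

/-- the estimates for the near and far cases: with `q = 2 ^ (o' - ν - 3)` -/
theorem NUMC_est {ν m : ℕ} (hν : 3 ≤ ν) (hm : m0 ν ≤ m) :
    ∃ q, 0 < q ∧ Un ν (ui ν m) = 8 * q ∧ sl ν (ui ν m) ≤ q ∧ 4 * q ≤ sl ν m ∧ sl ν m ≤ 8 * q ∧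
      Un ν (m - 1) = 2 ^ ((m - 1) / 2 ^ ν) ∧ 8 * q * 2 ^ ν = 2 ^ ((m - 1) / 2 ^ ν) := by
  have h := NUMC_div' hm
  obtain ⟨hm1, hm2⟩ := le_div_of_m0 hm
  set o := (m - 1) / 2 ^ ν with ho
  have hUn : Un ν (m - 1) = 2 ^ o := rfl
  have hUi : Un ν (ui ν m) = 2 ^ (o - ν) := NUMC_Un ν _
  have hdivui : ui ν m / 2 ^ ν = o - ν := NUMC_mul_div ν _
  have hslui : sl ν (ui ν m) = 2 ^ (o - ν - ν - 1) := by
    rw [NUMC_sl ν (ui ν m) (by rw [hdivui]; omega), hdivui]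
  have e8 : 2 ^ (o - ν) = 8 * 2 ^ (o - ν - 3) := by
    rw [show 8 = 2 ^ 3 by norm_num, ← pow_add]
    congr 1
    omega
  have hm' : m = m - 1 + 1 := by omega
  have hU1 : Un ν (m - 1) ≤ Un ν m := Un_mono ν (by omega)
  have hU2 : Un ν m ≤ 2 * Un ν (m - 1) := by
    have := Un_succ_le ν (m - 1)
    rwa [← hm'] at this
  refine ⟨2 ^ (o - ν - 3), by positivity, by rw [hUi, e8], ?_, ?_, ?_, hUn, ?_⟩
  · rw [hslui]
    exact Nat.pow_le_pow_right (by norm_num) (by omega)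
  · unfold sl
    rw [Nat.le_div_iff_mul_le (by positivity)]
    have : 4 * 2 ^ (o - ν - 3) * (2 * 2 ^ ν) = 2 ^ o := by
      rw [show 4 * 2 ^ (o - ν - 3) * (2 * 2 ^ ν) = 8 * 2 ^ (o - ν - 3) * 2 ^ ν by ring, ← e8,
        ← pow_add]
      congr 1
      omega
    rw [this, ← hUn]
    exact hU1
  · unfold sl
    apply Nat.div_le_of_le_mul
    have : 2 * 2 ^ ν * (8 * 2 ^ (o - ν - 3)) = 2 * 2 ^ o := by
      rw [← e8, mul_assoc, ← pow_add]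
      congr 2
      omega
    rw [this, ← hUn]
    exact hU2
  · rw [← e8, ← pow_add]
    congr 1
    omega

/-- Module NUMD (near pairs).  `m0 ν ≤ m`, `D = Bl m + e`, `sl m / 4 < e < sl m`, `3 ≤ ν`.
`u = Un (m-1)`, `s = sl m ≥ u/(2n)` and `s ≤ (2u)/(2n) = u/n`.
`bi D = m-1`: `st (m-1) ≤ Bl m ≤ D < st m`.  `D - Bl (m-1) = u + e`; `st (ui m) = u + (u/n)/(2n)`
`= u + u/(2n²) ≤ u + s/4 ≤ u + e` (`s/4 ≥ u/(8n)`, `n ≥ 8 ≥ 4`), and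
`u + e < u + u/n ≤ Bl (ui m + 1) ≤ st (ui m + 1)`. -/
theorem near_num {ν m D : ℕ} (hν : 3 ≤ ν) (hm : m0 ν ≤ m) (h1 : Bl ν m + sl ν m / 4 < D)
    (h2 : D < st ν m) :
    st ν 0 ≤ D ∧ bi ν D = m - 1 ∧ st ν 0 ≤ D - Bl ν (m - 1) ∧
      bi ν (D - Bl ν (m - 1)) = ui ν m ∧
      D - Bl ν (m - 1) - Bl ν (ui ν m) = D - Bl ν m ∧ m < ui ν m + 2 ^ ν * (ν + 3) := by
  obtain ⟨q, hq, e1, e2, e3, e4, e5, e6⟩ := NUMC_est hν hm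
  obtain ⟨hm1, hm2⟩ := le_div_of_m0 hm
  obtain ⟨k1, k2, k3⟩ := Bl_ui hm1 hm2
  have hm' : m - 1 + 1 = m := by omega
  have hst1 : st ν (m - 1) ≤ Bl ν m := by
    have := st_le_Bl_succ ν (m - 1)
    rwa [hm'] at this
  have hst0 : ∀ k, st ν 0 ≤ st ν k := fun k => (st_strictMono ν).monotone (Nat.zero_le k)
  have g0 := hst0 (m - 1)
  have g1 := hst0 (ui ν m)
  have hstui : st ν (ui ν m) = Bl ν (ui ν m) + sl ν (ui ν m) := rfl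
  have hstm : st ν m = Bl ν m + sl ν m := rfl
  have hBs : Bl ν (ui ν m + 1) = Bl ν (ui ν m) + Un ν (ui ν m) := Bl_succ ν _
  have hsts : st ν (ui ν m + 1) = Bl ν (ui ν m + 1) + sl ν (ui ν m + 1) := rfl
  refine ⟨by omega, bi_eq (by omega) (by rw [hm']; exact h2), by omega,
    bi_eq (by omega) (by omega), by omega, ?_⟩
  unfold ui
  have h3 : m - 1 < 2 ^ ν * ((m - 1) / 2 ^ ν + 1) := Nat.lt_mul_div_succ _ (by positivity)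
  have h4 : 2 ^ ν * ((m - 1) / 2 ^ ν + 1) = 2 ^ ν * ((m - 1) / 2 ^ ν - ν) + 2 ^ ν * (ν + 1) := by
    rw [← mul_add]
    congr 1
    omega
  have h5 : 2 ^ ν * (ν + 3) = 2 ^ ν * (ν + 1) + 2 * 2 ^ ν := by ring
  have h6 : 0 < 2 ^ ν := by positivity
  omega

end Pool.Agent.B2g
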