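import Pool.Agent.B2g.NumB

/-! Module NUMF (MP_491344_nt, text MP_491344_nt_b2g_helper7.md). -/

namespace Pool.Agent.B2g

/-- Module NUMF (straddling a power of two).  `D < 2^l ≤ D'`, both in block `k ≥ m0`:
`Bl (k+1) = 2^l`.  Since `Bl k ≤ D < 2^l ≤ D' < st (k+1) ≤ Bl (k+2)`; `2^l = Bl k'` with
`k' = n (l - ν)` (as `2^l > Bl k ≥ n`), strict monotonicity gives `k < k' < k+2`. -/
theorem strad_num {ν k l : ℕ} (h1 : Bl ν k < 2 ^ l) (h2 : 2 ^ l < st ν (k + 1)) :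
    Bl ν (k + 1) = 2 ^ l := by
  have hn : 2 ^ ν ≤ Bl ν k := by
    calc 2 ^ ν ≤ 2 ^ ν * Un ν k := Nat.le_mul_of_pos_right _ (Un_pos ν k)
      _ ≤ Bl ν k := Bl_lower ν k
  have hl : ν < l := by
    by_contra hcon
    push Not at hcon
    have h3 : 2 ^ l ≤ 2 ^ ν := Nat.pow_le_pow_right (by norm_num) hcon
    omega
  have hpos : 0 < 2 ^ ν := by positivity
  have hk' : Bl ν (2 ^ ν * (l - ν)) = 2 ^ l := by
    unfold Bl
    rw [Nat.mul_mod_right, Nat.mul_div_cancel_left _ hpos, Nat.add_zero, ← pow_add]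
    congr 1
    omega
  have hlt : k < 2 ^ ν * (l - ν) := by
    have h4 : Bl ν k < Bl ν (2 ^ ν * (l - ν)) := by rw [hk']; exact h1
    exact (Bl_strictMono ν).lt_iff_lt.1 h4
  have hlt2 : 2 ^ ν * (l - ν) < k + 1 + 1 := by
    have h4 : Bl ν (2 ^ ν * (l - ν)) < Bl ν (k + 1 + 1) := by
      rw [hk']
      exact lt_of_lt_of_le h2 (st_le_Bl_succ ν (k + 1))
    exact (Bl_strictMono ν).lt_iff_lt.1 h4
  have he : k + 1 = 2 ^ ν * (l - ν) := by omega
  rw [he, hk']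

end Pool.Agent.B2g
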