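import Pool.Agent.B2g.SetA
import Pool.Agent.B2g.NumE
import Pool.Agent.B2g.QuadA
import Pool.Agent.B2g.QuadB
import Pool.Agent.B2g.QuadSq

/-! Module QSET (MP_491344_nt, text MP_491344_nt_b2g_helper7.md). -/

namespace Pool.Agent.B2g

variable {p ν : ℕ} [Fact p.Prime] {Φ : Flds p ν} {η : ℕ → (V p →ₗ[ZMod p] V p)}

theorem QSET_zero (B : ℕ) (Λ : Set (ZMod p)) {S : Set (V p)} (hS : S = {0}) :
    ∃ N : Submodule (ZMod p) (V p),
      Quad (ZMod p) {z : V p | ∃ y : V p, (∀ i < B, y i = 0) ∧ z - y ∈ S} N ∧
      Slope N Λ B := by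
  let N : Submodule (ZMod p) (V p) :=
    { carrier := {w | ∀ i < B, w i = 0}
      add_mem' := by
        intro a b ha hb i hi
        simp only [Pi.add_apply, ha i hi, hb i hi, add_zero]
      zero_mem' := by intro i _; rfl
      smul_mem' := by
        intro c a ha i hi
        simp only [Pi.smul_apply, ha i hi, smul_zero] }
  refine ⟨N, quad_sub ?_, ?_⟩
  · rintro z ⟨y, hy, hz⟩
    rw [hS, Set.mem_singleton_iff, sub_eq_zero] at hz
    rw [hz]
    exact hy
  · intro w hw i hi hne _
    exact absurd (hw i hi) hne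

/-- Module QSET.  Induction on `j` (for all `D`, `B`).
`Z(j,D,B) = {z | ∃ y, (∀ i < B, y i = 0) ∧ z - y ∈ A j D}`.
Case `A = {0}` (`j = 0` or `D < st 0`): `Z` = the subspace of vectors vanishing below `B`;
`N` = this subspace (`quad_sub`), `Slope` is vacuous.
Case `m = bi D`, `Bl m ≤ B`: since `G m` is the identity on the vectors supported in `[Bl m, ∞)`
(`idOn_G`), `Z(j+1,D,B) = G m '' {w | pm w ^2 = vm w ∧ tl (Bl m) w ∈ Z'}` where `Z' = ` everything
if `B = Bl m` and `Z' = Z(j, D - Bl m, B - Bl m)` otherwise.
`quad_sq` (as `F = ZMod p`; the Galois field is finite separable), `quad_comap` (`L = tl`, `c = 0`),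
`quad_inf`, `quad_map`.  `N = (ker pm ⊓ N'.comap tl).map (G m)`, resp. `(ker pm).map (G m)`.
Slope: let `w ∈ ker pm ⊓ ..`, `z = G m w` have lowest nonzero position `i < B`; then `i` is the
lowest nonzero position of `w` too and `z i = w i` (`uni_G`).  If `i < Bl m`: `pm w = 0` gives
`(w i).1 = m (w i).2` (`Flds.ker`), so `(w i).2 ≠ 0`, slope `m`.  If `i ≥ Bl m`: use `N'` at
position `i - Bl m < B - Bl m` of `tl w`. -/
theorem quad_set (hη : ∀ m, ShOK ν m (η m)) (j D B : ℕ) (h : Spl ν j D B) :
    ∃ N : Submodule (ZMod p) (V p),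
      Quad (ZMod p) {z : V p | ∃ y : V p, (∀ i < B, y i = 0) ∧ z - y ∈ A η Φ j D} N ∧
      Slope N {x | ∃ k ∈ used ν j D, x = (k : ZMod p)} B := by
  induction j generalizing D B with
  | zero => exact QSET_zero B _ rfl
  | succ j ih =>
    by_cases hD : D < st ν 0
    · exact QSET_zero B _ (A_small (j + 1) hD)
    · have hD' : st ν 0 ≤ D := Nat.le_of_not_lt hD
      have h' : Bl ν (bi ν D) ≤ B ∧ (B = Bl ν (bi ν D) ∨
          Spl ν j (D - Bl ν (bi ν D)) (B - Bl ν (bi ν D))) := by
        rcases h with h | h
        · exact absurd h hD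
        · exact h
      set m := bi ν D with hm
      set M := Bl ν m with hM
      obtain ⟨hMB, hsp⟩ := h'
      have key : ∃ N : Submodule (ZMod p) (V p),
          Quad (ZMod p) {z : V p | ∃ y : V p, (∀ i < B - M, y i = 0) ∧
            z - y ∈ A η Φ j (D - M)} N ∧
          Slope N {x | ∃ k ∈ used ν j (D - M), x = (k : ZMod p)} (B - M) := by
        rcases hsp with hsp | hsp
        · refine ⟨⊤, quad_sub (fun _ _ => Submodule.mem_top), ?_⟩
          intro w _ i hi
          omega
        · exact ih (D - M) (B - M) hsp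
      obtain ⟨N', hQ', hS'⟩ := key
      refine ⟨(LinearMap.ker (pm Φ m) ⊓ N'.comap (tl p M)).map (G ν η m), ?_, ?_⟩
      · refine quad_mono ?_ le_rfl (quad_map (quad_inf (quad_sq (pm Φ m) (vm Φ m))
          (quad_comap hQ' (tl p M) 0)) (G ν η m) (uni_G hη m).injective)
        rintro z ⟨y, hy, hz⟩
        obtain ⟨w, hw1, hw2, hw3⟩ := (mem_A_succ hD').1 hz
        have hyG : G ν η m y = y := idOn_G hη m y (fun i hi => hy i (lt_of_lt_of_le hi hMB))
        have hpc : pm Φ m (w + y) = pm Φ m w := pm_congr (fun i hi => by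
          rw [Pi.add_apply, hy i (lt_of_lt_of_le hi hMB), add_zero])
        have hvc : vm Φ m (w + y) = vm Φ m w := vm_congr (fun i hi => by
          rw [Pi.add_apply, hy i (lt_of_lt_of_le hi hMB), add_zero])
        refine ⟨w + y, ⟨?_, ?_⟩, ?_⟩
        · show pm Φ m (w + y) ^ 2 = vm Φ m (w + y)
          rw [hpc, hvc]
          exact hw1
        · refine ⟨tl p M y, ?_, ?_⟩
          · intro i hi
            rw [tl_apply]
            exact hy _ (by omega)
          · rw [zero_add, map_add, add_sub_cancel_right]
            exact hw2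
        · rw [map_add, hyG, ← hw3, sub_add_cancel]
      · rintro u ⟨w, ⟨hwk, hwN⟩, rfl⟩ i hi hne hlow
        have hlow' : ∀ k < i, w k = 0 := by
          have := (uni_G hη m).congr_inv (m := i) (w := w) (z := 0) (by
            intro k hk
            rw [map_zero]
            exact hlow k hk)
          intro k hk
          exact this k hk
        have hui : G ν η m w i = w i := uni_G hη m w i hlow'
        rw [hui] at hne ⊢
        have hused : used ν (j + 1) D = insert m (used ν j (D - M)) := by
          show (if D < st ν 0 then (∅ : Finset ℕ) else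
            insert (bi ν D) (used ν j (D - Bl ν (bi ν D)))) = _
          rw [if_neg hD]
        by_cases hiM : i < M
        · have hk0 : pm Φ m w = 0 := hwk
          have hker := (Φ.ker m (fun i => (w i).1 - (m : ZMod p) * (w i).2)).1 hk0 i hiM
          have h1 : (w i).1 = (m : ZMod p) * (w i).2 := sub_eq_zero.1 hker
          refine ⟨(m : ZMod p), ⟨m, ?_, rfl⟩, (w i).2, ?_, ?_⟩
          · rw [hused]
            exact Finset.mem_insert_self _ _
          · intro h2
            apply hne
            rw [h2, mul_zero] at h1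
            exact Prod.ext h1 h2
          · exact Prod.ext h1 rfl
        · have hMi : M ≤ i := Nat.le_of_not_lt hiM
          have h1 : tl p M w (i - M) = w i := by
            rw [tl_apply, Nat.sub_add_cancel hMi]
          obtain ⟨lam, ⟨k, hk, rfl⟩, v, hv, hwv⟩ := hS' (tl p M w) hwN (i - M) (by omega)
            (by rw [h1]; exact hne) (by
              intro k hk
              rw [tl_apply]
              exact hlow' _ (by omega))
          refine ⟨(k : ZMod p), ⟨k, ?_, rfl⟩, v, hv, ?_⟩
          · rw [hused]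
            exact Finset.mem_insert_of_mem hk
          · rw [← h1]
            exact hwv

end Pool.Agent.B2g
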