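import Pool.Agent.B2g.Cro
import Pool.Agent.B2g.SetA

/-! Module SAME (MP_491344_nt, text MP_491344_nt_b2g_helper7.md). -/

namespace Pool.Agent.B2g

variable {p ν : ℕ} [Fact p.Prime] {Φ : Flds p ν} {η : ℕ → (V p →ₗ[ZMod p] V p)}

private theorem SAME_two (hp : p ≠ 2) (n : ℕ) : (2 : GaloisField p n) ≠ 0 := by
  intro h
  have h1 : ((2 : ℕ) : GaloisField p n) = 0 := by exact_mod_cast h
  rw [CharP.cast_eq_zero_iff (GaloisField p n) p 2] at h1
  have h2 : p.Prime := Fact.out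
  rcases (Nat.dvd_prime Nat.prime_two).1 h1 with h3 | h3
  · exact h2.one_lt.ne' h3
  · exact hp h3

/-- Module SAME.  Let `m = bi D = bi D'`, `S = {a ∈ A (j+1) D | t - a ∈ A (j'+1) D'}`.  If `S` is
empty: clear.  Otherwise `t = G τ` with `τ = w + w'` independent of the element of `S`
(`G` injective).  `x = pm w`, `x' = pm τ - x`, `x^2 = vm w`, `x'^2 = vm w' = vm τ - x^2`, so
`2 x^2 - 2 (pm τ) x + (pm τ)^2 - vm τ = 0`: at most two values of `x = pm w` (`2 ≠ 0` in the Galois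
field because `p ≠ 2`).  For fixed `x` the first `Bl m` positions of `w` are fixed and `a` is
determined by `tl w`, `tl w ∈ A j (D - Bl m)`, `tl τ - tl w ∈ A j' (D' - Bl m)`. `encard_le_mul`. -/
theorem same (hp : p ≠ 2) (hη : ∀ m, ShOK ν m (η m)) {j j' D D' R : ℕ} (h0 : st ν 0 ≤ D)
    (h0' : st ν 0 ≤ D') (hb : bi ν D = bi ν D')
    (hR : Cross (A η Φ j (D - Bl ν (bi ν D))) (A η Φ j' (D' - Bl ν (bi ν D))) R) :
    Cross (A η Φ (j + 1) D) (A η Φ (j' + 1) D') (2 * R) := by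
  intro t
  set m := bi ν D with hm
  rcases Set.eq_empty_or_nonempty {a | a ∈ A η Φ (j + 1) D ∧ t - a ∈ A η Φ (j' + 1) D'} with hS | ⟨a0, ha0⟩
  · rw [hS, Set.encard_empty]
    exact bot_le
  have hGinj : Function.Injective (G ν η m) := (uni_G hη m).injective
  -- the decomposition of the elements of the set
  have hdec : ∀ a, (a ∈ A η Φ (j + 1) D ∧ t - a ∈ A η Φ (j' + 1) D') → ∃ w w' : V p,
      pm Φ m w ^ 2 = vm Φ m w ∧ tl p (Bl ν m) w ∈ A η Φ j (D - Bl ν m) ∧ a = G ν η m w ∧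
      pm Φ m w' ^ 2 = vm Φ m w' ∧ tl p (Bl ν m) w' ∈ A η Φ j' (D' - Bl ν m) ∧ t - a = G ν η m w' := by
    intro a ha
    obtain ⟨w, h1, h2, h3⟩ := (mem_A_succ h0).1 ha.1
    obtain ⟨w', h1', h2', h3'⟩ := (mem_A_succ h0').1 ha.2
    rw [← hb] at h1' h2' h3'
    exact ⟨w, w', h1, h2, h3, h1', h2', h3'⟩
  obtain ⟨w0, w0', h01, h02, h03, h01', h02', h03'⟩ := hdec a0 ha0
  set τ := w0 + w0' with hτ
  have hGτ : G ν η m τ = t := by
    rw [hτ, map_add, ← h03, ← h03']
    abel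
  -- the inverse
  let gi : V p → V p := Function.invFun (G ν η m)
  have hgi : ∀ w, gi (G ν η m w) = w := Function.leftInverse_invFun hGinj
  have key : ∀ a, (a ∈ A η Φ (j + 1) D ∧ t - a ∈ A η Φ (j' + 1) D') →
      pm Φ m (gi a) ^ 2 = vm Φ m (gi a) ∧ tl p (Bl ν m) (gi a) ∈ A η Φ j (D - Bl ν m) ∧
      a = G ν η m (gi a) ∧ (pm Φ m τ - pm Φ m (gi a)) ^ 2 = vm Φ m τ - pm Φ m (gi a) ^ 2 ∧
      tl p (Bl ν m) τ - tl p (Bl ν m) (gi a) ∈ A η Φ j' (D' - Bl ν m) := by
    intro a ha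
    obtain ⟨w, w', h1, h2, h3, h1', h2', h3'⟩ := hdec a ha
    have e1 : gi a = w := by rw [h3]; exact hgi w
    have e2 : w + w' = τ := by
      apply hGinj
      rw [hGτ, map_add, ← h3, ← h3']
      abel
    have e3 : w' = τ - w := by rw [← e2]; abel
    rw [e1]
    refine ⟨h1, h2, h3, ?_, ?_⟩
    · rw [e3, map_sub, map_sub] at h1'
      rw [h1]
      exact h1'
    · rw [← map_sub, ← e3]
      exact h2'
  refine encard_le_mul _ (fun a => pm Φ m (gi a)) ?_ ?_
  · -- at most two values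
    have hsub : (fun a => pm Φ m (gi a)) '' {a | a ∈ A η Φ (j + 1) D ∧ t - a ∈ A η Φ (j' + 1) D'} ⊆
        {pm Φ m (gi a0), pm Φ m τ - pm Φ m (gi a0)} := by
      rintro _ ⟨a, ha, rfl⟩
      have hx := (key a ha).2.2.2.1
      have hx0 := (key a0 ha0).2.2.2.1
      have h2 : (2 : GaloisField p (Bl ν m)) * ((pm Φ m (gi a) - pm Φ m (gi a0)) *
          (pm Φ m (gi a) + pm Φ m (gi a0) - pm Φ m τ)) = 0 := by
        linear_combination hx - hx0
      rcases mul_eq_zero.1 h2 with h3 | h3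
      · exact absurd h3 (SAME_two hp _)
      · rcases mul_eq_zero.1 h3 with h4 | h4
        · left
          exact sub_eq_zero.1 h4
        · right
          rw [Set.mem_singleton_iff]
          change pm Φ m (gi a) = _
          linear_combination h4
    refine (Set.encard_le_encard hsub).trans ?_
    refine (Set.encard_insert_le _ _).trans ?_
    rw [Set.encard_singleton]
    exact le_of_eq (by norm_num)
  · -- the fibres
    intro b
    refine le_trans ?_ (hR (tl p (Bl ν m) τ))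
    refine Set.encard_le_encard_of_injOn (f := fun a => tl p (Bl ν m) (gi a)) ?_ ?_
    · rintro a ⟨ha, -⟩
      exact ⟨(key a ha).2.1, (key a ha).2.2.2.2⟩
    · rintro a ⟨ha, hab⟩ a' ⟨ha', hab'⟩ htl
      have e1 : pm Φ m (gi a) = pm Φ m (gi a') := hab.trans hab'.symm
      have e2 : vm Φ m (gi a) = vm Φ m (gi a') := by
        rw [← (key a ha).1, ← (key a' ha').1, e1]
      have e3 := eq_of_pm_vm e1 e2
      have e4 : gi a = gi a' := by
        funext i
        by_cases hi : i < Bl ν m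
        · exact e3 i hi
        · have e5 := congrFun htl (i - Bl ν m)
          change tl p (Bl ν m) (gi a) (i - Bl ν m) = tl p (Bl ν m) (gi a') (i - Bl ν m) at e5
          rw [tl_apply, tl_apply, Nat.sub_add_cancel (not_lt.1 hi)] at e5
          exact e5
      rw [(key a ha).2.2.1, (key a' ha').2.2.1, e4]

end Pool.Agent.B2g
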