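import Pool.Agent.B2g.Near2
import Pool.Agent.B2g.FarX
import Pool.Agent.B2g.Same

/-! Module REC0 (MP_491344_nt, text MP_491344_nt_b2g_helper7.md). -/

namespace Pool.Agent.B2g

variable {p ν : ℕ} [Fact p.Prime] {Φ : Flds p ν} {η : ℕ → (V p →ₗ[ZMod p] V p)}

/-- everything that is assumed in the recursion -/
structure Setup (Φ : Flds p ν) (η : ℕ → (V p →ₗ[ZMod p] V p)) (J : ℕ) : Prop where
  hν : 3 ≤ ν
  hp : 2 ^ (40 * 4 ^ ν) ≤ p
  hη : ∀ m, ShOK ν m (η m)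
  good : ∀ m, m0 ν ≤ m → Good Φ η J m

/-- Module REC0. -/
theorem Setup.p_ne_two {J : ℕ} (S : Setup Φ η J) : p ≠ 2 := by
  have h := S.hp
  have h1 : (2 : ℕ) ^ 2 ≤ 2 ^ (40 * 4 ^ ν) := by
    apply Nat.pow_le_pow_right (by norm_num)
    have : 1 ≤ 4 ^ ν := Nat.one_le_pow _ _ (by norm_num)
    omega
  intro h2
  omega

/-- Module REC0. -/
theorem Setup.hp' {J : ℕ} (S : Setup Φ η J) : 2 ^ ν * (ν + 3) < p := by
  have h := S.hp
  have h1 : ν + 3 < 2 ^ (ν + 3) := Nat.lt_pow_self (by norm_num)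
  have h2 : 2 ^ ν * (ν + 3) < 2 ^ ν * 2 ^ (ν + 3) :=
    Nat.mul_lt_mul_of_pos_left h1 (by positivity)
  have h3 : ν < 4 ^ ν := Nat.lt_pow_self (by norm_num)
  have h4 : 2 ^ ν * 2 ^ (ν + 3) ≤ 2 ^ (40 * 4 ^ ν) := by
    rw [← pow_add]
    exact Nat.pow_le_pow_right (by norm_num) (by omega)
  omega

/-- Module REC0. -/
theorem Hyp.mono {m0 j D D' i E E' : ℕ} (h : Hyp p ν m0 j D D') (h1 : used ν i E ⊆ used ν j D)
    (h2 : E' ≤ D') : Hyp p ν m0 i E E' := by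
  intro k hk
  obtain ⟨h3, h4⟩ := h k (h1 hk)
  exact ⟨h3, lt_of_le_of_lt (bi_mono ν h2) h4⟩

/-- Module REC0. -/
theorem A_eq_zero_of_used {j D : ℕ} (h : used ν j D = ∅) : A η Φ j D = {0} := by
  cases j with
  | zero => rfl
  | succ j =>
    by_cases hD : D < st ν 0
    · exact A_small _ hD
    · exfalso
      simp only [used, hD, if_false] at h
      exact Finset.insert_ne_empty _ _ h

end Pool.Agent.B2g
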