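import Pool.Agent.B2g.Rec0

/-! Module REC1 (MP_491344_nt, text MP_491344_nt_b2g_helper7.md). -/

namespace Pool.Agent.B2g

variable {p ν : ℕ} [Fact p.Prime] {Φ : Flds p ν} {η : ℕ → (V p →ₗ[ZMod p] V p)}

/-- auxiliary -/
theorem REC1_sl {ν m : ℕ} (hm : m0 ν ≤ m) : 2 ^ (ν + 7) ≤ sl ν m := by
  obtain ⟨l, _, _, h3⟩ := sl_pow hm
  have h4 : 2 * ν + 8 ≤ m / 2 ^ ν := by
    rw [Nat.le_div_iff_mul_le (by positivity)]
    unfold m0 at hm
    linarith [Nat.mul_comm (2 ^ ν) (2 * ν + 8)]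
  have h5 : 2 ^ (2 * ν + 8) ≤ Un ν m := Nat.pow_le_pow_right (by norm_num) h4
  have h6 : 2 ^ (2 * ν + 8) = 2 * 2 ^ ν * 2 ^ (ν + 7) := by
    rw [← pow_succ', ← pow_add]; congr 1; ring
  rw [← h3, h6] at h5
  exact Nat.le_of_mul_le_mul_left h5 (by positivity)

/-- auxiliary -/
theorem REC1_bi {ν j D : ℕ} (h : used ν j D ≠ ∅) : st ν 0 ≤ D ∧ bi ν D ∈ used ν j D := by
  cases j with
  | zero => exact absurd rfl h
  | succ j =>
    by_cases hD : D < st ν 0
    · exact absurd (by simp [used, hD]) h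
    · refine ⟨not_lt.mp hD, ?_⟩
      simp [used, hD]

/-- auxiliary -/
theorem REC1_st0 (ν : ℕ) : st ν 0 ≤ 2 ^ ν + 1 := by
  unfold st sl Bl Un
  simp
  have : 1 / (2 * 2 ^ ν) ≤ 1 := Nat.div_le_self _ _
  omega

theorem REC1_one_le (a : ℕ) : 1 ≤ 2 ^ a := Nat.one_le_pow _ _ (by norm_num)

/-- Module REC1 (STR0).  `j' = 0` or `used = ∅`: `Cross ≤ 1`.  Otherwise `m = bi D' ≥ bi D ≥ m0`
(`bi D ∈ used`), `D ≤ Bl m < st m` so `bi D < m`; `Far` holds (`spl_of_le`, `le_bi_of_mem_used`);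
`far_cross` with `R = 1` (`D - Bl m = 0`, `A i 0 = {0}`). -/
theorem str0 {J : ℕ} (S : Setup Φ η J) {j j' D D' : ℕ} (hj : j ≤ J) (hj' : j' ≤ J)
    (h0' : st ν 0 ≤ D') (hD : D ≤ Bl ν (bi ν D')) (hH : Hyp p ν (m0 ν) j D D') :
    Cross (A η Φ j D) (A η Φ j' D') (2 ^ r0 ν) := by
  cases j' with
  | zero =>
    exact (cross_zero_right (A η Φ j D)).mono (le_refl _) (le_refl _) (REC1_one_le _)
  | succ j' =>
    by_cases hu : used ν j D = ∅
    · rw [A_eq_zero_of_used hu]
      exact (cross_zero_left _).mono (le_refl _) (le_refl _) (REC1_one_le _)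
    · obtain ⟨h0, hbi⟩ := REC1_bi hu
      have hBD' : Bl ν (bi ν D') ≤ D' := Bl_bi_le h0'
      have hm : m0 ν ≤ bi ν D' := le_trans (hH _ hbi).1 (bi_mono ν (le_trans hD hBD'))
      have hsl := REC1_sl hm
      have hsl0 : 1 ≤ sl ν (bi ν D') := le_trans (REC1_one_le _) hsl
      have hlt : bi ν D < bi ν D' := by
        by_contra hcon
        have h1 : st ν (bi ν D') ≤ st ν (bi ν D) := (st_strictMono ν).monotone (not_lt.mp hcon)
        have h2 : st ν (bi ν D) ≤ D := (bi_spec h0).1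
        have h3 : st ν (bi ν D') = Bl ν (bi ν D') + sl ν (bi ν D') := rfl
        omega
      have hF : Far p ν J (bi ν D') j D j' D' := by
        refine ⟨hj, by omega, h0', rfl, Or.inr hlt, by omega, spl_of_le _ _ _ hD, ?_⟩
        intro k hk
        exact ⟨lt_of_le_of_lt (le_bi_of_mem_used hk) hlt, (hH k hk).2⟩
      have := far_cross S.hη hF (S.good _ hm) (R := 1) (fun i _ _ => by
        have h0 : D - Bl ν (bi ν D') = 0 := by omega
        rw [h0, A_small i (show 0 < st ν 0 from lt_of_lt_of_le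
          (lt_of_le_of_lt (Nat.zero_le _) (lt_Bl ν 0)) (Nat.le_add_right _ _))]
        exact cross_zero_left _)
      simpa using this

/-- Module REC1 (STR1).  `m = bi D'`.  `far_cross` with `spl_far` and `R = 2 ^ r0`: for
`i ≤ j`, `used i (D - Bl m) ⊆ used j D`: if `D ≤ Bl m` the inner set is `{0}`, otherwise
`e = D - Bl m ≤ sl m / 4`, `e' = D' - Bl m ≥ sl m`, `e' < 2 Bl (bi e')` (`lt_two_mul_Bl_bi`; `sl m ≥ st 0`
because `sl m ≥ 2^(ν+7)`), so `e ≤ Bl (bi e')`: `str0` (with `Hyp.mono`). -/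
theorem str1 {J : ℕ} (S : Setup Φ η J) {j j' D D' : ℕ} (hj : j ≤ J) (hj' : j' ≤ J)
    (h0' : st ν 0 ≤ D') (hD : D ≤ Bl ν (bi ν D') + sl ν (bi ν D') / 4)
    (hb : D < st ν 0 ∨ bi ν D < bi ν D') (hH : Hyp p ν (m0 ν) j D D') :
    Cross (A η Φ j D) (A η Φ j' D') (2 ^ (2 * r0 ν)) := by
  cases j' with
  | zero =>
    exact (cross_zero_right (A η Φ j D)).mono (le_refl _) (le_refl _) (REC1_one_le _)
  | succ j' =>
    by_cases hu : used ν j D = ∅
    · rw [A_eq_zero_of_used hu]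
      exact (cross_zero_left _).mono (le_refl _) (le_refl _) (REC1_one_le _)
    · obtain ⟨h0, hbi⟩ := REC1_bi hu
      have hlt : bi ν D < bi ν D' := by
        rcases hb with h | h
        · omega
        · exact h
      have hm : m0 ν ≤ bi ν D' := le_trans (hH _ hbi).1 hlt.le
      have hsl := REC1_sl hm
      have hF : Far p ν J (bi ν D') j D j' D' := by
        refine ⟨hj, by omega, h0', rfl, Or.inr hlt, hD, spl_far S.hν hm j hD, ?_⟩
        intro k hk
        exact ⟨lt_of_le_of_lt (le_bi_of_mem_used hk) hlt, (hH k hk).2⟩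
      have := far_cross S.hη hF (S.good _ hm) (R := 2 ^ r0 ν) (fun i hi hui => by
        by_cases hDB : D ≤ Bl ν (bi ν D')
        · have h0 : D - Bl ν (bi ν D') = 0 := by omega
          rw [h0, A_small i (show 0 < st ν 0 from lt_of_lt_of_le
            (lt_of_le_of_lt (Nat.zero_le _) (lt_Bl ν 0)) (Nat.le_add_right _ _))]
          exact (cross_zero_left _).mono (le_refl _) (le_refl _) (REC1_one_le _)
        · have h1 : st ν (bi ν D') ≤ D' := (bi_spec h0').1
          have h2 : st ν (bi ν D') = Bl ν (bi ν D') + sl ν (bi ν D') := rfl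
          have h3 : (2 : ℕ) ^ (ν + 7) = 128 * 2 ^ ν := by rw [pow_add]; ring
          have h4 := REC1_st0 ν
          have h5 : 1 ≤ 2 ^ ν := REC1_one_le ν
          have h6 : st ν 0 ≤ D' - Bl ν (bi ν D') := by omega
          have h7 := lt_two_mul_Bl_bi (le_trans (by norm_num) S.hν) h6
          exact str0 S (le_trans hi hj) (by omega) h6 (by omega)
            (hH.mono hui (Nat.sub_le _ _)))
      rw [two_mul, pow_add]
      exact this

end Pool.Agent.B2g
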