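import Pool.Agent.B2g.Defs

/-! Module SQF (MP_491344_nt, text MP_491344_nt_b2g_helper7.md). -/

namespace Pool.Agent.B2g

section SqfAlgebra

open Finset

variable {P ι E : Type*} [Fintype P] [DecidableEq P] [Fintype ι] [DecidableEq ι] [Field E]

/-- If the squares of the separating functions `a i` on a finite set are combinations of `1` and the
`a j`, then the set has at most `2 ^ card ι` elements. -/
theorem SQF_card_le (a : ι → P → E)
    (hsq : ∀ i, ∃ (d : ι → E) (c : E), ∀ p, a i p ^ 2 = ∑ j, d j * a j p + c)
    (hsep : ∀ p q, p ≠ q → ∃ i, a i p ≠ a i q) :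
    Fintype.card P ≤ 2 ^ Fintype.card ι := by
  classical
  set f : Finset ι → (P → E) := fun s => ∏ i ∈ s, a i with hf
  set M : Submodule E (P → E) := Submodule.span E (Set.range f) with hM
  have hfM : ∀ s, f s ∈ M := fun s => Submodule.subset_span ⟨s, rfl⟩
  -- closed under multiplication by `a j`
  have hmul : ∀ (n : ℕ) (s : Finset ι), s.card = n → ∀ j, a j * f s ∈ M := by
    intro n
    induction n using Nat.strong_induction_on with
    | _ n ih =>
      intro s hs j
      by_cases hj : j ∈ s
      · obtain ⟨d, c, hd⟩ := hsq j
        have h1 : f s = a j * f (s.erase j) := by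
          simp only [hf]
          rw [Finset.mul_prod_erase s a hj]
        have h2 : a j * f s = ∑ i, d i • (a i * f (s.erase j)) + c • f (s.erase j) := by
          rw [h1]
          funext p
          have := hd p
          simp only [Pi.mul_apply, Pi.add_apply, Finset.sum_apply, Pi.smul_apply, smul_eq_mul]
          rw [← mul_assoc, ← sq, this, add_mul, Finset.sum_mul]
          congr 1
          exact Finset.sum_congr rfl fun i _ => by ring
        rw [h2]
        refine M.add_mem (M.sum_mem fun i _ => M.smul_mem _ ?_) (M.smul_mem _ (hfM _))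
        have h3 : (s.erase j).card < n := by
          rw [← hs]; exact Finset.card_erase_lt_of_mem hj
        exact ih _ h3 _ rfl i
      · have h1 : a j * f s = f (insert j s) := by
          simp only [hf]
          rw [Finset.prod_insert hj]
        rw [h1]
        exact hfM _
  have hmul' : ∀ j, ∀ g ∈ M, a j * g ∈ M := by
    intro j g hg
    refine Submodule.span_induction (p := fun g _ => a j * g ∈ M) ?_ ?_ ?_ ?_ hg
    · rintro _ ⟨s, rfl⟩
      exact hmul _ s rfl j
    · simp
    · intro x y _ _ hx hy
      rw [mul_add]; exact M.add_mem hx hy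
    · intro c x _ hx
      rw [mul_smul_comm]; exact M.smul_mem _ hx
  -- indicator functions
  have hone : (1 : P → E) ∈ M := by
    have := hfM ∅
    simpa [hf] using this
  have hind : ∀ p : P, ∀ s : Finset P, p ∉ s → ∃ g ∈ M, g p = 1 ∧ ∀ q ∈ s, g q = 0 := by
    intro p s
    induction s using Finset.induction_on with
    | empty => intro _; exact ⟨1, hone, rfl, by simp⟩
    | insert q s hq ih =>
      intro hp
      rw [Finset.mem_insert, not_or] at hp
      obtain ⟨g, hg, hgp, hgs⟩ := ih hp.2
      obtain ⟨i, hi⟩ := hsep p q hp.1
      have hne : a i p - a i q ≠ 0 := sub_ne_zero.2 hi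
      refine ⟨(a i p - a i q)⁻¹ • (a i * g - a i q • g), ?_, ?_, ?_⟩
      · exact M.smul_mem _ (M.sub_mem (hmul' i g hg) (M.smul_mem _ hg))
      · simp only [Pi.smul_apply, Pi.sub_apply, Pi.mul_apply, smul_eq_mul, hgp, mul_one]
        exact inv_mul_cancel₀ hne
      · intro r hr
        rw [Finset.mem_insert] at hr
        rcases hr with rfl | hr
        · simp
        · simp [hgs r hr]
  have htop : M = ⊤ := by
    rw [Submodule.eq_top_iff']
    intro g
    choose u hu hup huq using fun p => hind p (Finset.univ.erase p) (by simp)
    have : g = ∑ p, g p • u p := by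
      funext q
      rw [Finset.sum_apply, Finset.sum_eq_single q]
      · simp [hup]
      · intro p _ hp
        have := huq p q (by simp [Ne.symm hp])
        simp [this]
      · intro h; exact absurd (Finset.mem_univ q) h
    rw [this]
    exact M.sum_mem fun p _ => M.smul_mem _ (hu p)
  have h1 : Module.finrank E (P → E) = Fintype.card P := Module.finrank_fintype_fun_eq_card E
  have h2 : Module.finrank E (⊤ : Submodule E (P → E)) ≤ (Set.range f).toFinset.card := by
    rw [← htop, hM]
    exact finrank_span_le_card _
  have h3 : (Set.range f).toFinset.card ≤ 2 ^ Fintype.card ι := by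
    rw [Set.toFinset_range]
    refine (Finset.card_image_le).trans ?_
    rw [Finset.card_univ, Fintype.card_finset]
  rw [finrank_top, h1] at h2
  exact h2.trans h3

end SqfAlgebra

/-- Module SQF (squarefree monomials).  `P` a finite type, `A = P → E` (functions), `l : Fin r → A`.
Suppose every `l i ^ 2` is in the `E`-span of `1` and the `l j`.  Then the `E`-algebra generated by
the `l i` is spanned (as a vector space) by the `2 ^ r` squarefree monomials; if the `l i` separate
the points of `P`, this algebra is everything, so `card P ≤ 2 ^ r`.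
Proof: let `M k` = span of the squarefree monomials `∏ i ∈ S, l i`, `card S ≤ k`.
Claim: `card S ≤ k` implies `l j * ∏ i ∈ S, l i ∈ M (k+1)` (induction on `k`: if `j ∉ S` clear;
if `j ∈ S` write it as `l j ^2 * ∏ (S \ {j}) = c₀ ∏(S\{j}) + ∑ cᵢ lᵢ ∏ (S\{j})` and use the
induction hypothesis).  So the span of all squarefree monomials is stable under multiplication by
each `l j`, hence it is a subalgebra; it separates points, so it is everything
(for `x ≠ y` there is `i` with `l i x ≠ l i y`; products of the functions
`(l i - l i y)/(l i x - l i y)` give the indicator of `x`).  Dimension count. -/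
theorem sqf {E P : Type*} [Field E] [Finite P] {r : ℕ} (l : Fin r → (P → E))
    (hsq : ∀ i, l i ^ 2 ∈ Submodule.span E (insert 1 (Set.range l)))
    (hsep : ∀ x y : P, (∀ i, l i x = l i y) → x = y) : Nat.card P ≤ 2 ^ r := by
  classical
  have : Fintype P := Fintype.ofFinite P
  have key := SQF_card_le (P := P) (ι := Fin r) (E := E) l ?_ ?_
  · rw [Nat.card_eq_fintype_card]
    simpa using key
  · intro i
    obtain ⟨c, z, hz, h1⟩ := Submodule.mem_span_insert.1 (hsq i)
    obtain ⟨d, hd⟩ := (Submodule.mem_span_range_iff_exists_fun E).1 hz
    refine ⟨d, c, fun q => ?_⟩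
    have h2 := congrFun h1 q
    rw [← hd] at h2
    simp only [Pi.pow_apply, Pi.add_apply, Pi.smul_apply, Pi.one_apply, smul_eq_mul, mul_one,
      Finset.sum_apply] at h2
    rw [h2, add_comm]
  · intro x y hxy
    by_contra hcon
    push Not at hcon
    exact hxy (hsep x y hcon)

end Pool.Agent.B2g
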