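import Pool.Agent.B2g.Rec1
import Pool.Agent.B2g.NumF

/-! Module STRAD (MP_491344_nt, text MP_491344_nt_b2g_helper7.md). -/

namespace Pool.Agent.B2g

variable {p ν : ℕ} [Fact p.Prime] {Φ : Flds p ν} {η : ℕ → (V p →ₗ[ZMod p] V p)}

/-- auxiliary -/
theorem STRAD_used {m j D : ℕ} (hν : 3 ≤ ν) (hm : m0 ν ≤ m) (h1 : Bl ν m + sl ν m / 4 < D)
    (h2 : D < st ν m) : used ν (j - 2) (D - Bl ν m) ⊆ used ν j D := by
  obtain ⟨a1, a2, a3, a4, a5, _⟩ := near_num hν hm h1 h2
  match j with
  | 0 => exact Finset.Subset.refl _ |>.trans (by simp [used])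
  | 1 => simp [used]
  | j + 2 =>
    have e1 : used ν (j + 2) D = insert (bi ν D) (used ν (j + 1) (D - Bl ν (bi ν D))) := by
      simp [used, not_lt.mpr a1]
    have e2 : used ν (j + 1) (D - Bl ν (m - 1)) =
        insert (ui ν m) (used ν j (D - Bl ν m)) := by
      simp only [used, not_lt.mpr a3, if_false, a4, a5]
    rw [e1, a2, e2]
    intro x hx
    simp only [Nat.add_sub_cancel] at hx
    exact Finset.mem_insert_of_mem (Finset.mem_insert_of_mem hx)

/-- auxiliary -/
theorem STRAD_lt {D k : ℕ} (h0 : st ν 0 ≤ D) (h : bi ν D < k) : D < st ν k := by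
  have h1 := (bi_spec h0).2
  exact lt_of_lt_of_le h1 ((st_strictMono ν).monotone h)

theorem STRAD_one (j j' : ℕ) : 1 ≤ 2 ^ (min j j') * (2 ^ (4 * 2 ^ ν) * 2 ^ (2 * r0 ν)) :=
  Nat.one_le_iff_ne_zero.mpr (by positivity)

/-- Module STRAD.  Strong induction on `D'`.  `j = 0`, `j' = 0`, `used = ∅`: `Cross ≤ 1`.
Let `k = bi D'`.
(a) `bi D = k`: `Bl k ≤ D < 2^l ≤ D' < st (k+1)`: `strad_num` gives `Bl (k+1) = 2^l`,
`2^l - Bl k = Un k`, a power of two; `D - Bl k < Un k ≤ D' - Bl k`; `same` and the induction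
hypothesis for `(j-1, j'-1)` (`2 * 2^(min (j-1) (j'-1)) = 2^(min j j')`).
(b) `bi D < k` (or `D < st 0`) and `D ≤ Bl k + sl k / 4`: `str1`.
(c) `bi D < k`, `D > Bl k + sl k / 4`: `D < st k` (as `bi D < k`), again `Bl (k+1) = 2^l`; `near`;
inner pair `e = D - Bl k < sl k`, `e' = D' - Bl k ≥ Un k ≥ 2 sl k`, `e ≤ Bl (bi e')`
(`e' < 2 Bl (bi e')`): `str0`; `Cross ≤ 2^(4n) 2^r0`. (`used (j-2) e ⊆ used j D` by `near_num`.) -/
theorem strad {J : ℕ} (S : Setup Φ η J) : ∀ (D' l j j' D : ℕ), j ≤ J → j' ≤ J →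
    D < 2 ^ l → 2 ^ l ≤ D' → Hyp p ν (m0 ν) j D D' →
    Cross (A η Φ j D) (A η Φ j' D') (2 ^ (min j j') * (2 ^ (4 * 2 ^ ν) * 2 ^ (2 * r0 ν))) := by
  intro D'
  induction D' using Nat.strong_induction_on with
  | _ D' ih =>
  intro l j j' D hj hj' h1 h2 hH
  cases j' with
  | zero =>
    exact (cross_zero_right (A η Φ j D)).mono (le_refl _) (le_refl _) (STRAD_one _ _)
  | succ j' =>
    by_cases hu : used ν j D = ∅
    · rw [A_eq_zero_of_used hu]
      exact (cross_zero_left _).mono (le_refl _) (le_refl _) (STRAD_one _ _)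
    · obtain ⟨h0, hbi⟩ := REC1_bi hu
      have h0' : st ν 0 ≤ D' := by omega
      have hle : bi ν D ≤ bi ν D' := bi_mono ν (by omega)
      have hm : m0 ν ≤ bi ν D' := le_trans (hH _ hbi).1 hle
      have hst : D' < st ν (bi ν D' + 1) := (bi_spec h0').2
      by_cases hs : bi ν D = bi ν D'
      · cases j with
        | zero => exact absurd rfl hu
        | succ j =>
          have hB : Bl ν (bi ν D') ≤ D := hs ▸ Bl_bi_le h0
          have hx : Bl ν (bi ν D' + 1) = 2 ^ l :=
            strad_num (lt_of_le_of_lt hB h1) (lt_of_le_of_lt h2 hst)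
          have hx2 := Bl_succ ν (bi ν D')
          have hpos : 0 < Bl ν (bi ν D') := lt_of_le_of_lt (Nat.zero_le _) (lt_Bl ν _)
          have hsub : used ν j (D - Bl ν (bi ν D')) ⊆ used ν (j + 1) D := by
            have e1 : used ν (j + 1) D = insert (bi ν D) (used ν j (D - Bl ν (bi ν D))) := by
              simp [used, not_lt.mpr h0]
            rw [e1, hs]
            exact Finset.subset_insert _ _
          have key := ih (D' - Bl ν (bi ν D')) (by omega) (bi ν D' / 2 ^ ν) j j'
            (D - Bl ν (bi ν D')) (by omega) (by omega)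
            (show D - Bl ν (bi ν D') < Un ν (bi ν D') by omega)
            (show Un ν (bi ν D') ≤ D' - Bl ν (bi ν D') by omega)
            (hH.mono hsub (Nat.sub_le _ _))
          have := same S.p_ne_two S.hη h0 h0' hs (by rw [hs]; exact key)
          refine this.mono (le_refl _) (le_refl _) (le_of_eq ?_)
          rw [min_add_add_right, pow_succ]
          ring
      · have hlt : bi ν D < bi ν D' := lt_of_le_of_ne hle hs
        by_cases hfar : D ≤ Bl ν (bi ν D') + sl ν (bi ν D') / 4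
        · refine (str1 S hj hj' h0' hfar (Or.inr hlt) hH).mono (le_refl _) (le_refl _) ?_
          calc 2 ^ (2 * r0 ν) = 1 * (1 * 2 ^ (2 * r0 ν)) := by ring
            _ ≤ _ := Nat.mul_le_mul (REC1_one_le _)
              (Nat.mul_le_mul (REC1_one_le _) (le_refl _))
        · push Not at hfar
          have hDst : D < st ν (bi ν D') := STRAD_lt h0 hlt
          have hx : Bl ν (bi ν D' + 1) = 2 ^ l :=
            strad_num (by omega) (lt_of_le_of_lt h2 hst)
          have hx2 := Bl_succ ν (bi ν D')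
          have h2sl := two_sl_le ν (bi ν D')
          have hste : st ν (bi ν D') = Bl ν (bi ν D') + sl ν (bi ν D') := rfl
          have hsl := REC1_sl hm
          have h3 : (2 : ℕ) ^ (ν + 7) = 128 * 2 ^ ν := by rw [pow_add]; ring
          have h4 := REC1_st0 ν
          have h5 : 1 ≤ 2 ^ ν := REC1_one_le ν
          have h6 : st ν 0 ≤ D' - Bl ν (bi ν D') := by omega
          have h7 := lt_two_mul_Bl_bi (le_trans (by norm_num) S.hν) h6
          have key := str0 S (j := j - 2) (j' := j') (D := D - Bl ν (bi ν D')) (by omega)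
            (by omega) h6 (by omega)
            (hH.mono (STRAD_used S.hν hm hfar hDst) (Nat.sub_le _ _))
          have := near S.hν S.hp' S.hη hm h0' rfl hfar hDst key
          refine this.mono (le_refl _) (le_refl _) ?_
          calc 2 ^ (4 * 2 ^ ν) * 2 ^ r0 ν = 1 * (2 ^ (4 * 2 ^ ν) * 2 ^ r0 ν) := by ring
            _ ≤ _ := Nat.mul_le_mul (REC1_one_le _) (Nat.mul_le_mul (le_refl _)
              (Nat.pow_le_pow_right (by norm_num) (by omega)))

end Pool.Agent.B2g
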